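import Pool.Agent.U627.ZC.Desc

/-!
# Q1 depends only on the characteristic
-/

set_option autoImplicit false
set_option linter.unusedSectionVars false

namespace Pool.Agent.U627.ZC

open scoped TensorProduct
open Pool.Agent.H826R3.SM Pool.Agent.TH671.DU Pool.Agent.N86.SQ Pool.Agent.U922.WO

/-- all non-empty finite `k`-schemes of degree `d` have growth rate at most `x` -/
def RatesAtMost (k : Type) [Field k] (d : ℕ) (x : ℝ) : Prop :=
  ∀ (A : Type) [CommRing A] [Algebra k A] [Module.Finite k A] [Nontrivial A],
    Module.finrank k A = d → rate k A ≤ x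

/-- Q1 holds for all non-empty finite `k`-schemes of degree `d` -/
def QOneInDegree (k : Type) [Field k] (d : ℕ) : Prop :=
  ∀ (A : Type) [CommRing A] [Algebra k A] [Module.Finite k A] [Nontrivial A],
    Module.finrank k A = d → QOne k A

theorem ratesAtMost_iff (k K : Type) [Field k] [IsAlgClosed k] [Field K] [IsAlgClosed K]
    [Algebra k K] (d : ℕ) (x : ℝ) : RatesAtMost k d x ↔ RatesAtMost K d x := by
  constructor
  · intro h B _ _ _ _ hB
    exact rate_le_up k K (fun A _ _ _ _ hA => h A hA) B hB
  · intro h A _ _ _ _ hA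
    have hnt : Nontrivial (K ⊗[k] A) := nontrivial_baseChange k K A
    rw [← rate_baseChange (k := k) (K := K) A]
    exact h (K ⊗[k] A) (by rw [Module.finrank_baseChange, hA])

theorem qOneInDegree_iff_rates (k : Type) [Field k] [IsAlgClosed k] (d : ℕ) :
    QOneInDegree k d ↔ RatesAtMost k d d := by
  constructor
  · intro h A _ _ _ _ hA
    have h1 := h A hA
    rw [qOne_iff_rate, hA] at h1
    exact h1.le
  · intro h A _ _ _ _ hA
    rw [qOne_iff_rate, hA]
    refine le_antisymm (h A hA) ?_
    have := finrank_le_rate (k := k) A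
    rwa [hA] at this

theorem ratesAtMost_prime (F k K : Type) [Field F] [Field k] [IsAlgClosed k] [Algebra F k]
    [Field K] [IsAlgClosed K] [Algebra F K] (d : ℕ) (x : ℝ) :
    RatesAtMost k d x ↔ RatesAtMost K d x := by
  let f : AlgebraicClosure F →ₐ[F] k := IsAlgClosed.lift
  let g : AlgebraicClosure F →ₐ[F] K := IsAlgClosed.lift
  let _ : Algebra (AlgebraicClosure F) k := f.toRingHom.toAlgebra
  let _ : Algebra (AlgebraicClosure F) K := g.toRingHom.toAlgebra
  exact (ratesAtMost_iff (AlgebraicClosure F) k d x).symm.trans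
    (ratesAtMost_iff (AlgebraicClosure F) K d x)

theorem ratesAtMost_char (p : ℕ) (k K : Type) [Field k] [IsAlgClosed k] [CharP k p] [Field K]
    [IsAlgClosed K] [CharP K p] (d : ℕ) (x : ℝ) : RatesAtMost k d x ↔ RatesAtMost K d x := by
  rcases CharP.char_is_prime_or_zero k p with hp | hp
  · have : Fact p.Prime := ⟨hp⟩
    let _ : Algebra (ZMod p) k := ZMod.algebra k p
    let _ : Algebra (ZMod p) K := ZMod.algebra K p
    exact ratesAtMost_prime (ZMod p) k K d x
  · subst hp
    have : CharZero k := CharP.charP_to_charZero k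
    have : CharZero K := CharP.charP_to_charZero K
    exact ratesAtMost_prime ℚ k K d x

theorem qOneInDegree_char (p : ℕ) (k K : Type) [Field k] [IsAlgClosed k] [CharP k p] [Field K]
    [IsAlgClosed K] [CharP K p] (d : ℕ) : QOneInDegree k d ↔ QOneInDegree K d := by
  rw [qOneInDegree_iff_rates, qOneInDegree_iff_rates]
  exact ratesAtMost_char p k K d d

end Pool.Agent.U627.ZC
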