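import Pool.Agent.U627.ZC.Prime

/-!
# The closed loci at all geometric points of a family
-/

set_option autoImplicit false
set_option linter.unusedSectionVars false

namespace Pool.Agent.U627.ZC

open scoped TensorProduct
open Pool.Agent.H826R3.SM Pool.Agent.TH671.DU Pool.Agent.N86.SQ Pool.Agent.U922.WO
open MvPolynomial

theorem qOne_iff_le {K A : Type} [Field K] [IsAlgClosed K] [CommRing A] [Algebra K A]
    [Nontrivial A] {d : ℕ} (c : Module.Basis (Fin d) K A) : QOne K A ↔ rate K A ≤ d := by
  have hfin : Module.Finite K A := Module.Finite.of_basis c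
  have hr : Module.finrank K A = d := by
    rw [Module.finrank_eq_card_basis c, Fintype.card_fin]
  rw [qOne_iff_rate, hr]
  constructor
  · intro h
    exact h.le
  · intro h
    refine le_antisymm h ?_
    have := finrank_le_rate (k := K) A
    rwa [hr] at this

/-- the structure constants of a free algebra over a ring -/
noncomputable def parR {R 𝓔 : Type} [CommRing R] [CommRing 𝓔] [Algebra R 𝓔] {d : ℕ}
    (b : Module.Basis (Fin d) R 𝓔) : PIdx d → R :=
  Sum.elim (fun z => b.repr (b z.1 * b z.2.1) z.2.2) (fun i => b.repr 1 i)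

theorem par_tensorR {R K 𝓔 : Type} [CommRing R] [Field K] [Algebra R K] [CommRing 𝓔]
    [Algebra R 𝓔] {d : ℕ} (b : Module.Basis (Fin d) R 𝓔) :
    par (Algebra.TensorProduct.basis K b) = fun v => algebraMap R K (parR b v) := by
  funext v
  rcases v with ⟨i, j, m⟩ | m
  · change (Algebra.TensorProduct.basis K b).repr
      (Algebra.TensorProduct.basis K b i * Algebra.TensorProduct.basis K b j) m =
      algebraMap R K (b.repr (b i * b j) m)
    rw [Algebra.TensorProduct.basis_apply, Algebra.TensorProduct.basis_apply,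
      Algebra.TensorProduct.tmul_mul_tmul, mul_one, Algebra.TensorProduct.basis_repr_tmul,
      one_smul, Finsupp.mapRange_apply]
  · change (Algebra.TensorProduct.basis K b).repr 1 m = algebraMap R K (b.repr 1 m)
    rw [Algebra.TensorProduct.one_def, Algebra.TensorProduct.basis_repr_tmul,
      one_smul, Finsupp.mapRange_apply]

/-- the locus `rate ≤ x` of a family is closed, at all geometric points -/
theorem exists_ideal (F : Type) [Field F] [PerfectField F] {d : ℕ} (hd : 0 < d) (x : ℝ)
    {R 𝓔 : Type} [CommRing R] [Algebra F R] [CommRing 𝓔] [Algebra R 𝓔]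
    (b : Module.Basis (Fin d) R 𝓔) : ∃ I : Ideal R, I.FG ∧ ∀ (K : Type) [Field K]
      [IsAlgClosed K] [Algebra F K] [Algebra R K] [IsScalarTower F R K],
      rate K (K ⊗[R] 𝓔) ≤ x ↔ ∀ r ∈ I, algebraMap R K r = 0 := by
  classical
  obtain ⟨W, hW⟩ := exists_finset_perfect F d hd x
  refine ⟨Ideal.span (W.image (aeval (parR b) : MvPolynomial (PIdx d) F → R)),
    ⟨W.image (aeval (parR b)), rfl⟩, ?_⟩
  intro K _ _ _ _ _
  let c : Module.Basis (Fin d) K (K ⊗[R] 𝓔) := Algebra.TensorProduct.basis K b
  have hfin : Module.Finite K (K ⊗[R] 𝓔) := Module.Finite.of_basis c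
  have hnt : Nontrivial (K ⊗[R] 𝓔) := Module.nontrivial_of_finrank_pos (R := K) (by
    rw [Module.finrank_eq_card_basis c, Fintype.card_fin]
    exact hd)
  rw [hW K (K ⊗[R] 𝓔) c]
  have h1 : ∀ G : MvPolynomial (PIdx d) F,
      aeval (par c) G = algebraMap R K (aeval (parR b) G) := by
    intro G
    have h2 : par c = fun v => (IsScalarTower.toAlgHom F R K) (parR b v) :=
      par_tensorR (K := K) b
    rw [h2, ← MvPolynomial.comp_aeval_apply]
    rfl
  constructor
  · intro h
    have h2 : Ideal.span ((W.image (aeval (parR b) : MvPolynomial (PIdx d) F → R) : Finset R) :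
        Set R) ≤ RingHom.ker (algebraMap R K) := by
      rw [Ideal.span_le]
      intro r hr
      rw [Finset.coe_image] at hr
      obtain ⟨G, hG, rfl⟩ := hr
      change algebraMap R K _ = 0
      rw [← h1]
      exact h G hG
    exact fun r hr => h2 hr
  · intro h G hG
    rw [h1]
    refine h _ (Ideal.subset_span ?_)
    rw [Finset.coe_image]
    exact ⟨G, hG, rfl⟩

end Pool.Agent.U627.ZC
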