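import Pool.Agent.U627.ZC.Gen

/-!
# A scheme of degree `d` with the largest growth rate
-/

set_option autoImplicit false
set_option linter.unusedSectionVars false

namespace Pool.Agent.U627.ZC

open scoped TensorProduct
open Pool.Agent.H826R3.SM Pool.Agent.TH671.DU Pool.Agent.N86.SQ Pool.Agent.U922.WO
open MvPolynomial

/-- the residue field of a prime ideal -/
theorem exists_field {P : Type} [CommRing P] (𝔭 : Ideal P) [𝔭.IsPrime] :
    ∃ (K : Type) (_ : Field K) (_ : IsAlgClosed K) (τ : P →+* K), RingHom.ker τ = 𝔭 := by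
  refine ⟨AlgebraicClosure (FractionRing (P ⧸ 𝔭)), inferInstance, inferInstance,
    ((algebraMap (FractionRing (P ⧸ 𝔭)) (AlgebraicClosure (FractionRing (P ⧸ 𝔭)))).comp
      (algebraMap (P ⧸ 𝔭) (FractionRing (P ⧸ 𝔭)))).comp (Ideal.Quotient.mk 𝔭), ?_⟩
  ext x
  rw [RingHom.mem_ker, RingHom.comp_apply, RingHom.comp_apply]
  constructor
  · intro h
    have h1 := (map_eq_zero_iff _ (algebraMap (FractionRing (P ⧸ 𝔭))
      (AlgebraicClosure (FractionRing (P ⧸ 𝔭)))).injective).1 h
    have h2 := (map_eq_zero_iff _ (IsFractionRing.injective (P ⧸ 𝔭)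
      (FractionRing (P ⧸ 𝔭)))).1 h1
    exact Ideal.Quotient.eq_zero_iff_mem.1 h2
  · intro h
    rw [Ideal.Quotient.eq_zero_iff_mem.2 h, map_zero, map_zero]

/-- base change of a free algebra to a field -/
theorem exists_fibre_alg {P K : Type} [CommRing P] [Field K] (τ : P →+* K) {𝓕 : Type}
    [CommRing 𝓕] [Algebra P 𝓕] {d : ℕ} (b : Module.Basis (Fin d) P 𝓕) :
    ∃ (Γ : Type) (_ : CommRing Γ) (_ : Algebra K Γ) (c : Module.Basis (Fin d) K Γ),
      (∀ i j m, par c (Sum.inl (i, j, m)) = τ (b.repr (b i * b j) m)) ∧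
      ∀ m, par c (Sum.inr m) = τ (b.repr 1 m) := by
  let _ : Algebra P K := τ.toAlgebra
  refine ⟨K ⊗[P] 𝓕, inferInstance, inferInstance, Algebra.TensorProduct.basis K b,
    fun i j m => ?_, fun m => ?_⟩
  · change (Algebra.TensorProduct.basis K b).repr
      (Algebra.TensorProduct.basis K b i * Algebra.TensorProduct.basis K b j) m =
      algebraMap P K (b.repr (b i * b j) m)
    rw [Algebra.TensorProduct.basis_apply, Algebra.TensorProduct.basis_apply,
      Algebra.TensorProduct.tmul_mul_tmul, mul_one, Algebra.TensorProduct.basis_repr_tmul,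
      one_smul, Finsupp.mapRange_apply]
  · change (Algebra.TensorProduct.basis K b).repr 1 m = algebraMap P K (b.repr 1 m)
    rw [Algebra.TensorProduct.one_def, Algebra.TensorProduct.basis_repr_tmul,
      one_smul, Finsupp.mapRange_apply]

/-- the points of the space of algebras with bases -/
def AlgPt (k : Type) [Field k] (d : ℕ) : Type :=
  {p : PIdx d → k // ∃ (A : Type) (_ : CommRing A) (_ : Algebra k A)
    (c : Module.Basis (Fin d) k A), par c = p}

/-- **A scheme with the largest growth rate**, over an extension of the base field. -/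
theorem exists_max (k : Type) [Field k] [IsAlgClosed k] (d : ℕ) :
    ∃ (K : Type) (_ : Field K) (_ : IsAlgClosed K) (_ : Algebra k K) (Γ : Type)
      (_ : CommRing Γ) (_ : Algebra K Γ) (_ : Module.Finite K Γ), Module.finrank K Γ = d ∧
      ∀ (A : Type) [CommRing A] [Algebra k A] [Module.Finite k A] [Nontrivial A],
        Module.finrank k A = d → rate k A ≤ rate K Γ := by
  classical
  choose E iE1 iE2 c hc using fun y : AlgPt k d => y.2
  obtain ⟨C, hCr, hC⟩ := exists_prod_basis c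
  let P : Subalgebra k (∀ _ : AlgPt k d, k) :=
    Algebra.adjoin k (Set.range fun (v : PIdx d) (y : AlgPt k d) => par (c y) v)
  have hP : ∀ v : PIdx d, (fun y => par (c y) v : ∀ _ : AlgPt k d, k) ∈ P := fun v =>
    Algebra.subset_adjoin ⟨v, rfl⟩
  have h1 : ∀ m, C.repr 1 m ∈ P := fun m => by
    have h2 : C.repr 1 m = fun y => par (c y) (Sum.inr m) := funext fun y => hCr 1 m y
    rw [h2]
    exact hP _
  have h2' : ∀ i j m, C.repr (C i * C j) m = fun y => par (c y) (Sum.inl (i, j, m)) := by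
    intro i j m
    funext y
    rw [hCr]
    change (c y).repr (C i y * C j y) m = (c y).repr (c y i * c y j) m
    rw [hC, hC]
  have h2 : ∀ i j m, C.repr (C i * C j) m ∈ P := fun i j m => by
    rw [h2']
    exact hP _
  obtain ⟨b, hb, hbr⟩ := exists_coord_basis P C h1 h2
  let ν : PIdx d → P := fun v => ⟨fun y => par (c y) v, hP v⟩
  have hν1 : ∀ i j m, b.repr (b i * b j) m = ν (Sum.inl (i, j, m)) := by
    intro i j m
    refine Subtype.ext ?_
    rw [hbr]
    change C.repr ((b i : ∀ y, E y) * (b j : ∀ y, E y)) m = _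
    rw [hb, hb, h2']
  have hν2 : ∀ m, b.repr 1 m = ν (Sum.inr m) := by
    intro m
    refine Subtype.ext ?_
    rw [hbr]
    exact funext fun y => hCr 1 m y
  have hft : Algebra.FiniteType k P :=
    (Subalgebra.fg_iff_finiteType P).1
      ⟨(Set.finite_range _).toFinset, by rw [Set.Finite.coe_toFinset]⟩
  have hnoeth : IsNoetherianRing P := Algebra.FiniteType.isNoetherianRing k P
  have hfinmin : (minimalPrimes P).Finite := minimalPrimes.finite_of_isNoetherianRing P
  -- the generic schemes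
  have hgen : ∀ 𝔭 : Ideal P, 𝔭.IsPrime → ∃ (K : Type) (_ : Field K) (_ : IsAlgClosed K)
      (_ : Algebra k K) (Γ : Type) (_ : CommRing Γ) (_ : Algebra K Γ)
      (cΓ : Module.Basis (Fin d) K Γ),
      ∀ F : MvPolynomial (PIdx d) k, aeval (par cΓ) F = 0 → aeval ν F ∈ 𝔭 := by
    intro 𝔭 h𝔭
    obtain ⟨K, _, _, τ, hτ⟩ := exists_field 𝔭
    let _ : Algebra k K := (τ.comp (algebraMap k P)).toAlgebra
    obtain ⟨Γ, _, _, cΓ, hc1, hc2⟩ := exists_fibre_alg (P := P) (𝓕 := coordSub P C h1 h2) τ b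
    refine ⟨K, inferInstance, inferInstance, inferInstance, Γ, inferInstance, inferInstance, cΓ,
      fun F hF => ?_⟩
    let τ' : P →ₐ[k] K := { τ with commutes' := fun t => rfl }
    have h3 : par cΓ = fun v => τ' (ν v) := by
      funext v
      rcases v with ⟨i, j, m⟩ | m
      · rw [hc1, hν1]
        rfl
      · rw [hc2, hν2]
        rfl
    rw [h3, ← MvPolynomial.comp_aeval_apply] at hF
    rw [← hτ]
    exact hF
  choose K iK1 iK2 iK3 Γ iΓ1 iΓ2 cΓ hΓ using hgen
  -- the minimal prime ideal with the largest rate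
  have hne : (minimalPrimes P).Nonempty := by
    have hy : Nonempty (AlgPt k d) := ⟨⟨_, (Fin d → k), inferInstance, inferInstance,
      Pi.basisFun k (Fin d), rfl⟩⟩
    have hntP : Nontrivial P := by
      obtain ⟨y⟩ := hy
      refine ⟨⟨0, 1, fun h => ?_⟩⟩
      have h3 := congrArg (fun f : P => (f : ∀ _ : AlgPt k d, k) y) h
      exact zero_ne_one (α := k) h3
    obtain ⟨M, hM⟩ := Ideal.exists_maximal P
    have hMp : M.IsPrime := hM.isPrime
    obtain ⟨𝔭, h𝔭, -⟩ := Ideal.exists_minimalPrimes_le (I := (⊥ : Ideal P)) (J := M) bot_le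
    exact ⟨𝔭, h𝔭⟩
  have hprime : ∀ 𝔭 ∈ minimalPrimes P, 𝔭.IsPrime := fun 𝔭 h => h.1.1
  let r : Ideal P → ℝ := fun 𝔭 => if h : 𝔭.IsPrime then rate (K 𝔭 h) (Γ 𝔭 h) else 0
  obtain ⟨𝔭₀, h𝔭₀, hmax⟩ := Set.exists_max_image (minimalPrimes P) r hfinmin hne
  have hp₀ := hprime 𝔭₀ h𝔭₀
  have hr₀ : r 𝔭₀ = rate (K 𝔭₀ hp₀) (Γ 𝔭₀ hp₀) := dif_pos hp₀
  refine ⟨K 𝔭₀ hp₀, inferInstance, inferInstance, inferInstance, Γ 𝔭₀ hp₀, inferInstance,
    inferInstance, Module.Finite.of_basis (cΓ 𝔭₀ hp₀), ?_, fun A _ _ _ _ hA => ?_⟩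
  · rw [Module.finrank_eq_card_basis (cΓ 𝔭₀ hp₀), Fintype.card_fin]
  · let cA : Module.Basis (Fin d) k A := Module.finBasisOfFinrankEq k A hA
    let y : AlgPt k d := ⟨par cA, A, inferInstance, inferInstance, cA, rfl⟩
    let φ : P →ₐ[k] k := (Pi.evalAlgHom k (fun _ : AlgPt k d => k) y).comp P.val
    have hφp : (RingHom.ker φ).IsPrime := RingHom.ker_isPrime φ
    obtain ⟨𝔭, h𝔭, hle⟩ := Ideal.exists_minimalPrimes_le (I := (⊥ : Ideal P))
      (J := RingHom.ker φ) bot_le
    have hp := hprime 𝔭 h𝔭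
    have h3 : rate k A ≤ rate (K 𝔭 hp) (Γ 𝔭 hp) := by
      refine rate_le_generic cA (cΓ 𝔭 hp) fun F hF => ?_
      have h4 : φ (aeval ν F) = 0 := hle (hΓ 𝔭 hp F hF)
      have h5 : φ (aeval ν F) = aeval (fun v => φ (ν v)) F := by
        rw [MvPolynomial.comp_aeval_apply]
      have h6 : (fun v => φ (ν v)) = par cA := by
        funext v
        exact congrFun (hc y) v
      rw [h4, h6, MvPolynomial.aeval_eq_eval] at h5
      exact h5.symm
    have h4 : r 𝔭 = rate (K 𝔭 hp) (Γ 𝔭 hp) := dif_pos hp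
    rw [← h4] at h3
    rw [← hr₀]
    exact h3.trans (hmax 𝔭 h𝔭)

/-- the same for all algebraically closed fields of a characteristic at once -/
theorem exists_max_char (p : ℕ) (hp : p.Prime ∨ p = 0) (d : ℕ) :
    ∃ (K : Type) (_ : Field K) (_ : IsAlgClosed K) (_ : CharP K p) (Γ : Type) (_ : CommRing Γ)
      (_ : Algebra K Γ) (_ : Module.Finite K Γ), Module.finrank K Γ = d ∧
      ∀ (k : Type) [Field k] [IsAlgClosed k] [CharP k p], RatesAtMost k d (rate K Γ) := by
  obtain ⟨k₀, _, _, _⟩ : ∃ (k₀ : Type) (_ : Field k₀) (_ : IsAlgClosed k₀), CharP k₀ p := by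
    rcases hp with hp | rfl
    · have : Fact p.Prime := ⟨hp⟩
      exact ⟨AlgebraicClosure (ZMod p), inferInstance, inferInstance,
        charP_of_injective_algebraMap (algebraMap (ZMod p) (AlgebraicClosure (ZMod p))).injective p⟩
    · exact ⟨ℂ, inferInstance, inferInstance, inferInstance⟩
  obtain ⟨K, _, _, _, Γ, _, _, hfin, hd, hmax⟩ := exists_max k₀ d
  have hK : CharP K p := charP_of_injective_algebraMap (algebraMap k₀ K).injective p
  refine ⟨K, inferInstance, inferInstance, hK, Γ, inferInstance, inferInstance, hfin, hd, ?_⟩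
  intro k _ _ _
  rw [ratesAtMost_char p k k₀ d]
  intro A _ _ _ _ hA
  exact hmax A hA

end Pool.Agent.U627.ZC
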