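import Pool.Agent.U627.ZC.Fam
import Pool.Agent.U627.ZC.Univ

/-!
# The set of the growth rates of degree `d` is compact
-/

set_option autoImplicit false
set_option linter.unusedSectionVars false

namespace Pool.Agent.U627.ZC

open scoped TensorProduct
open Pool.Agent.H826R3.SM Pool.Agent.TH671.DU Pool.Agent.N86.SQ Pool.Agent.U922.WO
open MvPolynomial

/-- the basis of the product of the algebras over the product of the fields -/
theorem exists_prod_basis' {Y : Type} {K : Y → Type} [∀ y, Field (K y)] {E : Y → Type}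
    [∀ y, CommRing (E y)] [∀ y, Algebra (K y) (E y)] {d : ℕ}
    (c : ∀ y, Module.Basis (Fin d) (K y) (E y)) :
    ∃ C : Module.Basis (Fin d) (∀ y, K y) (∀ y, E y),
      (∀ (a : ∀ y, E y) m y, C.repr a m y = (c y).repr (a y) m) ∧ ∀ m y, C m y = c y m := by
  classical
  let e : (∀ y, E y) ≃ₗ[(∀ y, K y)] (Fin d → (∀ y, K y)) :=
    { toFun := fun a m y => (c y).repr (a y) m
      map_add' := fun a a' => by
        funext m y
        change (c y).repr (a y + a' y) m = _
        rw [map_add, Finsupp.add_apply]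
        rfl
      map_smul' := fun l a => by
        funext m y
        change (c y).repr (l y • a y) m = l y * (c y).repr (a y) m
        rw [map_smul, Finsupp.smul_apply, smul_eq_mul]
      invFun := fun g y => ∑ m, g m y • c y m
      left_inv := fun a => funext fun y => (c y).sum_repr (a y)
      right_inv := fun g => by
        funext m y
        change (c y).repr (∑ m, g m y • c y m) m = g m y
        rw [(c y).repr_sum_self fun m => g m y] }
  let C : Module.Basis (Fin d) (∀ y, K y) (∀ y, E y) := Module.Basis.ofEquivFun e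
  have hCr : ∀ (a : ∀ y, E y) m y, C.repr a m y = (c y).repr (a y) m := fun a m y => by
    rw [Module.Basis.ofEquivFun_repr_apply]
    rfl
  refine ⟨C, hCr, fun m y => ?_⟩
  apply (c y).repr.injective
  refine Finsupp.ext fun m' => ?_
  rw [← hCr, C.repr_self, (c y).repr_self]
  by_cases h : m' = m
  · subst h
    rw [Finsupp.single_eq_same, Finsupp.single_eq_same]
    rfl
  · rw [Finsupp.single_eq_of_ne h, Finsupp.single_eq_of_ne h]
    rfl

/-- the growth rates of the schemes of degree `d` over algebraically closed fields containing `F` -/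
def rates (F : Type) [Field F] (d : ℕ) : Set ℝ :=
  {x | ∃ (K : Type) (_ : Field K) (_ : IsAlgClosed K) (_ : Algebra F K) (A : Type)
    (_ : CommRing A) (_ : Algebra K A) (_ : Module.Basis (Fin d) K A), rate K A = x}

theorem nontrivial_of_basis {K A : Type} [Field K] [CommRing A] [Algebra K A] {d : ℕ}
    (hd : 0 < d) (c : Module.Basis (Fin d) K A) : Nontrivial A := by
  have hfin : Module.Finite K A := Module.Finite.of_basis c
  exact Module.nontrivial_of_finrank_pos (R := K) (by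
    rw [Module.finrank_eq_card_basis c, Fintype.card_fin]
    exact hd)

/-- the supremum of the growth rates of any family is a growth rate -/
theorem exists_sup (F : Type) [Field F] [PerfectField F] {d : ℕ} (hd : 0 < d) {Y : Type}
    [Nonempty Y] (K : Y → Type) [∀ y, Field (K y)] [∀ y, IsAlgClosed (K y)]
    [∀ y, Algebra F (K y)] (E : Y → Type) [∀ y, CommRing (E y)] [∀ y, Algebra (K y) (E y)]
    (c : ∀ y, Module.Basis (Fin d) (K y) (E y)) :
    ∃ x ∈ rates F d, (∀ y, rate (K y) (E y) ≤ x) ∧ ∀ z, (∀ y, rate (K y) (E y) ≤ z) → x ≤ z := by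
  classical
  obtain ⟨C, hCr, hC⟩ := exists_prod_basis' c
  let P : Subalgebra F (∀ y, K y) :=
    Algebra.adjoin F (Set.range fun (v : PIdx d) (y : Y) => par (c y) v)
  have hP : ∀ v : PIdx d, (fun y => par (c y) v : ∀ y, K y) ∈ P := fun v =>
    Algebra.subset_adjoin ⟨v, rfl⟩
  have h1 : ∀ m, C.repr 1 m ∈ P := fun m => by
    have h2 : C.repr 1 m = fun y => par (c y) (Sum.inr m) := funext fun y => hCr 1 m y
    rw [h2]
    exact hP _
  have h2' : ∀ i j m, C.repr (C i * C j) m = fun y => par (c y) (Sum.inl (i, j, m)) := by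
    intro i j m
    funext y
    rw [hCr]
    change (c y).repr (C i y * C j y) m = (c y).repr (c y i * c y j) m
    rw [hC, hC]
  have h2 : ∀ i j m, C.repr (C i * C j) m ∈ P := fun i j m => by
    rw [h2']
    exact hP _
  obtain ⟨b, hb, hbr⟩ := exists_coord_basis P C h1 h2
  let ν : PIdx d → P := fun v => ⟨fun y => par (c y) v, hP v⟩
  have hν1 : ∀ i j m, b.repr (b i * b j) m = ν (Sum.inl (i, j, m)) := by
    intro i j m
    refine Subtype.ext ?_
    rw [hbr]
    change C.repr ((b i : ∀ y, E y) * (b j : ∀ y, E y)) m = _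
    rw [hb, hb, h2']
  have hν2 : ∀ m, b.repr 1 m = ν (Sum.inr m) := by
    intro m
    refine Subtype.ext ?_
    rw [hbr]
    exact funext fun y => hCr 1 m y
  have hft : Algebra.FiniteType F P :=
    (Subalgebra.fg_iff_finiteType P).1
      ⟨(Set.finite_range _).toFinset, by rw [Set.Finite.coe_toFinset]⟩
  have hnoeth : IsNoetherianRing P := Algebra.FiniteType.isNoetherianRing F P
  have hfinmin : (minimalPrimes P).Finite := minimalPrimes.finite_of_isNoetherianRing P
  -- the points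
  let φ : ∀ y, P →ₐ[F] K y := fun y => (Pi.evalAlgHom F K y).comp P.val
  have hφ : ∀ y (G : MvPolynomial (PIdx d) F), φ y (aeval ν G) = aeval (par (c y)) G := by
    intro y G
    rw [MvPolynomial.comp_aeval_apply]
    rfl
  -- the generic schemes
  have hgen : ∀ 𝔭 : Ideal P, 𝔭.IsPrime → ∃ (L : Type) (_ : Field L) (_ : IsAlgClosed L)
      (_ : Algebra F L) (Γ : Type) (_ : CommRing Γ) (_ : Algebra L Γ)
      (cΓ : Module.Basis (Fin d) L Γ),
      ∀ G : MvPolynomial (PIdx d) F, aeval (par cΓ) G = 0 ↔ aeval ν G ∈ 𝔭 := by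
    intro 𝔭 h𝔭
    obtain ⟨L, _, _, τ, hτ⟩ := exists_field 𝔭
    let _ : Algebra F L := (τ.comp (algebraMap F P)).toAlgebra
    obtain ⟨Γ, _, _, cΓ, hc1, hc2⟩ := exists_fibre_alg (P := P) (𝓕 := coordSub P C h1 h2) τ b
    refine ⟨L, inferInstance, inferInstance, inferInstance, Γ, inferInstance, inferInstance, cΓ,
      fun G => ?_⟩
    let τ' : P →ₐ[F] L := { τ with commutes' := fun t => rfl }
    have h3 : par cΓ = fun v => τ' (ν v) := by
      funext v
      rcases v with ⟨i, j, m⟩ | m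
      · rw [hc1, hν1]
        rfl
      · rw [hc2, hν2]
        rfl
    rw [h3, ← MvPolynomial.comp_aeval_apply, ← hτ]
    exact Iff.rfl
  choose L iL1 iL2 iL3 Γ iΓ1 iΓ2 cΓ hΓ using hgen
  have hne : (minimalPrimes P).Nonempty := by
    have hntP : Nontrivial P := by
      obtain ⟨y⟩ := ‹Nonempty Y›
      refine ⟨⟨0, 1, fun h => ?_⟩⟩
      have h3 := congrArg (φ y) h
      rw [map_zero, map_one] at h3
      exact zero_ne_one (α := K y) h3
    obtain ⟨M, hM⟩ := Ideal.exists_maximal P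
    have hMp : M.IsPrime := hM.isPrime
    obtain ⟨𝔭, h𝔭, -⟩ := Ideal.exists_minimalPrimes_le (I := (⊥ : Ideal P)) (J := M) bot_le
    exact ⟨𝔭, h𝔭⟩
  have hprime : ∀ 𝔭 ∈ minimalPrimes P, 𝔭.IsPrime := fun 𝔭 h => h.1.1
  let r : Ideal P → ℝ := fun 𝔭 => if h : 𝔭.IsPrime then rate (L 𝔭 h) (Γ 𝔭 h) else 0
  obtain ⟨𝔭₀, h𝔭₀, hmax⟩ := Set.exists_max_image (minimalPrimes P) r hfinmin hne
  have hp₀ := hprime 𝔭₀ h𝔭₀
  have hr₀ : r 𝔭₀ = rate (L 𝔭₀ hp₀) (Γ 𝔭₀ hp₀) := dif_pos hp₀
  refine ⟨r 𝔭₀, ⟨L 𝔭₀ hp₀, inferInstance, inferInstance, inferInstance, Γ 𝔭₀ hp₀, inferInstance,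
    inferInstance, cΓ 𝔭₀ hp₀, hr₀.symm⟩, fun y => ?_, fun z hz => ?_⟩
  · have hφp : (RingHom.ker (φ y)).IsPrime := RingHom.ker_isPrime (φ y)
    obtain ⟨𝔭, h𝔭, hle⟩ := Ideal.exists_minimalPrimes_le (I := (⊥ : Ideal P))
      (J := RingHom.ker (φ y)) bot_le
    have hp := hprime 𝔭 h𝔭
    have h4 : r 𝔭 = rate (L 𝔭 hp) (Γ 𝔭 hp) := dif_pos hp
    refine le_trans ?_ (hmax 𝔭 h𝔭)
    rw [h4]
    obtain ⟨W, hW⟩ := exists_finset_perfect F d hd (rate (L 𝔭 hp) (Γ 𝔭 hp))
    have hnt1 := nontrivial_of_basis hd (c y)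
    have hnt2 := nontrivial_of_basis hd (cΓ 𝔭 hp)
    rw [hW (K y) (E y) (c y)]
    intro G hG
    rw [← hφ]
    exact hle ((hΓ 𝔭 hp G).1 ((hW (L 𝔭 hp) (Γ 𝔭 hp) (cΓ 𝔭 hp)).1 le_rfl G hG))
  · rw [hr₀]
    obtain ⟨W, hW⟩ := exists_finset_perfect F d hd z
    have hnt2 := nontrivial_of_basis hd (cΓ 𝔭₀ hp₀)
    rw [hW (L 𝔭₀ hp₀) (Γ 𝔭₀ hp₀) (cΓ 𝔭₀ hp₀)]
    intro G hG
    rw [hΓ 𝔭₀ hp₀ G]
    have h5 : aeval ν G = 0 := by
      refine Subtype.ext (funext fun y => ?_)
      have hnt1 := nontrivial_of_basis hd (c y)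
      have h6 := (hW (K y) (E y) (c y)).1 (hz y) G hG
      rw [← hφ] at h6
      exact h6
    rw [h5]
    exact 𝔭₀.zero_mem

/-- every nonempty set of growth rates has a supremum which is a growth rate -/
theorem exists_isLUB (F : Type) [Field F] [PerfectField F] {d : ℕ} (hd : 0 < d) (S : Set ℝ)
    (hS : S ⊆ rates F d) (hne : S.Nonempty) : ∃ x ∈ rates F d, IsLUB S x := by
  choose K iK1 iK2 iK3 A iA1 iA2 c hc using fun y : S => hS y.2
  have : Nonempty S := hne.to_subtype
  obtain ⟨x, hx, h1, h2⟩ := exists_sup F hd K A c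
  refine ⟨x, hx, fun s hs => ?_, fun z hz => h2 z fun y => ?_⟩
  · have := h1 ⟨s, hs⟩
    rwa [hc] at this
  · rw [hc]
    exact hz y.2

/-- every nonempty set of growth rates has a least element -/
theorem exists_least (F : Type) [Field F] [PerfectField F] {d : ℕ} (hd : 0 < d) (S : Set ℝ)
    (hS : S ⊆ rates F d) (hne : S.Nonempty) : ∃ x ∈ S, ∀ y ∈ S, x ≤ y := by
  classical
  let V : ℝ → Ideal (MvPolynomial (PIdx d) F) := fun x =>
    { carrier := {G | ∀ (K : Type) [Field K] [IsAlgClosed K] [Algebra F K] (A : Type)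
        [CommRing A] [Algebra K A] (c : Module.Basis (Fin d) K A),
        rate K A ≤ x → aeval (par c) G = 0}
      add_mem' := fun {G G'} h h' K _ _ _ A _ _ c hA => by
        rw [map_add, h K A c hA, h' K A c hA, add_zero]
      zero_mem' := fun K _ _ _ A _ _ c _ => map_zero _
      smul_mem' := fun G G' h K _ _ _ A _ _ c hA => by
        rw [smul_eq_mul, map_mul, h K A c hA, mul_zero] }
  have hanti : ∀ x y : ℝ, x ≤ y → V y ≤ V x := fun x y hxy G hG K _ _ _ A _ _ c hA =>
    hG K A c (hA.trans hxy)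
  obtain ⟨J, ⟨s₀, hs₀, rfl⟩, hJ⟩ := set_has_maximal_iff_noetherian.2
    (inferInstance : IsNoetherianRing (MvPolynomial (PIdx d) F)) (V '' S) (hne.image V)
  refine ⟨s₀, hs₀, fun s hs => ?_⟩
  by_contra hlt
  rw [not_le] at hlt
  have h1 : V s₀ ≤ V s := hanti s s₀ hlt.le
  have h2 : V s = V s₀ := by
    by_contra hne'
    exact hJ (V s) ⟨s, hs, rfl⟩ (lt_of_le_of_ne h1 (Ne.symm hne'))
  obtain ⟨K, _, _, _, A, _, _, c, hc⟩ := hS hs₀
  obtain ⟨W, hW⟩ := exists_finset_perfect F d hd s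
  have hnt := nontrivial_of_basis hd c
  have h3 : rate K A ≤ s := by
    rw [hW K A c]
    intro G hG
    have h4 : G ∈ V s := by
      intro K' _ _ _ A' _ _ c' hA'
      have hnt' := nontrivial_of_basis hd c'
      exact (hW K' A' c').1 hA' G hG
    rw [h2] at h4
    exact h4 K A c hc.le
  rw [hc] at h3
  exact absurd h3 (not_le.2 hlt)

/-- **The set of the growth rates of degree `d` is compact.** -/
theorem isCompact_rates (F : Type) [Field F] [PerfectField F] {d : ℕ} (hd : 0 < d) :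
    IsCompact (rates F d) := by
  rcases (rates F d).eq_empty_or_nonempty with h0 | h0
  · rw [h0]
    exact isCompact_empty
  obtain ⟨M, -, hM⟩ := exists_isLUB F hd (rates F d) subset_rfl h0
  obtain ⟨m, -, hm⟩ := exists_least F hd (rates F d) subset_rfl h0
  refine isCompact_Icc.of_isClosed_subset (s := Set.Icc m M) ?_ fun x hx => ⟨hm x hx, hM.1 hx⟩
  rw [← isOpen_compl_iff, Metric.isOpen_iff]
  intro x hx
  -- the growth rates above `x`
  obtain ⟨e1, he1, h1⟩ : ∃ e : ℝ, 0 < e ∧ ∀ y ∈ rates F d, x < y → x + e ≤ y := by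
    rcases (rates F d ∩ Set.Ioi x).eq_empty_or_nonempty with h | h
    · refine ⟨1, one_pos, fun y hy hxy => ?_⟩
      have : y ∈ rates F d ∩ Set.Ioi x := ⟨hy, hxy⟩
      rw [h] at this
      exact this.elim
    · obtain ⟨y₀, hy₀, h2⟩ := exists_least F hd _ Set.inter_subset_left h
      have h3 : x < y₀ := hy₀.2
      refine ⟨y₀ - x, sub_pos.2 h3, fun y hy hxy => ?_⟩
      have := h2 y ⟨hy, hxy⟩
      linarith
  obtain ⟨e2, he2, h2⟩ : ∃ e : ℝ, 0 < e ∧ ∀ y ∈ rates F d, y < x → y ≤ x - e := by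
    rcases (rates F d ∩ Set.Iio x).eq_empty_or_nonempty with h | h
    · refine ⟨1, one_pos, fun y hy hxy => ?_⟩
      have : y ∈ rates F d ∩ Set.Iio x := ⟨hy, hxy⟩
      rw [h] at this
      exact this.elim
    · obtain ⟨y₀, hy₀, h3⟩ := exists_isLUB F hd _ Set.inter_subset_left h
      have h4 : y₀ ≤ x := h3.2 fun y hy => (show y < x from hy.2).le
      have h5 : y₀ < x := lt_of_le_of_ne h4 fun h6 => hx (h6 ▸ hy₀)
      refine ⟨x - y₀, sub_pos.2 h5, fun y hy hxy => ?_⟩
      have := h3.1 ⟨hy, hxy⟩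
      linarith
  refine ⟨min e1 e2, lt_min he1 he2, fun y hy hyr => ?_⟩
  rw [Metric.mem_ball, Real.dist_eq] at hy
  have h3 := (abs_lt.1 (hy.trans_le (min_le_left _ _)))
  have h4 := (abs_lt.1 (hy.trans_le (min_le_right _ _)))
  rcases lt_trichotomy x y with h | h | h
  · have := h1 y hyr h
    linarith
  · exact hx (h ▸ hyr)
  · have := h2 y hyr h
    linarith

end Pool.Agent.U627.ZC
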