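import Pool.Agent.U627.ZC.Up

/-!
# Base change of algebras and the descent of lines
-/

set_option autoImplicit false
set_option linter.unusedSectionVars false

namespace Pool.Agent.U627.ZC

open scoped TensorProduct
open Pool.Agent.H826R3.SM Pool.Agent.TH671.DU Pool.Agent.N86.SQ Pool.Agent.U922.WO
open MvPolynomial

variable {k K : Type} [Field k] [Field K] [Algebra k K]

/-- specialization of a point to a `k`-point -/
theorem exists_special [IsAlgClosed k] {τ : Type} [Finite τ] (p : τ → K) :
    ∃ q : τ → k, ∀ F : MvPolynomial τ k, aeval p F = 0 → eval q F = 0 := by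
  let R := Algebra.adjoin k (Set.range p)
  have hp : ∀ v, p v ∈ R := fun v => Algebra.subset_adjoin ⟨v, rfl⟩
  have hft : Algebra.FiniteType k R :=
    (Subalgebra.fg_iff_finiteType R).1
      ⟨(Set.finite_range p).toFinset, by rw [Set.Finite.coe_toFinset]⟩
  obtain ⟨φ, -⟩ : ∃ φ : R →ₐ[k] k, True := by
    by_contra hcon
    push Not at hcon
    have h1 : (1 : R) = 0 := eq_zero_of_points (k := k) fun φ => (hcon φ).elim
    exact one_ne_zero h1
  let pR : τ → R := fun v => ⟨p v, hp v⟩
  refine ⟨fun v => φ (pR v), fun F hF => ?_⟩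
  have h1 : aeval pR F = 0 := by
    refine Subtype.ext ?_
    have h2 : R.val (aeval pR F) = aeval (fun v => R.val (pR v)) F := by
      rw [MvPolynomial.comp_aeval_apply]
    exact h2.trans hF
  have h3 : φ (aeval pR F) = aeval (fun v => φ (pR v)) F := by
    rw [MvPolynomial.comp_aeval_apply]
  rw [h1, map_zero] at h3
  rw [← MvPolynomial.aeval_eq_eval]
  exact h3.symm

/-- `B` is obtained from `A` by extension of the base field from `k` to `K` -/
def BC (k K : Type) [Field k] [Field K] [Algebra k K] (A B : Type) [CommRing A] [Algebra k A]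
    [CommRing B] [Algebra K B] (j : A →+* B) : Prop :=
  (∀ c, j (algebraMap k A c) = algebraMap K B (algebraMap k K c)) ∧
    ∃ (ι : Type) (_ : Fintype ι) (b : Module.Basis ι k A) (b' : Module.Basis ι K B),
      ∀ i, j (b i) = b' i

theorem BC.tensor (A : Type) [CommRing A] [Algebra k A] [Module.Finite k A] :
    BC k K A (K ⊗[k] A)
      (Algebra.TensorProduct.includeRight (R := k) (A := K) (B := A)).toRingHom := by
  refine ⟨fun c => ?_, _, inferInstance, Module.finBasis k A,
    Algebra.TensorProduct.basis K (Module.finBasis k A), fun i => ?_⟩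
  · change ((1 : K) ⊗ₜ[k] algebraMap k A c : K ⊗[k] A) = _
    rw [Algebra.TensorProduct.algebraMap_apply, Algebra.algebraMap_self, RingHom.id_apply,
      Algebra.algebraMap_eq_smul_one, ← TensorProduct.smul_tmul, Algebra.algebraMap_eq_smul_one]
  · rw [Algebra.TensorProduct.basis_apply]
    rfl

theorem exists_piLift {P : Type} [Fintype P] [DecidableEq P] {A : P → Type} [∀ p, CommRing (A p)]
    [∀ p, Algebra k (A p)] {M : Type} [CommRing M] [Algebra K M] (g : ∀ p, A p →+* M)
    (hg : ∀ p c, g p (algebraMap k (A p) c) = algebraMap K M (algebraMap k K c)) :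
    ∃ F : PiTensorProduct k A →+* M,
      (∀ x, F (PiTensorProduct.tprod k x) = ∏ p, g p (x p)) ∧
      ∀ c, F (algebraMap k _ c) = algebraMap K M (algebraMap k K c) := by
  let _ : Algebra k M := ((algebraMap K M).comp (algebraMap k K)).toAlgebra
  let f : ∀ p, A p →ₐ[k] M := fun p => { g p with commutes' := hg p }
  let μ : MultilinearMap k A M :=
    (MultilinearMap.mkPiAlgebra k P M).compLinearMap fun p => (f p).toLinearMap
  have hμ : ∀ x, μ x = ∏ p, f p (x p) := fun x => rfl
  let F : PiTensorProduct k A →ₐ[k] M := PiTensorProduct.liftAlgHom μ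
    (by rw [hμ]; exact Finset.prod_eq_one fun p _ => map_one (f p))
    (fun x y => by
      rw [hμ, hμ, hμ, ← Finset.prod_mul_distrib]
      exact Finset.prod_congr rfl fun p _ => map_mul (f p) _ _)
  exact ⟨F.toRingHom, fun x => PiTensorProduct.lift.tprod x, fun c => F.commutes c⟩

theorem BC.piT {P : Type} [Fintype P] [DecidableEq P] {A B : P → Type} [∀ p, CommRing (A p)]
    [∀ p, Algebra k (A p)] [∀ p, CommRing (B p)] [∀ p, Algebra K (B p)] {j : ∀ p, A p →+* B p}
    (h : ∀ p, BC k K (A p) (B p) (j p)) :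
    ∃ J : PiTensorProduct k A →+* PiTensorProduct K B, BC k K _ _ J ∧
      ∀ p x, J (sgl (k := k) A p x) = sgl (k := K) B p (j p x) := by
  classical
  obtain ⟨F, hF', hFc⟩ := exists_piLift (k := k) (K := K) (A := A) (M := PiTensorProduct K B)
    (fun p => (sgl (k := K) B p).toRingHom.comp (j p)) (fun p c => by
      change sgl (k := K) B p (j p (algebraMap k (A p) c)) = algebraMap K _ (algebraMap k K c)
      rw [(h p).1, AlgHom.commutes])
  have hF : ∀ x, F (PiTensorProduct.tprod k x) = PiTensorProduct.tprod K fun p => j p (x p) := by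
    intro x
    rw [hF', tprod_eq]
    rfl
  choose hc ι hι b b' hb using h
  refine ⟨F, ⟨hFc, ∀ p, ι p, inferInstance, Basis.piTensorProduct b,
    Basis.piTensorProduct b', fun J => ?_⟩, fun p x => ?_⟩
  · rw [Basis.piTensorProduct_apply, Basis.piTensorProduct_apply, hF]
    congr 1
    funext p
    exact hb p (J p)
  · change F (PiTensorProduct.tprod k (Pi.mulSingle p x)) =
      PiTensorProduct.tprod K (Pi.mulSingle p (j p x))
    rw [hF]
    congr 1
    funext q
    by_cases hq : q = p
    · subst hq
      rw [Pi.mulSingle_eq_same, Pi.mulSingle_eq_same]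
    · rw [Pi.mulSingle_eq_of_ne hq, Pi.mulSingle_eq_of_ne hq, map_one]

section desc

variable {A B : Type} [CommRing A] [Algebra k A] [CommRing B] [Algebra K B] {j : A →+* B}

theorem BC.smul (h : BC k K A B j) (c : k) (x : A) : j (c • x) = algebraMap k K c • j x := by
  rw [Algebra.smul_def, map_mul, h.1, ← Algebra.smul_def]

/-- **Descent of lines.** -/
theorem BC.lines [IsAlgClosed k] (h : BC k K A B j) {σ : Type} [Finite σ] {a : σ → A} {m W : ℕ}
    (hL : LinesUpTo K (fun v => j (a v)) m W) : LinesUpTo k a m W := by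
  classical
  have hsm := h.smul
  obtain ⟨hjk, ι, _, b, b', hb⟩ := h
  obtain ⟨p, hp⟩ := hL
  have hj : ∀ x i, b'.repr (j x) i = algebraMap k K (b.repr x i) := by
    intro x i
    have h1 : j x = ∑ i, algebraMap k K (b.repr x i) • b' i := by
      conv_lhs => rw [← b.sum_repr x, map_sum]
      exact Finset.sum_congr rfl fun i _ => by rw [hsm, hb]
    rw [h1, b'.repr_sum_self]
  have key : ∀ (i : ι) (e : Fin (m + 1)), ∃ t : Fin W → K, ∀ M : MvPolynomial σ K,
      M.IsHomogeneous e → b'.repr (aeval (fun v => j (a v)) M) i =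
        ∑ w, t w * eval (p w) M := by
    intro i e
    let V := homogeneousSubmodule σ K e
    let L : Fin W → (V →ₗ[K] K) := fun w =>
      (aeval (p w) : MvPolynomial σ K →ₐ[K] K).toLinearMap ∘ₗ V.subtype
    let Θ : V →ₗ[K] K := b'.coord i ∘ₗ
      (aeval (fun v => j (a v)) : MvPolynomial σ K →ₐ[K] B).toLinearMap ∘ₗ V.subtype
    have h1 : Θ ∈ Submodule.span K (Set.range L) := by
      refine mem_span_of_iInf_ker_le_ker fun M hM => ?_
      rw [LinearMap.mem_ker]
      change b'.repr (aeval (fun v => j (a v)) (M : MvPolynomial σ K)) i = 0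
      rw [hp e (by omega) M M.2 fun w => ?_, map_zero, Finsupp.zero_apply]
      have h2 : L w M = 0 := (Submodule.mem_iInf _).1 hM w
      rw [← MvPolynomial.aeval_eq_eval]
      exact h2
    obtain ⟨t, ht⟩ := (Submodule.mem_span_range_iff_exists_fun K).1 h1
    refine ⟨t, fun M hM => ?_⟩
    have h2 := LinearMap.congr_fun ht ⟨M, hM⟩
    rw [LinearMap.sum_apply] at h2
    have h3 : Θ ⟨M, hM⟩ = b'.repr (aeval (fun v => j (a v)) M) i := rfl
    rw [← h3, ← h2]
    refine Finset.sum_congr rfl fun w _ => ?_
    rw [LinearMap.smul_apply, smul_eq_mul, ← MvPolynomial.aeval_eq_eval]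
    rfl
  choose t ht using key
  let τ : Type := (ι × Fin (m + 1) × Fin W) ⊕ (Fin W × σ)
  let P : τ → K := Sum.elim (fun z => t z.1 z.2.1 z.2.2) (fun z => p z.1 z.2)
  obtain ⟨q, hq⟩ := exists_special (k := k) P
  refine ⟨fun w v => q (Sum.inr (w, v)), fun e he M hM hM0 => ?_⟩
  apply b.repr.injective
  rw [map_zero]
  refine Finsupp.ext fun i => ?_
  rw [Finsupp.zero_apply]
  let e' : Fin (m + 1) := ⟨e, by omega⟩
  let Λ : MvPolynomial σ k →ₗ[k] k := b.coord i ∘ₗ
    (aeval a : MvPolynomial σ k →ₐ[k] A).toLinearMap -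
      ∑ w, q (Sum.inl (i, e', w)) • (aeval (fun v => q (Sum.inr (w, v))) :
        MvPolynomial σ k →ₐ[k] k).toLinearMap
  have hΛ : ∀ F : MvPolynomial σ k, Λ F = b.repr (aeval a F) i -
      ∑ w, q (Sum.inl (i, e', w)) * eval (fun v => q (Sum.inr (w, v))) F := by
    intro F
    change b.repr (aeval a F) i - (∑ w, q (Sum.inl (i, e', w)) •
      (aeval (fun v => q (Sum.inr (w, v))) : MvPolynomial σ k →ₐ[k] k).toLinearMap) F = _
    rw [LinearMap.sum_apply]
    rfl
  have hΛ0 : ∀ s ∈ M.support, Λ (monomial s 1) = 0 := by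
    intro s hs
    let F : MvPolynomial τ k := C (b.repr (aeval a (monomial s (1 : k))) i) -
      ∑ w, X (Sum.inl (i, e', w)) * rename (fun v => Sum.inr (w, v)) (monomial s (1 : k))
    have hF : aeval P F = 0 := by
      change aeval P (C _ - ∑ w, X _ * rename _ _) = 0
      rw [map_sub, aeval_C, map_sum]
      have hhom : (monomial s (1 : K)).IsHomogeneous e' := by
        refine isHomogeneous_monomial (1 : K) ?_
        have h1 := hM (mem_support_iff.1 hs)
        rw [Finsupp.degree_eq_weight_one]
        exact h1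
      have h1 := ht i e' (monomial s 1) hhom
      have h2 : aeval (fun v => j (a v)) (monomial s (1 : K)) =
          j (aeval a (monomial s (1 : k))) := by
        rw [aeval_monomial, aeval_monomial, map_one, one_mul, map_one, one_mul, Finsupp.prod,
          Finsupp.prod, map_prod]
        exact Finset.prod_congr rfl fun v _ => by rw [map_pow]
      rw [h2, hj] at h1
      refine sub_eq_zero.2 (h1.trans (Finset.sum_congr rfl fun w _ => ?_))
      rw [map_mul, aeval_X, aeval_rename]
      congr 1
      rw [aeval_monomial, eval_monomial, map_one]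
      rfl
    have h3 := hq F hF
    rw [hΛ, ← h3]
    change _ = eval q (C _ - ∑ w, X _ * rename _ _)
    rw [map_sub, eval_C, map_sum]
    congr 1
    refine Finset.sum_congr rfl fun w _ => ?_
    rw [map_mul, eval_X, eval_rename]
    rfl
  have hΛM : Λ M = 0 := by
    rw [M.as_sum, map_sum]
    refine Finset.sum_eq_zero fun s hs => ?_
    have h1 : monomial s (coeff s M) = coeff s M • monomial s (1 : k) := by
      rw [smul_monomial, smul_eq_mul, mul_one]
    rw [h1, map_smul, hΛ0 s hs, smul_zero]
  rw [hΛ, sub_eq_zero] at hΛM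
  rw [hΛM]
  exact Finset.sum_eq_zero fun w _ => by rw [hM0 w, mul_zero]

end desc

end Pool.Agent.U627.ZC
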