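import Mathlib

/-!
# Extension of points along integral extensions
-/

set_option autoImplicit false
set_option linter.unusedSectionVars false

namespace Pool.Agent.U627.ZC

variable {k : Type} [Field k] [IsAlgClosed k] {R : Type} [CommRing R] [Algebra k R]

/-- extension of `k`-points along an integral extension -/
theorem exists_point {B : Type} [CommRing B] [Algebra R B] [Algebra k B] [IsScalarTower k R B]
    [Algebra.IsIntegral R B] (φ₀ : R →ₐ[k] k)
    (h : ∀ r, algebraMap R B r = 0 → φ₀ r = 0) :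
    ∃ ψ₀ : B →ₐ[k] k, ∀ r, ψ₀ (algebraMap R B r) = φ₀ r := by
  let m₀ : Ideal R := RingHom.ker φ₀
  have hm₀ : m₀.IsMaximal := RingHom.ker_isMaximal_of_surjective φ₀ fun a =>
    ⟨algebraMap k R a, φ₀.commutes a⟩
  have hle : (⊥ : Ideal B).comap (algebraMap R B) ≤ m₀ := by
    intro r hr
    rw [Ideal.mem_comap, Ideal.mem_bot] at hr
    exact h r hr
  obtain ⟨Q, -, hQp, hQ⟩ := Ideal.exists_ideal_over_prime_of_isIntegral m₀ (⊥ : Ideal B) hle
  have hQm : Q.IsMaximal := Ideal.isMaximal_of_isIntegral_of_isMaximal_comap Q (by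
    rw [hQ]; exact hm₀)
  let _ : Field (B ⧸ Q) := Ideal.Quotient.field Q
  have hR : ∀ r : R, Ideal.Quotient.mk Q (algebraMap R B r) = algebraMap k (B ⧸ Q) (φ₀ r) := by
    intro r
    have h1 : r - algebraMap k R (φ₀ r) ∈ m₀ := by
      rw [RingHom.mem_ker, map_sub, AlgHom.commutes]
      exact sub_self _
    rw [← hQ, Ideal.mem_comap, ← Ideal.Quotient.eq_zero_iff_mem, map_sub, map_sub, sub_eq_zero,
      ← IsScalarTower.algebraMap_apply] at h1
    exact h1
  have hint : Algebra.IsIntegral k (B ⧸ Q) := by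
    refine ⟨fun x => ?_⟩
    obtain ⟨y, rfl⟩ := Ideal.Quotient.mk_surjective x
    obtain ⟨p, hp, hp0⟩ := Algebra.IsIntegral.isIntegral (R := R) y
    refine ⟨p.map (φ₀ : R →+* k), hp.map _, ?_⟩
    rw [Polynomial.eval₂_map]
    have h2 : (algebraMap k (B ⧸ Q)).comp (φ₀ : R →+* k) =
        (Ideal.Quotient.mk Q).comp (algebraMap R B) := by
      refine RingHom.ext fun r => ?_
      exact (hR r).symm
    rw [h2, ← Polynomial.hom_eval₂, hp0, map_zero]
  have hbij : Function.Bijective (algebraMap k (B ⧸ Q)) :=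
    IsAlgClosed.algebraMap_bijective_of_isIntegral
  let e : k ≃ₐ[k] (B ⧸ Q) := AlgEquiv.ofBijective (Algebra.ofId k (B ⧸ Q)) hbij
  refine ⟨e.symm.toAlgHom.comp (Ideal.Quotient.mkₐ k Q), fun r => ?_⟩
  change e.symm (Ideal.Quotient.mk Q (algebraMap R B r)) = φ₀ r
  rw [hR]
  exact e.symm_apply_apply (φ₀ r)

/-- a `k`-point of `Spec R` in the closure of the image of a set of points of `R[x_1,…,x_n]` whose
coordinates are integral over `R` lifts to a point of the closure of this set -/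
theorem exists_lift_point {n : ℕ} (K : Ideal (MvPolynomial (Fin n) R)) {p : Polynomial R}
    (hp : p.Monic)
    (hpK : ∀ j : Fin n, Polynomial.eval₂ MvPolynomial.C (MvPolynomial.X j) p ∈ K)
    (φ₀ : R →ₐ[k] k) (h : ∀ r, MvPolynomial.C r ∈ K → φ₀ r = 0) :
    ∃ ψ₀ : MvPolynomial (Fin n) R →ₐ[k] k, (∀ x ∈ K, ψ₀ x = 0) ∧
      ∀ r, ψ₀ (algebraMap R (MvPolynomial (Fin n) R) r) = φ₀ r := by
  let B : Type := MvPolynomial (Fin n) R ⧸ K
  have hX : ∀ j, IsIntegral R (Ideal.Quotient.mk K (MvPolynomial.X j)) := by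
    intro j
    refine ⟨p, hp, ?_⟩
    have h1 : algebraMap R (MvPolynomial (Fin n) R ⧸ K) =
        (Ideal.Quotient.mk K).comp MvPolynomial.C := rfl
    rw [h1, ← Polynomial.hom_eval₂]
    exact Ideal.Quotient.eq_zero_iff_mem.2 (hpK j)
  have hint : Algebra.IsIntegral R (MvPolynomial (Fin n) R ⧸ K) := by
    refine ⟨fun x => ?_⟩
    obtain ⟨y, rfl⟩ := Ideal.Quotient.mk_surjective x
    induction y using MvPolynomial.induction_on with
    | C a => exact isIntegral_algebraMap (R := R) (A := MvPolynomial (Fin n) R ⧸ K) (x := a)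
    | add a b ha hb =>
      rw [map_add]
      exact ha.add hb
    | mul_X a j ha =>
      rw [map_mul]
      exact ha.mul (hX j)
  obtain ⟨ψ, hψ⟩ := exists_point (B := MvPolynomial (Fin n) R ⧸ K) φ₀ fun r hr =>
    h r (Ideal.Quotient.eq_zero_iff_mem.1 hr)
  refine ⟨ψ.comp (Ideal.Quotient.mkₐ k K), fun x hx => ?_, fun r => hψ r⟩
  change ψ (Ideal.Quotient.mk K x) = 0
  rw [Ideal.Quotient.eq_zero_iff_mem.2 hx, map_zero]

end Pool.Agent.U627.ZC
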