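import Pool.Agent.U627.ZC.Fib
import Pool.Agent.U627.ZC.Lo

/-!
# The cover by the ordered roots of a monic polynomial
-/

set_option autoImplicit false
set_option linter.unusedSectionVars false

namespace Pool.Agent.U627.ZC

open scoped TensorProduct
open Polynomial

variable {k : Type} [Field k] [IsAlgClosed k]

theorem exists_roots (q : k[X]) (hq : q.Monic) : ∃ r : Fin q.natDegree → k,
    q = ∏ j, (X - C (r j)) := by
  classical
  have hs := IsAlgClosed.splits q
  have hcard : q.roots.card = q.natDegree := splits_iff_card_roots.1 hs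
  have hlen : q.roots.toList.length = q.natDegree := by rw [Multiset.length_toList, hcard]
  have h1 : q = (q.roots.map fun a => X - C a).prod := by
    have h2 := C_leadingCoeff_mul_prod_multiset_X_sub_C hcard
    rw [hq.leadingCoeff, map_one, one_mul] at h2
    exact h2.symm
  refine ⟨fun j => q.roots.toList.get (Fin.cast hlen.symm j), ?_⟩
  have h3 : (q.roots.map fun a => X - C a).prod =
      (q.roots.toList.map fun a => X - C a).prod := by
    conv_lhs => rw [← Multiset.coe_toList q.roots]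
    rw [Multiset.map_coe, Multiset.prod_coe]
  have h4 : (q.roots.toList.map fun a => (X - C a : k[X])).prod =
      ∏ j : Fin q.roots.toList.length, (X - C (q.roots.toList.get j)) := by
    rw [← List.prod_ofFn]
    congr 1
    conv_lhs => rw [← List.ofFn_get q.roots.toList]
    rw [List.map_ofFn]
    rfl
  conv_lhs => rw [h1, h3, h4]
  exact (Equiv.prod_comp (finCongr hlen.symm) fun j : Fin q.roots.toList.length =>
    (X - C (q.roots.toList.get j) : k[X])).symm

variable {R : Type} [CommRing R] [Algebra k R]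

/-- the restriction of a `k`-point of an `R`-algebra to `R` -/
def res {P : Type} [CommRing P] [Algebra R P] [Algebra k P] [IsScalarTower k R P]
    (ψ : P →ₐ[k] k) : R →ₐ[k] k := ψ.comp (IsScalarTower.toAlgHom k R P)

theorem res_apply {P : Type} [CommRing P] [Algebra R P] [Algebra k P] [IsScalarTower k R P]
    (ψ : P →ₐ[k] k) (r : R) : res (R := R) ψ r = ψ (algebraMap R P r) := rfl

/-- the points of the cover by the ordered roots -/
def cov (p : R[X]) (Z : Set (R →ₐ[k] k)) :
    Set (MvPolynomial (Fin p.natDegree) R →ₐ[k] k) :=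
  {ψ | res (R := R) ψ ∈ Z ∧
    p.map (res (R := R) ψ : R →+* k) = ∏ j, (X - C (ψ (MvPolynomial.X j)))}

theorem exists_cov {p : R[X]} (hp : p.Monic) {Z : Set (R →ₐ[k] k)} {φ : R →ₐ[k] k}
    (hφ : φ ∈ Z) : ∃ ψ ∈ cov p Z, res (R := R) ψ = φ := by
  have hnd : (p.map (φ : R →+* k)).natDegree = p.natDegree := hp.natDegree_map _
  obtain ⟨r', hr'⟩ := exists_roots (p.map (φ : R →+* k)) (hp.map _)
  have h1 : ∃ r : Fin p.natDegree → k, p.map (φ : R →+* k) = ∏ j, (X - C (r j)) := by
    refine ⟨fun j => r' (Fin.cast hnd.symm j), ?_⟩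
    refine hr'.trans ?_
    exact (Equiv.prod_comp (finCongr hnd.symm) fun j => (X - C (r' j) : k[X])).symm
  obtain ⟨r, hr⟩ := h1
  let f : MvPolynomial (Fin p.natDegree) R →+* k := MvPolynomial.eval₂Hom (φ : R →+* k) r
  let ψ : MvPolynomial (Fin p.natDegree) R →ₐ[k] k :=
    { f with
      commutes' := fun t => by
        change MvPolynomial.eval₂Hom (φ : R →+* k) r (MvPolynomial.C (algebraMap k R t)) = t
        rw [MvPolynomial.coe_eval₂Hom, MvPolynomial.eval₂_C]
        exact φ.commutes t }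
  have hψC : ∀ a, ψ (MvPolynomial.C a) = φ a := fun a => MvPolynomial.eval₂_C _ _ _
  have hψX : ∀ j, ψ (MvPolynomial.X j) = r j := fun j => MvPolynomial.eval₂_X _ _ _
  have hres : res (R := R) ψ = φ := AlgHom.ext fun a => hψC a
  refine ⟨ψ, ⟨by rw [hres]; exact hφ, ?_⟩, hres⟩
  rw [hres, hr]
  exact Finset.prod_congr rfl fun j _ => by rw [hψX]

/-- a `k`-point of `Spec R` in the closure of `Z` lifts to a point in the closure of the cover -/
theorem exists_lift_cov {p : R[X]} (hp : p.Monic) (Z : Set (R →ₐ[k] k)) (φ₀ : R →ₐ[k] k)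
    (hcl : ∀ r, (∀ φ ∈ Z, φ r = 0) → φ₀ r = 0) :
    ∃ ψ₀ : MvPolynomial (Fin p.natDegree) R →ₐ[k] k, res (R := R) ψ₀ = φ₀ ∧
      ∀ x, (∀ ψ ∈ cov p Z, ψ x = 0) → ψ₀ x = 0 := by
  let K : Ideal (MvPolynomial (Fin p.natDegree) R) :=
    ⨅ ψ : cov p Z, RingHom.ker (ψ : MvPolynomial (Fin p.natDegree) R →ₐ[k] k)
  have hK : ∀ x, x ∈ K ↔ ∀ ψ ∈ cov p Z, ψ x = 0 := by
    intro x
    change x ∈ (⨅ ψ : cov p Z, RingHom.ker (ψ : MvPolynomial (Fin p.natDegree) R →ₐ[k] k)) ↔ _
    rw [Ideal.mem_iInf]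
    constructor
    · intro h ψ hψ
      exact h ⟨ψ, hψ⟩
    · rintro h ⟨ψ, hψ⟩
      exact h ψ hψ
  obtain ⟨ψ₀, h1, h2⟩ := exists_lift_point K hp (fun j => by
    rw [hK]
    intro ψ hψ
    have h3 : ψ (Polynomial.eval₂ MvPolynomial.C (MvPolynomial.X j) p) =
        (p.map (res (R := R) ψ : R →+* k)).eval (ψ (MvPolynomial.X j)) := by
      rw [Polynomial.eval_map]
      exact Polynomial.hom_eval₂ p MvPolynomial.C (ψ : _ →+* k) (MvPolynomial.X j)
    rw [h3, hψ.2, Polynomial.eval_prod]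
    refine Finset.prod_eq_zero (Finset.mem_univ j) ?_
    rw [Polynomial.eval_sub, Polynomial.eval_X, Polynomial.eval_C, sub_self]) φ₀ (fun r hr => by
    refine hcl r fun φ hφ => ?_
    obtain ⟨ψ, hψ, hres⟩ := exists_cov hp hφ
    have h3 := (hK _).1 hr ψ hψ
    rw [← hres]
    exact h3)
  exact ⟨ψ₀, AlgHom.ext h2, fun x hx => h1 x ((hK x).2 hx)⟩

end Pool.Agent.U627.ZC
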