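import Pool.Agent.U627.ZC.Den
import Pool.Agent.U627.ZC.Roots

/-!
# The growth rate at a point of the Zariski closure, without a local hypothesis
-/

set_option autoImplicit false
set_option linter.unusedSectionVars false

namespace Pool.Agent.U627.ZC

open scoped TensorProduct
open Pool.Agent.H826R3.SM Pool.Agent.TH671.DU Pool.Agent.N86.SQ Pool.Agent.U922.WO

variable {k : Type} [Field k] [IsAlgClosed k]

section pts

variable {R : Type} [CommRing R] [Algebra k R] {𝓔 : Type} [CommRing 𝓔] [Algebra R 𝓔]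
  [Algebra k 𝓔] [IsScalarTower k R 𝓔]

/-- the functions `a - r_j` on the pulled back family -/
noncomputable def wj {n : ℕ} (a : 𝓔) (j : Fin n) : MvPolynomial (Fin n) R ⊗[R] 𝓔 :=
  1 ⊗ₜ a - algebraMap (MvPolynomial (Fin n) R) (MvPolynomial (Fin n) R ⊗[R] 𝓔)
    (MvPolynomial.X j)

theorem pr_wj {n : ℕ} (a : 𝓔) (j : Fin n) (ψ : MvPolynomial (Fin n) R →ₐ[k] k) :
    pr (MvPolynomial (Fin n) R ⊗[R] 𝓔) ψ (wj a j) =
      pr (MvPolynomial (Fin n) R ⊗[R] 𝓔) ψ (1 ⊗ₜ a) - algebraMap k _ (ψ (MvPolynomial.X j)) := by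
  rw [wj, map_sub, pr_algebraMap]

/-- on the cover the product of the `a - r_j` vanishes -/
theorem pr_prod_wj {ι : Type} [Fintype ι] (c : Module.Basis ι R 𝓔) {a : 𝓔} {p : Polynomial R}
    (hpa : Polynomial.aeval a p = 0) {Z : Set (R →ₐ[k] k)}
    {ψ : MvPolynomial (Fin p.natDegree) R →ₐ[k] k} (hψ : ψ ∈ cov p Z) :
    pr (MvPolynomial (Fin p.natDegree) R ⊗[R] 𝓔) ψ (∏ j, wj a j) = 0 := by
  obtain ⟨e, he⟩ := exists_fib_equiv (P := MvPolynomial (Fin p.natDegree) R) c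
    (res (R := R) ψ) ψ (fun r => rfl)
  have h1 : Polynomial.aeval (pr 𝓔 (res (R := R) ψ) a)
      (p.map (res (R := R) ψ : R →+* k)) = 0 := by
    rw [Polynomial.aeval_def, Polynomial.eval₂_map]
    have h2 : (algebraMap k (Fib 𝓔 (res (R := R) ψ))).comp (res (R := R) ψ : R →+* k) =
        (pr 𝓔 (res (R := R) ψ) : 𝓔 →+* _).comp (algebraMap R 𝓔) :=
      RingHom.ext fun r => (pr_algebraMap (𝓔 := 𝓔) (res (R := R) ψ) r).symm
    rw [h2]
    have h3 := Polynomial.hom_eval₂ p (algebraMap R 𝓔)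
      (pr 𝓔 (res (R := R) ψ) : 𝓔 →+* Fib 𝓔 (res (R := R) ψ)) a
    have h4 : Polynomial.eval₂ (algebraMap R 𝓔) a p = 0 := hpa
    rw [h4, map_zero] at h3
    exact h3.symm
  rw [hψ.2, map_prod] at h1
  have h5 := congrArg e h1
  rw [map_zero, map_prod] at h5
  rw [map_prod, ← h5]
  refine Finset.prod_congr rfl fun j _ => ?_
  rw [pr_wj, map_sub, Polynomial.aeval_X, Polynomial.aeval_C, map_sub, AlgEquiv.commutes, he]

end pts

/-- **The growth rate at a point of the Zariski closure of a set of points.** -/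
theorem closure_fib {R : Type} [CommRing R] [Algebra k R] {𝓔 : Type} [CommRing 𝓔] [Algebra R 𝓔]
    [Algebra k 𝓔] [IsScalarTower k R 𝓔] [Module.Finite R 𝓔] [Module.Free R 𝓔]
    (Z : Set (R →ₐ[k] k)) (φ₀ : R →ₐ[k] k)
    (hcl : ∀ r, (∀ φ ∈ Z, φ r = 0) → φ₀ r = 0) (hnt₀ : Nontrivial (Fib 𝓔 φ₀))
    {x : ℝ} (hx : ∀ φ ∈ Z, rate k (Fib 𝓔 φ) ≤ x) : rate k (Fib 𝓔 φ₀) ≤ x := by
  classical
  -- the special fibre
  let c' := Module.Free.chooseBasis R 𝓔
  obtain ⟨b', -, -⟩ := exists_fib_basis c' φ₀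
  have hfin₀ : Module.Finite k (Fib 𝓔 φ₀) := Module.Finite.of_basis b'
  obtain ⟨s, hs, B, _, _, _, _, ⟨e₀⟩⟩ := exists_dec (k := k) (Fib 𝓔 φ₀)
  let d : Fin s → ℕ := fun i => Module.finrank k (B i)
  have hcard : Fintype.card (Module.Free.ChooseBasisIndex R 𝓔) =
      Fintype.card (Σ i, Fin (d i)) := by
    rw [← Module.finrank_eq_card_basis b', e₀.toLinearEquiv.finrank_eq,
      Module.finrank_pi_fintype, Fintype.card_sigma]
    simp [d]
  let c : Module.Basis (Σ i, Fin (d i)) R 𝓔 := c'.reindex (Fintype.equivOfCardEq hcard)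
  let bB : ∀ i, Module.Basis (Fin (d i)) k (B i) := fun i => Module.finBasis k (B i)
  -- the separating element
  have hinf : Infinite k := IsAlgClosed.instInfinite
  let lam : Fin s → k := fun i => Infinite.natEmbedding k i
  have hlam : Function.Injective lam := fun i i' h =>
    Fin.ext ((Infinite.natEmbedding k).injective h)
  have hsurj : ∀ y : (∀ i, B i), ∃ z : 𝓔, e₀ (pr 𝓔 φ₀ z) = y := by
    intro y
    obtain ⟨z, hz⟩ := pr_surjective (𝓔 := 𝓔) φ₀ (e₀.symm y)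
    exact ⟨z, by rw [hz, e₀.apply_symm_apply]⟩
  obtain ⟨a, ha⟩ := hsurj fun i => algebraMap k (B i) (lam i)
  choose u hu using fun i (j : Fin (d i)) => hsurj (Pi.single i (bB i j))
  obtain ⟨p, hp, hpa⟩ := Algebra.IsIntegral.isIntegral (R := R) a
  -- the point of the cover
  obtain ⟨ψ₀, hψ₀, hψ₀K⟩ := exists_lift_cov hp Z φ₀ hcl
  let P : Type := MvPolynomial (Fin p.natDegree) R
  let β : Fin p.natDegree → Fin s := fun j =>
    if h : ∃ i, ψ₀ (MvPolynomial.X j) = lam i then h.choose else ⟨0, hs⟩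
  have hβ : ∀ j i, ψ₀ (MvPolynomial.X j) = lam i → β j = i := by
    intro j i h
    have h1 : ∃ i, ψ₀ (MvPolynomial.X j) = lam i := ⟨i, h⟩
    change (if h : ∃ i, ψ₀ (MvPolynomial.X j) = lam i then h.choose else ⟨0, hs⟩) = i
    rw [dif_pos h1]
    exact hlam (h1.choose_spec.symm.trans h)
  let T : P ⊗[R] 𝓔 := ∏ j, wj a j
  let G : Fin s → P ⊗[R] 𝓔 := fun i => ∏ j ∈ Finset.univ.filter (fun j => β j ≠ i), wj a j
  let U : ∀ i, Fin (d i) → P ⊗[R] 𝓔 := fun i j => 1 ⊗ₜ u i j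
  have hGT : ∀ i i', i ≠ i' → ∃ y, G i * G i' = T * y := by
    intro i i' hii
    refine ⟨∏ j ∈ Finset.univ.filter (fun j => β j ≠ i) ∩
      Finset.univ.filter (fun j => β j ≠ i'), wj a j, ?_⟩
    have h1 := Finset.prod_union_inter (s₁ := Finset.univ.filter (fun j => β j ≠ i))
      (s₂ := Finset.univ.filter (fun j => β j ≠ i')) (f := fun j => (wj a j : P ⊗[R] 𝓔))
    have h2 : Finset.univ.filter (fun j => β j ≠ i) ∪ Finset.univ.filter (fun j => β j ≠ i') =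
        Finset.univ := by
      ext j
      simp only [Finset.mem_union, Finset.mem_filter, Finset.mem_univ, true_and, iff_true]
      by_contra hcon
      push Not at hcon
      exact hii (hcon.1.symm.trans hcon.2)
    rw [h2] at h1
    exact h1.symm
  have hGG : ∀ ψ : P →ₐ[k] k, pr (P ⊗[R] 𝓔) ψ T = 0 → ∀ i i', i ≠ i' →
      pr (P ⊗[R] 𝓔) ψ (G i) * pr (P ⊗[R] 𝓔) ψ (G i') = 0 := by
    intro ψ hψ i i' hii
    obtain ⟨y, hy⟩ := hGT i i' hii
    rw [← map_mul, hy, map_mul, hψ, zero_mul]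
  let cP : Module.Basis (Σ i, Fin (d i)) P (P ⊗[R] 𝓔) := Algebra.TensorProduct.basis P c
  let Δ : P := (mat cP G U).det
  have hT : ∀ ψ ∈ cov p Z, pr (P ⊗[R] 𝓔) ψ T = 0 := fun ψ hψ => pr_prod_wj c hpa hψ
  -- the equation at the special point
  have hT₀ : pr (P ⊗[R] 𝓔) ψ₀ T = 0 := by
    obtain ⟨b₀, -, hb₀⟩ := exists_fib_basis cP ψ₀
    apply b₀.repr.injective
    rw [map_zero]
    ext m
    rw [hb₀, Finsupp.zero_apply]
    refine hψ₀K _ fun ψ hψ => ?_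
    obtain ⟨b₁, -, hb₁⟩ := exists_fib_basis cP ψ
    rw [← hb₁, hT ψ hψ, map_zero, Finsupp.zero_apply]
  obtain ⟨e₁, he₁⟩ := exists_fib_equiv (P := P) c φ₀ ψ₀ (fun r => by rw [← hψ₀]; rfl)
  let e₂ : Fib (P ⊗[R] 𝓔) ψ₀ ≃ₐ[k] (∀ i, B i) := e₁.symm.trans e₀
  have he₂ : ∀ z : 𝓔, e₂ (pr (P ⊗[R] 𝓔) ψ₀ (1 ⊗ₜ z)) = e₀ (pr 𝓔 φ₀ z) := by
    intro z
    change e₀ (e₁.symm _) = _
    rw [← he₁, e₁.symm_apply_apply]
  have hw : ∀ j i, e₂ (pr (P ⊗[R] 𝓔) ψ₀ (wj a j)) i =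
      algebraMap k (B i) (lam i - ψ₀ (MvPolynomial.X j)) := by
    intro j i
    rw [pr_wj, map_sub, he₂, ha, AlgEquiv.commutes, map_sub]
    rfl
  have hprod : ∀ (S : Finset (Fin p.natDegree)) i, e₂ (pr (P ⊗[R] 𝓔) ψ₀ (∏ j ∈ S, wj a j)) i =
      algebraMap k (B i) (∏ j ∈ S, (lam i - ψ₀ (MvPolynomial.X j))) := by
    intro S i
    rw [map_prod, map_prod, Finset.prod_apply, map_prod]
    exact Finset.prod_congr rfl fun j _ => hw j i
  have hroot : ∀ i, ∃ j, ψ₀ (MvPolynomial.X j) = lam i := by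
    intro i
    have h1 := hprod Finset.univ i
    have h2 : e₂ (pr (P ⊗[R] 𝓔) ψ₀ (∏ j, wj a j)) i = 0 := by
      change e₂ (pr (P ⊗[R] 𝓔) ψ₀ T) i = 0
      rw [hT₀, map_zero, Pi.zero_apply]
    rw [h2] at h1
    have h3 : ∏ j, (lam i - ψ₀ (MvPolynomial.X j)) = 0 := by
      apply FaithfulSMul.algebraMap_injective k (B i)
      rw [map_zero, ← h1]
    obtain ⟨j, -, hj⟩ := Finset.prod_eq_zero_iff.1 h3
    exact ⟨j, (sub_eq_zero.1 hj).symm⟩
  let t : Fin s → k := fun i =>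
    ∏ j ∈ Finset.univ.filter (fun j => β j ≠ i), (lam i - ψ₀ (MvPolynomial.X j))
  have ht : ∀ i, t i ≠ 0 := by
    intro i
    rw [Finset.prod_ne_zero_iff]
    intro j hj h
    rw [Finset.mem_filter] at hj
    exact hj.2 (hβ j i (sub_eq_zero.1 h).symm)
  have hGi : ∀ i, e₂ (pr (P ⊗[R] 𝓔) ψ₀ (G i)) i = algebraMap k (B i) (t i) := fun i =>
    hprod _ i
  have hGi' : ∀ i i', i' ≠ i → e₂ (pr (P ⊗[R] 𝓔) ψ₀ (G i)) i' = 0 := by
    intro i i' h
    obtain ⟨j, hj⟩ := hroot i'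
    have h1 : β j ≠ i := by
      rw [hβ j i' hj]
      exact h
    refine (hprod _ i').trans ?_
    rw [Finset.prod_eq_zero (Finset.mem_filter.2 ⟨Finset.mem_univ j, h1⟩)
      (by rw [hj, sub_self]), map_zero]
  -- the special point is in the open set
  have hΔ₀ : ψ₀ Δ ≠ 0 := by
    obtain ⟨b₀, -, hb₀⟩ := exists_fib_basis cP ψ₀
    have hM := toMatrix_fib cP G U ψ₀ b₀ hb₀
    have hdet : (b₀.toMatrix (fun q => pr (P ⊗[R] 𝓔) ψ₀ (G q.1 * U q.1 q.2))).det = ψ₀ Δ := by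
      rw [hM, ← RingHom.map_det]
      rfl
    rw [← hdet]
    let B' : Module.Basis (Σ i, Fin (d i)) k (Fib (P ⊗[R] 𝓔) ψ₀) :=
      ((Pi.basis bB).map e₂.symm.toLinearEquiv).isUnitSMul
        (w := fun q => t q.1) fun q => IsUnit.mk0 _ (ht q.1)
    have hB' : ∀ q, B' q = pr (P ⊗[R] 𝓔) ψ₀ (G q.1 * U q.1 q.2) := by
      intro q
      apply e₂.injective
      have h1 : B' q = t q.1 • e₂.symm (Pi.single q.1 (bB q.1 q.2)) := by
        change (((Pi.basis bB).map e₂.symm.toLinearEquiv).isUnitSMul _) q = _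
        rw [Module.Basis.isUnitSMul_apply, Module.Basis.map_apply, Pi.basis_apply]
        rfl
      rw [h1, map_smul, e₂.apply_symm_apply, map_mul, map_mul]
      change _ = _ * e₂ (pr (P ⊗[R] 𝓔) ψ₀ (1 ⊗ₜ u q.1 q.2))
      rw [he₂, hu]
      funext i
      rw [Pi.smul_apply, Pi.mul_apply]
      by_cases h : i = q.1
      · subst h
        rw [Pi.single_eq_same, hGi, Algebra.smul_def]
      · rw [Pi.single_eq_of_ne h, smul_zero, mul_zero]
    have h3 : (fun q => pr (P ⊗[R] 𝓔) ψ₀ (G q.1 * U q.1 q.2)) = ⇑B' :=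
      funext fun q => (hB' q).symm
    rw [h3]
    exact (b₀.isUnit_det B').ne_zero
  -- the open set of the cover
  let Y : Type := {ψ : P →ₐ[k] k // ψ Δ ≠ 0 ∧ pr (P ⊗[R] 𝓔) ψ T = 0}
  have hfam := fun y : Y => exists_family cP G U y.1 y.2.1 (hGG y.1 y.2.2)
  choose hE b hb using hfam
  let y₀ : Y := ⟨ψ₀, hΔ₀, hT₀⟩
  have hntA : ∀ (y : Y) i, Nontrivial (Part (pr (P ⊗[R] 𝓔) y.1 (G i))) := by
    intro y i
    have h1 : 0 < Module.finrank k (B i) := Module.finrank_pos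
    have h2 : Module.finrank k (Part (pr (P ⊗[R] 𝓔) y.1 (G i))) = Module.finrank k (B i) := by
      rw [Module.finrank_eq_card_basis (b y i), Fintype.card_fin]
    exact Module.nontrivial_of_finrank_pos (R := k) (by rw [h2]; exact h1)
  have hfinA : ∀ (y : Y) i, Module.Finite k (Part (pr (P ⊗[R] 𝓔) y.1 (G i))) := fun y i =>
    Module.Finite.of_basis (b y i)
  have hntPi : ∀ y : Y, Nontrivial (∀ i, Part (pr (P ⊗[R] 𝓔) y.1 (G i))) := fun y =>
    Pi.nontrivial_at ⟨0, hs⟩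
  have hrate : ∀ (y : Y) (φ : R →ₐ[k] k), res (R := R) y.1 = φ →
      rate k (Fib 𝓔 φ) = rate k (∀ i, Part (pr (P ⊗[R] 𝓔) y.1 (G i))) := by
    intro y φ hφ
    obtain ⟨e, he⟩ := hE y
    obtain ⟨e', -⟩ := exists_fib_equiv (P := P) c φ y.1 (fun r => by rw [← hφ]; rfl)
    let e'' : Fib 𝓔 φ ≃ₐ[k] (∀ i, Part (pr (P ⊗[R] 𝓔) y.1 (G i))) :=
      e'.trans (AlgEquiv.ofBijective e he)
    have h1 : Nontrivial (Fib 𝓔 φ) := e''.toEquiv.nontrivial
    have h2 : Module.Finite k (Fib 𝓔 φ) := by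
      obtain ⟨b1, -, -⟩ := exists_fib_basis c φ
      exact Module.Finite.of_basis b1
    exact N86.SQ.rate_congr e''
  rw [hrate y₀ φ₀ hψ₀]
  refine closure_union hs (fun (y : Y) i => Part (pr (P ⊗[R] 𝓔) y.1 (G i))) b y₀ (fun i => ?_)
    hntA (ZI := {ψ : P →ₐ[k] k // ψ ∈ cov p Z ∧ ψ Δ ≠ 0})
    (fun ψ => ⟨ψ.1, ψ.2.2, hT ψ.1 ψ.2.1⟩) (fun Q hQ => ?_) fun ψ => ?_
  · exact isLocal_part (e₂ : Fib (P ⊗[R] 𝓔) ψ₀ ≃+* (∀ i, B i)) i (fun i' h => hGi' i i' h)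
      (by
        change IsUnit (e₂ (pr (P ⊗[R] 𝓔) ψ₀ (G i)) i)
        rw [hGi]
        exact (IsUnit.mk0 _ (ht i)).map (algebraMap k (B i)))
  · obtain ⟨n, Q', hQ'⟩ := exists_clear Δ (num cP G U) Q
    have h1 : ψ₀ (Δ * Q') = 0 := by
      refine hψ₀K _ fun ψ hψ => ?_
      rw [map_mul]
      by_cases h : ψ Δ = 0
      · rw [h, zero_mul]
      · have h2 := hQ ⟨ψ, hψ, h⟩
        have h3 : jpar (b ⟨ψ, h, hT ψ hψ⟩) =
            fun q => ψ (num cP G U q) / ψ Δ := funext fun q => hb ⟨ψ, h, hT ψ hψ⟩ q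
        have h4 : MvPolynomial.eval (fun q => ψ (num cP G U q) / ψ Δ) Q = 0 := by
          rw [← h3]
          exact h2
        rw [hQ' ψ h, h4, mul_zero, mul_zero]
    rw [map_mul, hQ' ψ₀ hΔ₀] at h1
    have h5 : jpar (b y₀) = fun q => ψ₀ (num cP G U q) / ψ₀ Δ := funext fun q => hb y₀ q
    rw [h5]
    rcases mul_eq_zero.1 h1 with h | h
    · exact absurd h hΔ₀
    · rcases mul_eq_zero.1 h with h | h
      · exact absurd h (pow_ne_zero n hΔ₀)
      · exact h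
  · rw [← hrate ⟨ψ.1, ψ.2.2, hT ψ.1 ψ.2.1⟩ (res (R := R) ψ.1) rfl]
    exact hx _ ψ.2.1.1

end Pool.Agent.U627.ZC
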