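import Pool.Agent.U627.ZC.Fib

/-!
# Models over subrings
-/

set_option autoImplicit false
set_option linter.unusedSectionVars false

namespace Pool.Agent.U627.ZC

open scoped TensorProduct

section coord

variable {k : Type} [Field k] {L : Type} [CommRing L] [Algebra k L] {𝓐 : Type} [CommRing 𝓐]
  [Algebra L 𝓐] {ι : Type} [Fintype ι] (P : Subalgebra k L) (c : Module.Basis ι L 𝓐)

/-- the elements with coordinates in `P` -/
noncomputable def coordSub (h1 : ∀ m, c.repr 1 m ∈ P) (h2 : ∀ i j m, c.repr (c i * c j) m ∈ P) :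
    Subalgebra P 𝓐 where
  carrier := {x | ∀ m, c.repr x m ∈ P}
  mul_mem' := by
    intro x y hx hy m
    have h3 : c.repr (x * y) m =
        ∑ i, ∑ j, c.repr x i * (c.repr y j * c.repr (c i * c j) m) := by
      conv_lhs => rw [← c.sum_repr x, ← c.sum_repr y, Finset.sum_mul_sum]
      rw [map_sum, Finsupp.finsetSum_apply]
      refine Finset.sum_congr rfl fun i _ => ?_
      rw [map_sum, Finsupp.finsetSum_apply]
      refine Finset.sum_congr rfl fun j _ => ?_
      rw [smul_mul_smul_comm, map_smul, Finsupp.smul_apply, smul_eq_mul, mul_assoc]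
    rw [h3]
    exact sum_mem fun i _ => sum_mem fun j _ => mul_mem (hx i) (mul_mem (hy j) (h2 i j m))
  add_mem' := by
    intro x y hx hy m
    rw [map_add, Finsupp.add_apply]
    exact add_mem (hx m) (hy m)
  algebraMap_mem' := by
    intro r m
    have h3 : c.repr (algebraMap P 𝓐 r) m = (r : L) * c.repr 1 m := by
      change c.repr (algebraMap L 𝓐 (r : L)) m = _
      rw [Algebra.algebraMap_eq_smul_one, map_smul, Finsupp.smul_apply, smul_eq_mul]
    rw [h3]
    exact mul_mem r.2 (h1 m)

theorem exists_coord_basis (h1 : ∀ m, c.repr 1 m ∈ P)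
    (h2 : ∀ i j m, c.repr (c i * c j) m ∈ P) :
    ∃ b : Module.Basis ι P (coordSub P c h1 h2), (∀ m, (b m : 𝓐) = c m) ∧
      ∀ x m, (b.repr x m : L) = c.repr (x : 𝓐) m := by
  classical
  let f : coordSub P c h1 h2 →ₗ[P] (ι → P) :=
    { toFun := fun x m => ⟨c.repr (x : 𝓐) m, x.2 m⟩
      map_add' := fun x y => by
        funext m
        refine Subtype.ext ?_
        change c.repr ((x : 𝓐) + (y : 𝓐)) m = c.repr (x : 𝓐) m + c.repr (y : 𝓐) m
        rw [map_add, Finsupp.add_apply]
      map_smul' := fun r x => by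
        funext m
        refine Subtype.ext ?_
        change c.repr ((r : L) • (x : 𝓐)) m = (r : L) * c.repr (x : 𝓐) m
        rw [map_smul, Finsupp.smul_apply, smul_eq_mul] }
  have hf : Function.Bijective f := by
    constructor
    · intro x y hxy
      refine Subtype.ext (c.repr.injective (Finsupp.ext fun m => ?_))
      exact congrArg Subtype.val (congrFun hxy m)
    · intro g
      refine ⟨⟨∑ i, (g i : L) • c i, fun m => ?_⟩, ?_⟩
      · rw [c.repr_sum_self]
        exact (g m).2
      · funext m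
        refine Subtype.ext ?_
        change c.repr (∑ i, (g i : L) • c i) m = g m
        rw [c.repr_sum_self]
  let e : coordSub P c h1 h2 ≃ₗ[P] (ι → P) := LinearEquiv.ofBijective f hf
  refine ⟨Module.Basis.ofEquivFun e, fun m => ?_, fun x m => ?_⟩
  · have h3 : e (Module.Basis.ofEquivFun e m) = Pi.single m 1 := by
      rw [Module.Basis.coe_ofEquivFun, e.apply_symm_apply]
    apply c.repr.injective
    refine Finsupp.ext fun m' => ?_
    have h4 : c.repr ((Module.Basis.ofEquivFun e m : coordSub P c h1 h2) : 𝓐) m' =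
        ((Pi.single m (1 : P) : ι → P) m' : L) := by
      rw [← h3]
      rfl
    rw [h4, c.repr_self]
    by_cases h : m' = m
    · subst h
      rw [Pi.single_eq_same, Finsupp.single_eq_same]
      rfl
    · rw [Pi.single_eq_of_ne h, Finsupp.single_eq_of_ne h]
      rfl
  · rw [Module.Basis.ofEquivFun_repr_apply]
    rfl

end coord

section ident

variable {k : Type} [Field k] {P : Type} [CommRing P] [Algebra k P] {𝓕 : Type} [CommRing 𝓕]
  [Algebra P 𝓕] [Algebra k 𝓕] [IsScalarTower k P 𝓕] {ι : Type} [Fintype ι]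

/-- identification of a fibre -/
theorem exists_ident (b : Module.Basis ι P 𝓕) (ψ : P →ₐ[k] k) {E : Type} [CommRing E]
    [Algebra k E] (c : Module.Basis ι k E) (f : 𝓕 →+* E) (hf1 : ∀ m, f (b m) = c m)
    (hf2 : ∀ p, f (algebraMap P 𝓕 p) = algebraMap k E (ψ p)) :
    ∃ e : Fib 𝓕 ψ ≃ₐ[k] E, ∀ x, e (pr 𝓕 ψ x) = f x := by
  let f' : 𝓕 →ₐ[k] E :=
    { f with
      commutes' := fun t => by
        change f (algebraMap k 𝓕 t) = algebraMap k E t
        rw [IsScalarTower.algebraMap_apply k P 𝓕, hf2, AlgHom.commutes]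
        rfl }
  have hker : ∀ x ∈ (RingHom.ker ψ).map (algebraMap P 𝓕), f' x = 0 := by
    intro x hx
    have h1 : (RingHom.ker ψ).map (algebraMap P 𝓕) ≤ RingHom.ker f' := by
      rw [Ideal.map_le_iff_le_comap]
      intro r hr
      rw [Ideal.mem_comap, RingHom.mem_ker]
      change f (algebraMap P 𝓕 r) = 0
      rw [hf2, (show ψ r = 0 from hr), map_zero]
    exact h1 hx
  let g : Fib 𝓕 ψ →ₐ[k] E := Ideal.Quotient.liftₐ _ f' hker
  have hg : ∀ x, g (pr 𝓕 ψ x) = f x := fun x => rfl
  obtain ⟨b', hb', -⟩ := exists_fib_basis b ψ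
  let e : Fib 𝓕 ψ ≃ₗ[k] E := b'.equiv c (Equiv.refl ι)
  have he : g.toLinearMap = e.toLinearMap := by
    refine b'.ext fun m => ?_
    rw [AlgHom.toLinearMap_apply, hb', hg, hf1, ← hb']
    exact (b'.equiv_apply m c (Equiv.refl ι)).symm
  have h1 : ⇑g = ⇑e := by
    funext x
    exact LinearMap.congr_fun he x
  have h2 : Function.Bijective g := by
    rw [h1]
    exact e.bijective
  exact ⟨AlgEquiv.ofBijective g h2, fun x => rfl⟩

end ident

end Pool.Agent.U627.ZC
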