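import Mathlib

/-!
# Splitting of an algebra by elements with zero products
-/

set_option autoImplicit false
set_option linter.unusedSectionVars false

namespace Pool.Agent.U627.ZC

variable {k : Type} [Field k] {F : Type} [CommRing F] [Algebra k F]

/-- the quotient of `F` by the annihilator of `g` -/
abbrev Part {F : Type} [CommRing F] (g : F) : Type := F ⧸ (Ideal.span {g}).annihilator

theorem mem_ann {g x : F} : x ∈ (Ideal.span {g}).annihilator ↔ g * x = 0 := by
  rw [Submodule.mem_annihilator_span_singleton, smul_eq_mul, mul_comm]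

variable {s : ℕ} {d : Fin s → ℕ} {G : Fin s → F} {u : ∀ i, Fin (d i) → F}

theorem exists_one (B : Module.Basis (Σ i, Fin (d i)) k F)
    (hB : ∀ q, B q = G q.1 * u q.1 q.2) (x : F) :
    x = ∑ i, G i * ∑ j, B.repr x ⟨i, j⟩ • u i j := by
  conv_lhs => rw [← B.sum_repr x, Fintype.sum_sigma]
  refine Finset.sum_congr rfl fun i _ => ?_
  rw [Finset.mul_sum]
  refine Finset.sum_congr rfl fun j _ => ?_
  rw [hB, mul_smul_comm]

theorem mul_G (hG : ∀ i i', i ≠ i' → G i * G i' = 0) (B : Module.Basis (Σ i, Fin (d i)) k F)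
    (hB : ∀ q, B q = G q.1 * u q.1 q.2) (x : F) (i : Fin s) :
    G i * x = G i * (G i * ∑ j, B.repr x ⟨i, j⟩ • u i j) := by
  conv_lhs => rw [exists_one B hB x, Finset.mul_sum]
  rw [Finset.sum_eq_single i]
  · intro i' _ hi'
    rw [← mul_assoc, hG i i' (Ne.symm hi'), zero_mul]
  · intro h
    exact absurd (Finset.mem_univ _) h

/-- an element killed by all `G i` is zero -/
theorem eq_zero_of_G (B : Module.Basis (Σ i, Fin (d i)) k F)
    (hB : ∀ q, B q = G q.1 * u q.1 q.2) {x : F} (hx : ∀ i, G i * x = 0) : x = 0 := by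
  have h1 := exists_one B hB (1 : F)
  have h2 : x = x * 1 := (mul_one x).symm
  rw [h2, h1, Finset.mul_sum]
  refine Finset.sum_eq_zero fun i _ => ?_
  rw [← mul_assoc, mul_comm x, hx, zero_mul]

theorem exists_split (hG : ∀ i i', i ≠ i' → G i * G i' = 0)
    (B : Module.Basis (Σ i, Fin (d i)) k F) (hB : ∀ q, B q = G q.1 * u q.1 q.2) :
    ∃ e : F →ₐ[k] (∀ i, Part (G i)), Function.Bijective e ∧
      ∀ x i, e x i = Ideal.Quotient.mk (Ideal.span {G i}).annihilator x := by
  let e : F →ₐ[k] (∀ i, Part (G i)) := AlgHom.pi fun i =>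
    Ideal.Quotient.mkₐ k (Ideal.span {G i}).annihilator
  have he : ∀ x i, e x i = Ideal.Quotient.mk (Ideal.span {G i}).annihilator x := fun x i => rfl
  refine ⟨e, ⟨?_, ?_⟩, he⟩
  · rw [injective_iff_map_eq_zero]
    intro x hx
    refine eq_zero_of_G B hB fun i => ?_
    have h1 := congrFun hx i
    rw [he, Pi.zero_apply, Ideal.Quotient.eq_zero_iff_mem, mem_ann] at h1
    exact h1
  · intro y
    choose x hx using fun i => Ideal.Quotient.mk_surjective (y i)
    let ε : Fin s → F := fun i => G i * ∑ j, B.repr 1 ⟨i, j⟩ • u i j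
    have hε : ∑ i, ε i = 1 := (exists_one B hB (1 : F)).symm
    have hGε : ∀ i i', i ≠ i' → G i * ε i' = 0 := by
      intro i i' h
      change G i * (G i' * _) = 0
      rw [← mul_assoc, hG i i' h, zero_mul]
    refine ⟨∑ i, ε i * x i, ?_⟩
    funext i
    rw [he, ← hx i, Ideal.Quotient.eq, mem_ann, mul_sub, Finset.mul_sum, Finset.sum_eq_single i,
      ← mul_sub]
    · have h1 : ε i * x i - x i = -(∑ i' ∈ Finset.univ.erase i, ε i') * x i := by
        rw [← Finset.add_sum_erase _ _ (Finset.mem_univ i)] at hε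
        have h2 : ε i = 1 - ∑ i' ∈ Finset.univ.erase i, ε i' := by rw [← hε]; ring
        rw [h2]
        ring
      rw [h1, neg_mul, mul_neg, ← mul_assoc, Finset.mul_sum, Finset.sum_eq_zero, zero_mul,
        neg_zero]
      intro i' hi'
      exact hGε i i' (Ne.symm (Finset.ne_of_mem_erase hi'))
    · intro i' _ hi'
      rw [← mul_assoc, hGε i i' (Ne.symm hi'), zero_mul]
    · intro h
      exact absurd (Finset.mem_univ _) h

theorem exists_part_basis (hG : ∀ i i', i ≠ i' → G i * G i' = 0)
    (B : Module.Basis (Σ i, Fin (d i)) k F) (hB : ∀ q, B q = G q.1 * u q.1 q.2) (i : Fin s) :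
    ∃ b : Module.Basis (Fin (d i)) k (Part (G i)),
      (∀ j, b j = Ideal.Quotient.mk (Ideal.span {G i}).annihilator (u i j)) ∧
      ∀ x j, b.repr (Ideal.Quotient.mk (Ideal.span {G i}).annihilator x) j =
        B.repr (G i * x) ⟨i, j⟩ := by
  classical
  have hsmul : ∀ (t : k) (x : F), Ideal.Quotient.mk (Ideal.span {G i}).annihilator (t • x) =
      t • (Ideal.Quotient.mk (Ideal.span {G i}).annihilator x : Part (G i)) := fun t x => rfl
  have hli : LinearIndependent k fun j =>
      (Ideal.Quotient.mk (Ideal.span {G i}).annihilator (u i j) : Part (G i)) := by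
    rw [Fintype.linearIndependent_iff]
    intro t ht j
    have h1 : (Ideal.Quotient.mk (Ideal.span {G i}).annihilator (∑ j, t j • u i j) :
        Part (G i)) = 0 := by
      rw [map_sum, ← ht]
      rfl
    rw [Ideal.Quotient.eq_zero_iff_mem, mem_ann, Finset.mul_sum] at h1
    have h2 : ∑ j, t j • B ⟨i, j⟩ = 0 := by
      rw [← h1]
      refine Finset.sum_congr rfl fun j _ => ?_
      rw [hB, mul_smul_comm]
    have h3 := B.linearIndependent.comp (fun j : Fin (d i) => (⟨i, j⟩ : Σ i, Fin (d i)))
      (fun j j' h => by simpa using h)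
    exact Fintype.linearIndependent_iff.1 h3 t h2 j
  have hrep : ∀ x, (Ideal.Quotient.mk (Ideal.span {G i}).annihilator x : Part (G i)) =
      ∑ j, B.repr (G i * x) ⟨i, j⟩ •
        (Ideal.Quotient.mk (Ideal.span {G i}).annihilator (u i j) : Part (G i)) := by
    intro x
    have h1 : ∑ j, B.repr (G i * x) ⟨i, j⟩ •
        (Ideal.Quotient.mk (Ideal.span {G i}).annihilator (u i j) : Part (G i)) =
        Ideal.Quotient.mk (Ideal.span {G i}).annihilator
          (∑ j, B.repr (G i * x) ⟨i, j⟩ • u i j) := by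
      rw [map_sum]
      rfl
    rw [h1, Ideal.Quotient.eq, mem_ann]
    refine eq_zero_of_G B hB fun i' => ?_
    by_cases h : i' = i
    · subst h
      have h2 := mul_G hG B hB (G i' * x) i'
      rw [mul_sub, mul_sub, h2, sub_self]
    · rw [← mul_assoc, hG i' i h, zero_mul]
  have hsp : ⊤ ≤ Submodule.span k (Set.range fun j =>
      (Ideal.Quotient.mk (Ideal.span {G i}).annihilator (u i j) : Part (G i))) := by
    rintro y -
    obtain ⟨x, rfl⟩ := Ideal.Quotient.mk_surjective y
    rw [hrep]
    exact Submodule.sum_mem _ fun j _ => Submodule.smul_mem _ _ (Submodule.subset_span ⟨j, rfl⟩)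
  refine ⟨Module.Basis.mk hli hsp, fun j => Module.Basis.mk_apply hli hsp j, fun x j => ?_⟩
  have h1 : (Ideal.Quotient.mk (Ideal.span {G i}).annihilator x : Part (G i)) =
      ∑ j, B.repr (G i * x) ⟨i, j⟩ • (Module.Basis.mk hli hsp) j := by
    rw [hrep x]
    refine Finset.sum_congr rfl fun j _ => ?_
    rw [Module.Basis.mk_apply]
  rw [h1, Module.Basis.repr_sum_self]

/-- the part of a product of local rings cut out by an element supported at one factor -/
theorem isLocal_part {B : Fin s → Type} [∀ i, CommRing (B i)] (e : F ≃+* (∀ i, B i)) (i : Fin s)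
    [IsLocalRing (B i)] {g : F} (h0 : ∀ i', i' ≠ i → e g i' = 0) (h1 : IsUnit (e g i)) :
    IsLocalRing (Part g) := by
  let f : F →+* B i := (Pi.evalRingHom B i).comp (e : F →+* (∀ i, B i))
  have hf : Function.Surjective f := (Function.surjective_eval i).comp e.surjective
  have hk : RingHom.ker f = (Ideal.span {g}).annihilator := by
    ext x
    rw [RingHom.mem_ker, mem_ann]
    change e x i = 0 ↔ _
    constructor
    · intro hx
      apply e.injective
      rw [map_mul, map_zero]
      funext i'
      rw [Pi.mul_apply, Pi.zero_apply]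
      by_cases h : i' = i
      · subst h
        rw [hx, mul_zero]
      · rw [h0 i' h, zero_mul]
    · intro hx
      have h2 : e g i * e x i = 0 := by
        rw [← Pi.mul_apply, ← map_mul, hx, map_zero, Pi.zero_apply]
      exact (h1.mul_right_eq_zero).1 h2
  let ε : (F ⧸ RingHom.ker f) ≃+* B i := RingHom.quotientKerEquivOfSurjective hf
  let ε' : Part g ≃+* B i := (Ideal.quotEquivOfEq hk.symm).trans ε
  exact ε'.symm.isLocalRing

end Pool.Agent.U627.ZC
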