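import Pool.Agent.U627.ZC.Fib
import Pool.Agent.U627.ZC.Split
import Pool.Agent.U922.WO.Fin

/-!
# Splittings of the fibres with denominators
-/

set_option autoImplicit false
set_option linter.unusedSectionVars false

namespace Pool.Agent.U627.ZC

open scoped TensorProduct
open Pool.Agent.N86.SQ Pool.Agent.U922.WO
open Matrix

variable {k : Type} [Field k]

theorem exists_basis_of_det {F : Type} [CommRing F] [Algebra k F] {ι : Type} [Fintype ι]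
    [DecidableEq ι] (b₀ : Module.Basis ι k F) (v : ι → F) (h : (b₀.toMatrix v).det ≠ 0) :
    ∃ B : Module.Basis ι k F, (∀ l, B l = v l) ∧ ∀ x l, B.repr x l =
      ((b₀.toMatrix v).adjugate *ᵥ (b₀.repr x)) l / (b₀.toMatrix v).det := by
  obtain ⟨hli, hsp⟩ := (b₀.is_basis_iff_det (v := v)).2 (IsUnit.mk0 _ h)
  let B := Module.Basis.mk hli hsp.ge
  have hv : ⇑B = v := Module.Basis.coe_mk hli hsp.ge
  refine ⟨B, fun l => congrFun hv l, fun x l => ?_⟩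
  have h1 : b₀.toMatrix v *ᵥ B.repr x = b₀.repr x := by
    have h2 := Module.Basis.toMatrix_mulVec_repr (b := B) (b' := b₀) x
    rwa [hv] at h2
  rw [← h1, Matrix.mulVec_mulVec, Matrix.adjugate_mul, Matrix.smul_mulVec, Matrix.one_mulVec,
    Pi.smul_apply, smul_eq_mul, mul_div_cancel_left₀ _ h]

theorem exists_clear {P : Type} [CommRing P] [Algebra k P] {τ : Type} (Δ : P) (N : τ → P)
    (Q : MvPolynomial τ k) : ∃ (n : ℕ) (Q' : P), ∀ ψ : P →ₐ[k] k, ψ Δ ≠ 0 →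
      ψ Q' = (ψ Δ) ^ n * MvPolynomial.eval (fun q => ψ (N q) / ψ Δ) Q := by
  induction Q using MvPolynomial.induction_on with
  | C a =>
    refine ⟨0, algebraMap k P a, fun ψ _ => ?_⟩
    rw [AlgHom.commutes, MvPolynomial.eval_C, pow_zero, one_mul]
    rfl
  | add Q₁ Q₂ h₁ h₂ =>
    obtain ⟨n₁, Q₁', h₁⟩ := h₁
    obtain ⟨n₂, Q₂', h₂⟩ := h₂
    refine ⟨n₁ + n₂, Δ ^ n₂ * Q₁' + Δ ^ n₁ * Q₂', fun ψ hψ => ?_⟩
    rw [map_add, map_add, map_mul, map_mul, h₁ ψ hψ, h₂ ψ hψ, map_pow, map_pow]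
    ring
  | mul_X Q₁ q h₁ =>
    obtain ⟨n₁, Q₁', h₁⟩ := h₁
    refine ⟨n₁ + 1, Q₁' * N q, fun ψ hψ => ?_⟩
    rw [map_mul, map_mul, h₁ ψ hψ, MvPolynomial.eval_X, pow_succ]
    field_simp

section family

variable {P : Type} [CommRing P] [Algebra k P] {𝓕 : Type} [CommRing 𝓕] [Algebra P 𝓕]
  [Algebra k 𝓕] [IsScalarTower k P 𝓕] {s : ℕ} {d : Fin s → ℕ}
  (c : Module.Basis (Σ i, Fin (d i)) P 𝓕) (G : Fin s → 𝓕) (U : ∀ i, Fin (d i) → 𝓕)

/-- the matrix of the coordinates of the elements `G i * U i j` -/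
noncomputable def mat : Matrix (Σ i, Fin (d i)) (Σ i, Fin (d i)) P :=
  c.toMatrix fun q => G q.1 * U q.1 q.2

/-- the numerators of the structure constants of the parts -/
noncomputable def num : (Σ i, PIdx (d i)) → P := fun q =>
  Sum.elim
    (fun z : Fin (d q.1) × Fin (d q.1) × Fin (d q.1) =>
      ((mat c G U).adjugate *ᵥ (c.repr (G q.1 * (U q.1 z.1 * U q.1 z.2.1)))) ⟨q.1, z.2.2⟩)
    (fun j : Fin (d q.1) => ((mat c G U).adjugate *ᵥ (c.repr (G q.1 * 1))) ⟨q.1, j⟩) q.2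

theorem toMatrix_fib (ψ : P →ₐ[k] k) (b₀ : Module.Basis (Σ i, Fin (d i)) k (Fib 𝓕 ψ))
    (hb₀ : ∀ x m, b₀.repr (pr 𝓕 ψ x) m = ψ (c.repr x m)) :
    b₀.toMatrix (fun q => pr 𝓕 ψ (G q.1 * U q.1 q.2)) =
      (ψ : P →+* k).mapMatrix (mat c G U) := by
  ext m q
  rw [Module.Basis.toMatrix_apply, hb₀]
  rfl

theorem exists_family (ψ : P →ₐ[k] k) (hΔ : ψ (mat c G U).det ≠ 0)
    (hG : ∀ i i', i ≠ i' → pr 𝓕 ψ (G i) * pr 𝓕 ψ (G i') = 0) :
    (∃ e : Fib 𝓕 ψ →ₐ[k] (∀ i, Part (pr 𝓕 ψ (G i))), Function.Bijective e) ∧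
    ∃ b : ∀ i, Module.Basis (Fin (d i)) k (Part (pr 𝓕 ψ (G i))),
      ∀ q, jpar b q = ψ (num c G U q) / ψ (mat c G U).det := by
  classical
  obtain ⟨b₀, -, hb₀⟩ := exists_fib_basis c ψ
  have hM := toMatrix_fib c G U ψ b₀ hb₀
  have hdet : (b₀.toMatrix (fun q => pr 𝓕 ψ (G q.1 * U q.1 q.2))).det =
      ψ (mat c G U).det := by
    rw [hM, ← RingHom.map_det]
    rfl
  obtain ⟨B, hB, hBr⟩ := exists_basis_of_det b₀ (fun q => pr 𝓕 ψ (G q.1 * U q.1 q.2))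
    (by rw [hdet]; exact hΔ)
  have hB' : ∀ q, B q = pr 𝓕 ψ (G q.1) * (fun i j => pr 𝓕 ψ (U i j)) q.1 q.2 := fun q => by
    rw [hB, map_mul]
  have hrepr : ∀ x l, B.repr (pr 𝓕 ψ x) l =
      ψ (((mat c G U).adjugate *ᵥ (c.repr x)) l) / ψ (mat c G U).det := by
    intro x l
    rw [hBr, hdet, hM, ← RingHom.map_adjugate]
    congr 1
    rw [Matrix.mulVec, Matrix.mulVec, dotProduct, dotProduct, map_sum]
    refine Finset.sum_congr rfl fun m _ => ?_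
    rw [hb₀, map_mul]
    rfl
  obtain ⟨e, he, -⟩ := exists_split (u := fun i j => pr 𝓕 ψ (U i j)) hG B hB'
  choose b hb1 hb2 using exists_part_basis (u := fun i j => pr 𝓕 ψ (U i j)) hG B hB'
  refine ⟨⟨e, he⟩, b, ?_⟩
  rintro ⟨i, z | j⟩
  · change (b i).repr (b i z.1 * b i z.2.1) z.2.2 = ψ (((mat c G U).adjugate *ᵥ
      (c.repr (G i * (U i z.1 * U i z.2.1)))) ⟨i, z.2.2⟩) / _
    rw [hb1, hb1, ← map_mul, hb2, ← map_mul, ← map_mul, hrepr]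
  · change (b i).repr 1 j = ψ (((mat c G U).adjugate *ᵥ
      (c.repr (G i * 1))) ⟨i, j⟩) / _
    rw [← map_one (Ideal.Quotient.mk (Ideal.span {pr 𝓕 ψ (G i)}).annihilator), hb2,
      ← map_one (pr 𝓕 ψ), ← map_mul, hrepr]

end family

end Pool.Agent.U627.ZC
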