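import Pool.Agent.U627.ZC.Bc

/-!
# The growth rate does not depend on the base field
-/

set_option autoImplicit false
set_option linter.unusedSectionVars false

namespace Pool.Agent.U627.ZC

open scoped TensorProduct PowerSeries
open Pool.Agent.H826R3.SM Pool.Agent.TH671.DU Pool.Agent.N86.SQ Pool.Agent.U922.WO
open MvPolynomial

variable {k K : Type} [Field k] [Field K] [Algebra k K]

section fin

variable {A B : Type} [CommRing A] [Algebra k A] [CommRing B] [Algebra K B] {j : A →+* B}

theorem BC.finite (h : BC k K A B j) : Module.Finite K B := by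
  obtain ⟨-, ι, _, b, b', -⟩ := h
  exact Module.Finite.of_basis b'

theorem BC.finrank (h : BC k K A B j) : Module.finrank K B = Module.finrank k A := by
  obtain ⟨-, ι, _, b, b', -⟩ := h
  rw [Module.finrank_eq_card_basis b, Module.finrank_eq_card_basis b']

theorem BC.nontrivial [Module.Finite k A] [Nontrivial A] (h : BC k K A B j) : Nontrivial B :=
  Module.nontrivial_of_finrank_pos (R := K) (by rw [h.finrank]; exact Module.finrank_pos)

end fin

variable [IsAlgClosed k] [IsAlgClosed K]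

theorem rate_le_of_bc {A B : Type} [CommRing A] [Algebra k A] [Module.Finite k A] [Nontrivial A]
    [CommRing B] [Algebra K B] [Module.Finite K B] {j : A →+* B} (h : BC k K A B j) {τ : Type}
    [Finite τ] {a : τ → A} (hgen : Algebra.adjoin k (Set.range a) = ⊤) {m : ℕ}
    (hnil : Ideal.span (Set.range a) ^ (m + 1) = ⊥) {D : ℕ} (hD : Fam K B D) :
    rate k A ≤ D := by
  have : Infinite K := IsAlgClosed.instInfinite
  have hr := one_le_rate (k := k) A
  obtain ⟨O, _, _, _, _, _, T, _, h', q, hT, hJ⟩ := joint_of_fam hD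
    (aeval fun v => j (a v)) fun i => (Module.finBasis K B).coord i
  have hJA := hJ.jointA
  refine limit_lemma _ _ (by linarith) (Nat.cast_nonneg _) (m + 1) h' (Module.finrank K⟦X⟧ O)
    fun n => ?_
  have h1 := linesUpTo_of_joint hJA (n + 1) ((m + 1) * (n + 1))
  obtain ⟨J, hJ1, hJ2⟩ := BC.piT (P := Fin (n + 1)) (A := fun _ => A) (B := fun _ => B)
    (j := fun _ => j) (fun _ => h)
  have h1' : (fun v : Fin (n + 1) × τ => J (sg k A v.1 (a v.2))) =
      fun v => sg K B v.1 (j (a v.2)) := funext fun v => hJ2 v.1 (a v.2)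
  rw [← h1'] at h1
  have h2 := hJ1.lines h1
  have h3 := inLines_of_linesUpTo (adjoin_pow hgen (n + 1)) (nil_pow (k := k) a m hnil (n + 1)) h2
  have h4 := fam_pow_of_lines hgen hnil h3
  have h5 := TH671.DU.mdeg_le h4
  refine (rate_pow_le A (n + 1)).trans ?_
  have h6 : Fintype.card T ^ (n + 1) * (((m + 1) * (n + 1) * ((n + 1) * h') + 1) *
        ((m + 1) * (n + 1) + 1) ^ Module.finrank K⟦X⟧ O) * ((m + 1) * (n + 1) + 2) ≤
      D ^ (n + 1) * (((m + 1) * (n + 1) * ((n + 1) * h') + 1) *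
        ((m + 1) * (n + 1) + 1) ^ Module.finrank K⟦X⟧ O) * ((m + 1) * (n + 1) + 2) := by
    gcongr
  have h7 : ((mdeg k (Pow k A (n + 1)) : ℕ) : ℝ) ≤
      ((D ^ (n + 1) * (((m + 1) * (n + 1) * ((n + 1) * h') + 1) *
        ((m + 1) * (n + 1) + 1) ^ Module.finrank K⟦X⟧ O) * ((m + 1) * (n + 1) + 2) : ℕ) : ℝ) := by
    exact_mod_cast h5.trans h6
  refine h7.trans (le_of_eq ?_)
  push_cast
  ring

/-- the descent of the growth rate for local schemes -/
theorem rate_le_bc_local {A B : Type} [CommRing A] [Algebra k A] [Module.Finite k A]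
    [IsLocalRing A] [CommRing B] [Algebra K B] {j : A →+* B} (h : BC k K A B j) :
    rate k A ≤ rate K B := by
  have hfin := h.finite
  have hntB := h.nontrivial
  obtain ⟨-, l, a, e, hgen, hnil⟩ := local_gens (k := k) A
  have hr := one_le_rate (k := k) A
  rw [rate_eq B]
  refine le_irate _ _ (by linarith) fun N => ?_
  rw [← rate_pow' A (N + 1)]
  have hnt : Nontrivial (Pow k A (N + 1)) := nontrivial_pow A (N + 1)
  obtain ⟨J, hJ1, -⟩ := BC.piT (P := Fin (N + 1)) (A := fun _ => A) (B := fun _ => B)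
    (j := fun _ => j) (fun _ => h)
  obtain ⟨D, hD⟩ := exists_fam (k := K) (Pow K B (N + 1))
  exact rate_le_of_bc hJ1 (adjoin_pow hgen (N + 1)) (nil_pow (k := k) a e hnil (N + 1))
    (mdeg_spec hD)

/-- the descent of the growth rate for disjoint unions of local schemes -/
theorem rate_le_bc_pi {s : ℕ} (hs : 0 < s) (A B : Fin s → Type) [∀ i, CommRing (A i)]
    [∀ i, Algebra k (A i)] [∀ i, Module.Finite k (A i)] [∀ i, IsLocalRing (A i)]
    [∀ i, CommRing (B i)] [∀ i, Algebra K (B i)] (h : ∀ i, ∃ j, BC k K (A i) (B i) j) :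
    rate k (∀ i, A i) ≤ rate K (∀ i, B i) := by
  classical
  choose j hj using h
  have hfinB : ∀ i, Module.Finite K (B i) := fun i => (hj i).finite
  have hntB : ∀ i, Nontrivial (B i) := fun i => (hj i).nontrivial
  have hntA : Nontrivial (∀ i, A i) := Pi.nontrivial_at ⟨0, hs⟩
  have hntB' : Nontrivial (∀ i, B i) := Pi.nontrivial_at ⟨0, hs⟩
  have hr := one_le_rate (k := k) (∀ i, A i)
  have hx1 := one_le_rate (k := K) (∀ i, B i)
  set x := rate K (∀ i, B i) with hx
  have hmix : ∀ (N : ℕ) (f : Fin N → Fin s), rate k (Mix k A (ty f)) ≤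
      x ^ N / (Fintype.card {g : Fin N → Fin s // ty g = ty f} : ℝ) := by
    intro N f
    have hl : IsLocalRing (Mix k A (ty f)) :=
      isLocal_piT (k := k) fun p : (Σ i, Fin (ty f i)) => A p.1
    have hfm : Module.Finite k (Mix k A (ty f)) := finite_mix A (ty f)
    obtain ⟨J, hJ1, -⟩ := BC.piT (k := k) (K := K) (P := Σ i, Fin (ty f i))
      (A := fun p => A p.1) (B := fun p => B p.1) (j := fun p => j p.1) (fun p => hj p.1)
    have h1 : rate k (Mix k A (ty f)) ≤ rate K (Mix K B (ty f)) := rate_le_bc_local hJ1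
    have h2 := rate_lower_words (k := K) B hs f
    have h3 : (0 : ℝ) < (Fintype.card {g : Fin N → Fin s // ty g = ty f} : ℝ) := by
      have : Nonempty {g : Fin N → Fin s // ty g = ty f} := ⟨⟨f, rfl⟩⟩
      exact_mod_cast Fintype.card_pos
    refine h1.trans ?_
    rw [le_div_iff₀ h3, mul_comm]
    exact h2
  refine limit_lemma _ _ (by linarith) (by linarith) 1 0 s fun n => ?_
  have h4 := (rate_upper_words (k := k) A hs (n + 1)).trans
    (Finset.sum_le_sum fun f _ => hmix (n + 1) f)
  rw [sum_types] at h4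
  refine h4.trans ?_
  have h5 : ((Finset.univ.image (fun f : Fin (n + 1) → Fin s => ty f)).card : ℝ) ≤
      ((n + 1 + 1 : ℕ) : ℝ) ^ s := by exact_mod_cast card_types s (n + 1)
  have hxn : 0 ≤ x ^ (n + 1) := by positivity
  rw [mul_comm]
  refine mul_le_mul_of_nonneg_left (h5.trans ?_) hxn
  push_cast
  have h6 : (0 : ℝ) ≤ ((n : ℝ) + 1 + 1) ^ s := by positivity
  have h7 : (1 : ℝ) ≤ (n : ℝ) + 1 + 2 := by
    have : (0 : ℝ) ≤ (n : ℝ) := Nat.cast_nonneg _
    linarith
  rw [mul_zero, mul_zero, zero_add, one_mul, one_mul]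
  exact le_mul_of_one_le_right h6 h7

/-- **The growth rate does not change under extension of the base field.** -/
theorem rate_baseChange (A : Type) [CommRing A] [Algebra k A] [Module.Finite k A]
    [Nontrivial A] : rate K (K ⊗[k] A) = rate k A := by
  classical
  refine le_antisymm (rate_baseChange_le k K A) ?_
  obtain ⟨s, hs, B, _, _, _, _, ⟨e⟩⟩ := exists_dec (k := k) A
  have hnt1 : Nontrivial (∀ i, B i) := Pi.nontrivial_at ⟨0, hs⟩
  have h1 : rate k A = rate k (∀ i, B i) := N86.SQ.rate_congr e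
  have h2 : rate k (∀ i, B i) ≤ rate K (∀ i, K ⊗[k] B i) :=
    rate_le_bc_pi hs B (fun i => K ⊗[k] B i) fun i => ⟨_, BC.tensor (B i)⟩
  let ε : (K ⊗[k] A) ≃ₐ[K] (∀ i, K ⊗[k] B i) :=
    (Algebra.TensorProduct.congr (AlgEquiv.refl : K ≃ₐ[K] K) e).trans
      (Algebra.TensorProduct.piRight k K K B)
  have hnt2 : Nontrivial (K ⊗[k] A) := nontrivial_baseChange k K A
  have hnt3 : Nontrivial (∀ i, K ⊗[k] B i) := ε.symm.toEquiv.nontrivial
  have hf : ∀ i, Module.Finite K (K ⊗[k] B i) := fun i => inferInstance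
  have h3 : rate K (K ⊗[k] A) = rate K (∀ i, K ⊗[k] B i) := N86.SQ.rate_congr ε
  rw [h1, h3]
  exact h2

theorem qOne_baseChange (A : Type) [CommRing A] [Algebra k A] [Module.Finite k A]
    [Nontrivial A] : QOne K (K ⊗[k] A) ↔ QOne k A := by
  have hnt : Nontrivial (K ⊗[k] A) := nontrivial_baseChange k K A
  rw [qOne_iff_rate, qOne_iff_rate, rate_baseChange, Module.finrank_baseChange]

end Pool.Agent.U627.ZC
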