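import Mathlib

/-!
# Fibres of finite free algebras over the `k`-points of the base
-/

set_option autoImplicit false
set_option linter.unusedSectionVars false

namespace Pool.Agent.U627.ZC

open scoped TensorProduct

variable {k : Type} [Field k]

/-- the coordinate ring of the fibre of `Spec 𝓔 → Spec R` over the `k`-point `φ` of `Spec R` -/
abbrev Fib {k : Type} [Field k] {R : Type} [CommRing R] [Algebra k R] (𝓔 : Type) [CommRing 𝓔]
    [Algebra R 𝓔] (φ : R →ₐ[k] k) : Type :=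
  𝓔 ⧸ (RingHom.ker φ).map (algebraMap R 𝓔)

section fib

variable {R : Type} [CommRing R] [Algebra k R] {𝓔 : Type} [CommRing 𝓔] [Algebra R 𝓔]
  [Algebra k 𝓔] [IsScalarTower k R 𝓔]

/-- the restriction of functions to the fibre -/
def pr (𝓔 : Type) [CommRing 𝓔] [Algebra R 𝓔] [Algebra k 𝓔] (φ : R →ₐ[k] k) : 𝓔 →ₐ[k] Fib 𝓔 φ :=
  Ideal.Quotient.mkₐ k _

theorem pr_surjective (φ : R →ₐ[k] k) : Function.Surjective (pr 𝓔 φ) :=
  Ideal.Quotient.mkₐ_surjective k _

theorem pr_algebraMap (φ : R →ₐ[k] k) (r : R) :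
    pr 𝓔 φ (algebraMap R 𝓔 r) = algebraMap k (Fib 𝓔 φ) (φ r) := by
  have h1 : r - algebraMap k R (φ r) ∈ RingHom.ker φ := by
    rw [RingHom.mem_ker, map_sub, AlgHom.commutes]
    exact sub_self _
  have h2 := Ideal.mem_map_of_mem (algebraMap R 𝓔) h1
  have h3 : pr 𝓔 φ (algebraMap R 𝓔 (r - algebraMap k R (φ r))) = 0 :=
    Ideal.Quotient.eq_zero_iff_mem.2 h2
  rw [map_sub, map_sub, sub_eq_zero, ← IsScalarTower.algebraMap_apply, AlgHom.commutes] at h3
  exact h3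

theorem pr_smul (φ : R →ₐ[k] k) (r : R) (x : 𝓔) : pr 𝓔 φ (r • x) = φ r • pr 𝓔 φ x := by
  rw [Algebra.smul_def, map_mul, pr_algebraMap, ← Algebra.smul_def]

variable {ι : Type} [Fintype ι] (c : Module.Basis ι R 𝓔)

theorem repr_of_mem (φ : R →ₐ[k] k) {x : 𝓔}
    (hx : x ∈ (RingHom.ker φ).map (algebraMap R 𝓔)) (m : ι) : φ (c.repr x m) = 0 := by
  unfold Ideal.map at hx
  induction hx using Submodule.span_induction generalizing m with
  | mem x hx =>
    obtain ⟨r, hr, rfl⟩ := hx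
    have h1 : c.repr (algebraMap R 𝓔 r) m = r * c.repr 1 m := by
      rw [Algebra.algebraMap_eq_smul_one, map_smul, Finsupp.smul_apply, smul_eq_mul]
    rw [h1, map_mul, (show φ r = 0 from hr), zero_mul]
  | zero => simp
  | add x y _ _ hx hy => rw [map_add, Finsupp.add_apply, map_add, hx, hy, add_zero]
  | smul a x _ hx =>
    have h1 : c.repr (a • x) m = ∑ i, c.repr x i * c.repr (a * c i) m := by
      conv_lhs => rw [← c.sum_repr x, smul_eq_mul, Finset.mul_sum]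
      rw [map_sum, Finsupp.finsetSum_apply]
      refine Finset.sum_congr rfl fun i _ => ?_
      rw [mul_smul_comm, map_smul, Finsupp.smul_apply, smul_eq_mul]
    rw [h1, map_sum]
    refine Finset.sum_eq_zero fun i _ => ?_
    rw [map_mul, hx, zero_mul]

theorem exists_fib_basis (φ : R →ₐ[k] k) : ∃ b : Module.Basis ι k (Fib 𝓔 φ),
    (∀ m, b m = pr 𝓔 φ (c m)) ∧ ∀ x m, b.repr (pr 𝓔 φ x) m = φ (c.repr x m) := by
  have hli : LinearIndependent k fun m => pr 𝓔 φ (c m) := by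
    rw [Fintype.linearIndependent_iff]
    intro g hg m
    have h1 : pr 𝓔 φ (∑ m, (algebraMap k R (g m)) • c m) = 0 := by
      rw [map_sum, ← hg]
      refine Finset.sum_congr rfl fun m _ => ?_
      rw [pr_smul, AlgHom.commutes]
      rfl
    have h2 := repr_of_mem c φ (Ideal.Quotient.eq_zero_iff_mem.1 h1) m
    rw [c.repr_sum_self, AlgHom.commutes] at h2
    exact h2
  have hsp : ⊤ ≤ Submodule.span k (Set.range fun m => pr 𝓔 φ (c m)) := by
    rintro y -
    obtain ⟨x, rfl⟩ := pr_surjective φ y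
    rw [← c.sum_repr x, map_sum]
    refine Submodule.sum_mem _ fun i _ => ?_
    rw [pr_smul]
    exact Submodule.smul_mem _ _ (Submodule.subset_span ⟨i, rfl⟩)
  refine ⟨Module.Basis.mk hli hsp, fun m => Module.Basis.mk_apply hli hsp m, fun x m => ?_⟩
  have h1 : pr 𝓔 φ x = ∑ i, φ (c.repr x i) • (Module.Basis.mk hli hsp) i := by
    conv_lhs => rw [← c.sum_repr x, map_sum]
    refine Finset.sum_congr rfl fun i _ => ?_
    rw [pr_smul, Module.Basis.mk_apply]
  rw [h1, Module.Basis.repr_sum_self]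

end fib

section bc

variable {R : Type} [CommRing R] [Algebra k R] {𝓔 : Type} [CommRing 𝓔] [Algebra R 𝓔]
  [Algebra k 𝓔] [IsScalarTower k R 𝓔] {P : Type} [CommRing P] [Algebra R P] [Algebra k P]
  [IsScalarTower k R P] {ι : Type} [Fintype ι] (c : Module.Basis ι R 𝓔)

include c in
theorem exists_fib_equiv (φ : R →ₐ[k] k) (ψ : P →ₐ[k] k)
    (h : ∀ r, ψ (algebraMap R P r) = φ r) :
    ∃ e : Fib 𝓔 φ ≃ₐ[k] Fib (P ⊗[R] 𝓔) ψ, ∀ x, e (pr 𝓔 φ x) = pr (P ⊗[R] 𝓔) ψ (1 ⊗ₜ x) := by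
  classical
  let ρ : 𝓔 →ₐ[k] Fib (P ⊗[R] 𝓔) ψ := (pr (P ⊗[R] 𝓔) ψ).comp
    ((Algebra.TensorProduct.includeRight : 𝓔 →ₐ[R] P ⊗[R] 𝓔).restrictScalars k)
  have hρ : ∀ x, ρ x = pr (P ⊗[R] 𝓔) ψ (1 ⊗ₜ x) := fun x => rfl
  have hρR : ∀ r : R, ρ (algebraMap R 𝓔 r) = algebraMap k _ (φ r) := by
    intro r
    rw [hρ, Algebra.algebraMap_eq_smul_one, TensorProduct.tmul_smul,
      ← Algebra.TensorProduct.one_def]
    have h1 : (r • (1 : P ⊗[R] 𝓔)) = (algebraMap R P r) • (1 : P ⊗[R] 𝓔) := by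
      rw [Algebra.TensorProduct.one_def, TensorProduct.smul_tmul', TensorProduct.smul_tmul',
        smul_eq_mul, mul_one, Algebra.algebraMap_eq_smul_one]
    rw [h1, pr_smul, map_one, h, Algebra.algebraMap_eq_smul_one]
  have hker : ∀ x ∈ (RingHom.ker φ).map (algebraMap R 𝓔), ρ x = 0 := by
    intro x hx
    have h1 : (RingHom.ker φ).map (algebraMap R 𝓔) ≤ RingHom.ker ρ := by
      rw [Ideal.map_le_iff_le_comap]
      intro r hr
      rw [Ideal.mem_comap, RingHom.mem_ker, hρR, (show φ r = 0 from hr), map_zero]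
    exact h1 hx
  let ρ' : Fib 𝓔 φ →ₐ[k] Fib (P ⊗[R] 𝓔) ψ := Ideal.Quotient.liftₐ _ ρ hker
  have hρ' : ∀ x, ρ' (pr 𝓔 φ x) = ρ x := fun x => rfl
  obtain ⟨b, hb, -⟩ := exists_fib_basis c φ
  obtain ⟨b', hb', -⟩ := exists_fib_basis (Algebra.TensorProduct.basis P c) ψ
  have hbb : ∀ m, ρ' (b m) = b' m := by
    intro m
    rw [hb, hb', hρ', hρ, Algebra.TensorProduct.basis_apply]
  let e : Fib 𝓔 φ ≃ₗ[k] Fib (P ⊗[R] 𝓔) ψ := b.equiv b' (Equiv.refl ι)
  have he : ρ'.toLinearMap = e.toLinearMap := by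
    refine b.ext fun m => ?_
    rw [AlgHom.toLinearMap_apply, hbb]
    exact (b.equiv_apply m b' (Equiv.refl ι)).symm
  have h1 : ⇑ρ' = ⇑e := by
    funext x
    exact LinearMap.congr_fun he x
  have h2 : Function.Bijective ρ' := by
    rw [h1]
    exact e.bijective
  exact ⟨AlgEquiv.ofBijective ρ' h2, fun x => rfl⟩

end bc

end Pool.Agent.U627.ZC
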