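import Mathlib

/-!
# Automorphisms of algebraically closed fields
-/

set_option autoImplicit false
set_option linter.unusedSectionVars false

namespace Pool.Agent.U627.ZC

open MvPolynomial

/-- a shift of one variable -/
theorem exists_shift {k S : Type} [Field k] [CommRing S] [Algebra k S] {t : Type}
    (φ : MvPolynomial t k ≃ₐ[k] S) (b₀ : t) : ∃ ε : S ≃ₐ[k] S, ε (φ (X b₀)) = φ (X b₀) + 1 := by
  classical
  let α : MvPolynomial t k →ₐ[k] MvPolynomial t k :=
    aeval fun b => X b + C (if b = b₀ then 1 else 0)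
  let α' : MvPolynomial t k →ₐ[k] MvPolynomial t k :=
    aeval fun b => X b - C (if b = b₀ then 1 else 0)
  have hα : ∀ b, α (X b) = X b + C (if b = b₀ then 1 else 0) := fun b => aeval_X _ _
  have hα' : ∀ b, α' (X b) = X b - C (if b = b₀ then 1 else 0) := fun b => aeval_X _ _
  have hαC : ∀ c, α (C c) = C c := fun c => α.commutes c
  have hαC' : ∀ c, α' (C c) = C c := fun c => α'.commutes c
  let αe : MvPolynomial t k ≃ₐ[k] MvPolynomial t k := AlgEquiv.ofAlgHom α α'
    (algHom_ext fun b => by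
      rw [AlgHom.comp_apply, AlgHom.id_apply, hα', map_sub, hα, hαC, add_sub_cancel_right])
    (algHom_ext fun b => by
      rw [AlgHom.comp_apply, AlgHom.id_apply, hα, map_add, hα', hαC', sub_add_cancel])
  have hαe : ∀ y, αe y = α y := fun y => rfl
  refine ⟨(φ.symm.trans αe).trans φ, ?_⟩
  rw [AlgEquiv.trans_apply, AlgEquiv.trans_apply, φ.symm_apply_apply, hαe, hα, if_pos rfl, C_1,
    map_add, map_one]

theorem transcendental_of {k K : Type} [Field k] [IsAlgClosed k] [Field K] [Algebra k K] (x : K)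
    (hx : x ∉ Set.range (algebraMap k K)) : Transcendental k x := by
  intro halg
  have hint : IsIntegral k x := halg.isIntegral
  have hfin : Module.Finite k (Algebra.adjoin k {x}) :=
    Module.Finite.iff_fg.2 hint.fg_adjoin_singleton
  have h2 : Algebra.IsIntegral k (Algebra.adjoin k {x}) := Algebra.IsIntegral.of_finite k _
  have h3 : Function.Bijective (algebraMap k (Algebra.adjoin k {x})) :=
    IsAlgClosed.algebraMap_bijective_of_isIntegral
  obtain ⟨c, hc⟩ := h3.2 ⟨x, Algebra.subset_adjoin rfl⟩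
  exact hx ⟨c, congrArg Subtype.val hc⟩

theorem exists_ext {k K : Type} [Field k] [Field K] [IsAlgClosed K] [Algebra k K]
    (S : Subalgebra k K) [IsAlgClosure S K] (ε : S ≃ₐ[k] S) :
    ∃ σ : K ≃ₐ[k] K, ∀ y : S, σ (y : K) = (ε y : K) := by
  let σ : K ≃+* K := IsAlgClosure.equivOfEquiv K K ε.toRingEquiv
  have hσ : ∀ y : S, σ (y : K) = (ε y : K) := fun y =>
    IsAlgClosure.equivOfEquiv_algebraMap K K ε.toRingEquiv y
  have hσk : ∀ c : k, σ (algebraMap k K c) = algebraMap k K c := by
    intro c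
    have h1 := hσ (algebraMap k S c)
    rw [ε.commutes] at h1
    exact h1
  exact ⟨AlgEquiv.ofRingEquiv (f := σ) hσk, hσ⟩

/-- the automorphisms of `K` over `k` fix only the elements of `k` -/
theorem exists_moving {k K : Type} [Field k] [IsAlgClosed k] [Field K] [IsAlgClosed K]
    [Algebra k K] (x : K) (hx : x ∉ Set.range (algebraMap k K)) :
    ∃ σ : K ≃ₐ[k] K, σ x ≠ x := by
  have htr := transcendental_of x hx
  have hs : AlgebraicIndepOn k id ({x} : Set K) := by
    have h1 : AlgebraicIndependent k (fun y : ({x} : Set K) => (y : K)) := by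
      rw [algebraicIndependent_unique_type_iff]
      exact htr
    exact h1
  obtain ⟨t, hst, ht⟩ := exists_isTranscendenceBasis_superset hs
  have hxt : x ∈ t := hst rfl
  have hcl : IsAlgClosure (Algebra.adjoin k (Set.range (fun y : t => (y : K)))) K :=
    IsAlgClosed.isAlgClosure_of_transcendence_basis _ ht
  obtain ⟨ε, hε⟩ := exists_shift ht.1.aevalEquiv (⟨x, hxt⟩ : t)
  obtain ⟨σ, hσ⟩ := exists_ext _ ε
  have hxS : ((ht.1.aevalEquiv (X ⟨x, hxt⟩) :
      Algebra.adjoin k (Set.range (fun y : t => (y : K)))) : K) = x := by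
    have h1 := ht.1.algebraMap_aevalEquiv (X ⟨x, hxt⟩)
    rw [aeval_X] at h1
    exact h1
  refine ⟨σ, ?_⟩
  have h3 := hσ (ht.1.aevalEquiv (X ⟨x, hxt⟩))
  rw [hε, hxS] at h3
  have h4 : σ x = x + 1 := by
    rw [h3, Subalgebra.coe_add, hxS]
    rfl
  rw [h4]
  intro h5
  exact one_ne_zero (left_eq_add.1 h5.symm)

end Pool.Agent.U627.ZC
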