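import Pool.Agent.U627.ZC.Char
import Pool.Agent.U627.ZC.Mov

/-!
# The growth rate of the generic fibre
-/

set_option autoImplicit false
set_option linter.unusedSectionVars false

namespace Pool.Agent.U627.ZC

open scoped TensorProduct
open Pool.Agent.H826R3.SM Pool.Agent.TH671.DU Pool.Agent.N86.SQ Pool.Agent.U922.WO
open MvPolynomial

/-- descent of polynomials which vanish on the orbit of a point -/
theorem descent {k K : Type} [Field k] [IsAlgClosed k] [Field K] [IsAlgClosed K] [Algebra k K]
    {τ : Type} (p : τ → K) (p₀ : τ → k)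
    (h : ∀ F : MvPolynomial τ k, aeval p F = 0 → eval p₀ F = 0) :
    ∀ (n : ℕ) (Q : MvPolynomial τ K), Q.support.card ≤ n →
      (∀ σ : K ≃ₐ[k] K, eval (fun v => σ (p v)) Q = 0) →
      eval (fun v => algebraMap k K (p₀ v)) Q = 0 := by
  classical
  intro n
  induction n with
  | zero =>
    intro Q hn _
    have h1 : Q.support = ∅ := Finset.card_eq_zero.1 (by omega)
    rw [support_eq_empty.1 h1, map_zero]
  | succ n ih =>
    intro Q hn hQ
    by_cases hQ0 : Q = 0
    · rw [hQ0, map_zero]
    obtain ⟨s, hs⟩ := (Finset.nonempty_iff_ne_empty.2 fun h1 => hQ0 (support_eq_empty.1 h1) :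
      Q.support.Nonempty)
    have ha : coeff s Q ≠ 0 := mem_support_iff.1 hs
    obtain ⟨Q', hQ'⟩ : ∃ Q' : MvPolynomial τ K, Q' = C (coeff s Q)⁻¹ * Q := ⟨_, rfl⟩
    have hco : ∀ r, coeff r Q' = (coeff s Q)⁻¹ * coeff r Q := fun r => by
      rw [hQ', coeff_C_mul]
    have hcos : coeff s Q' = 1 := by rw [hco, inv_mul_cancel₀ ha]
    have hQ'0 : ∀ σ : K ≃ₐ[k] K, eval (fun v => σ (p v)) Q' = 0 := fun σ => by
      rw [hQ', map_mul, hQ σ, mul_zero]
    have hback : Q = C (coeff s Q) * Q' := by
      rw [hQ', ← mul_assoc, ← C_mul, mul_inv_cancel₀ ha, C_1, one_mul]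
    suffices hsuff : eval (fun v => algebraMap k K (p₀ v)) Q' = 0 by
      rw [hback, map_mul, hsuff, mul_zero]
    -- polynomials with a smaller support
    have hsmall : ∀ (r : τ →₀ ℕ) (D : MvPolynomial τ K), coeff r Q ≠ 0 → coeff r D = 0 →
        (∀ q, coeff q Q = 0 → coeff q D = 0) →
        (∀ σ : K ≃ₐ[k] K, eval (fun v => σ (p v)) D = 0) →
        eval (fun v => algebraMap k K (p₀ v)) D = 0 := by
      intro r D hr hD0 hDs hD
      refine ih D ?_ hD
      have h1 : D.support ⊆ Q.support.erase r := by
        intro q hq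
        rw [Finset.mem_erase, mem_support_iff]
        rw [mem_support_iff] at hq
        exact ⟨fun h2 => hq (by rw [h2]; exact hD0), fun h2 => hq (hDs q h2)⟩
      have h2 := Finset.card_le_card h1
      rw [Finset.card_erase_of_mem (mem_support_iff.2 hr)] at h2
      omega
    by_cases hall : ∀ r, coeff r Q' ∈ Set.range (algebraMap k K)
    · choose f hf using hall
      let F : MvPolynomial τ k := ∑ r ∈ Q'.support, monomial r (f r)
      have hF : map (algebraMap k K) F = Q' := by
        rw [map_sum]
        conv_rhs => rw [Q'.as_sum]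
        refine Finset.sum_congr rfl fun r _ => ?_
        rw [map_monomial, hf]
      have h2 : aeval p F = 0 := by
        have h3 := hQ'0 AlgEquiv.refl
        rw [← hF, eval_map] at h3
        rw [aeval_def]
        exact h3
      have h3 := h F h2
      rw [← hF, eval_map]
      have h4 := eval₂_comp_left (algebraMap k K) (RingHom.id k) p₀ F
      have h5 : eval₂ (RingHom.id k) p₀ F = 0 := h3
      rw [h5, map_zero, RingHom.comp_id] at h4
      exact h4.symm
    · push Not at hall
      obtain ⟨s', hs'⟩ := hall
      obtain ⟨σ, hσ⟩ := exists_moving (k := k) (coeff s' Q') hs'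
      let σr : K →+* K := (σ : K →+* K)
      obtain ⟨D, hD⟩ : ∃ D : MvPolynomial τ K, D = Q' - map σr Q' := ⟨_, rfl⟩
      have hDc : ∀ r, coeff r D = coeff r Q' - σ (coeff r Q') := fun r => by
        rw [hD, coeff_sub, coeff_map]
        rfl
      have hD0 : ∀ ρ : K ≃ₐ[k] K, eval (fun v => ρ (p v)) D = 0 := by
        intro ρ
        rw [hD, map_sub, hQ'0, zero_sub, neg_eq_zero, eval_map]
        have h1 := hQ'0 (ρ.trans σ.symm)
        have h2 := eval₂_comp_left σr (RingHom.id K) (fun v => (ρ.trans σ.symm) (p v)) Q'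
        have h3 : eval₂ (RingHom.id K) (fun v => (ρ.trans σ.symm) (p v)) Q' = 0 := h1
        rw [h3, map_zero, RingHom.comp_id] at h2
        have h4 : (σr ∘ fun v => (ρ.trans σ.symm) (p v)) = fun v => ρ (p v) := by
          funext v
          exact σ.apply_symm_apply (ρ (p v))
        rw [h4] at h2
        exact h2.symm
      have hQQ : ∀ q, coeff q Q = 0 → coeff q Q' = 0 := fun q hq => by rw [hco, hq, mul_zero]
      have hDsup : ∀ q, coeff q Q = 0 → coeff q D = 0 := fun q hq => by
        rw [hDc, hQQ q hq, map_zero, sub_zero]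
      have hDe : eval (fun v => algebraMap k K (p₀ v)) D = 0 :=
        hsmall s D ha (by rw [hDc, hcos, map_one, sub_self]) hDsup hD0
      have hs'Q : coeff s' Q ≠ 0 := by
        intro h1
        have h2 := hQQ s' h1
        apply hσ
        rw [h2, map_zero]
      have hδ : coeff s' D ≠ 0 := by
        rw [hDc]
        exact sub_ne_zero.2 (Ne.symm hσ)
      obtain ⟨Q'', hQ''⟩ : ∃ Q'' : MvPolynomial τ K,
        Q'' = Q' - C (coeff s' Q' / coeff s' D) * D := ⟨_, rfl⟩
      have h3 : eval (fun v => algebraMap k K (p₀ v)) Q'' = 0 := by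
        refine hsmall s' Q'' hs'Q ?_ (fun q hq => ?_) fun ρ => ?_
        · rw [hQ'', coeff_sub, coeff_C_mul, div_mul_cancel₀ _ hδ, sub_self]
        · rw [hQ'', coeff_sub, coeff_C_mul, hQQ q hq, hDsup q hq, mul_zero, sub_zero]
        · rw [hQ'', map_sub, map_mul, hQ'0, hD0, mul_zero, sub_zero]
      rw [hQ'', map_sub, map_mul, hDe, mul_zero, sub_zero] at h3
      exact h3

theorem par_tensor {k K : Type} [Field k] [Field K] [Algebra k K] {E : Type} [CommRing E]
    [Algebra k E] {d : ℕ} (c : Module.Basis (Fin d) k E) :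
    par (Algebra.TensorProduct.basis K c) = fun v => algebraMap k K (par c v) := by
  funext v
  rcases v with ⟨i, j, m⟩ | m
  · change (Algebra.TensorProduct.basis K c).repr
      (Algebra.TensorProduct.basis K c i * Algebra.TensorProduct.basis K c j) m =
      algebraMap k K (c.repr (c i * c j) m)
    rw [Algebra.TensorProduct.basis_apply, Algebra.TensorProduct.basis_apply,
      Algebra.TensorProduct.tmul_mul_tmul, mul_one, Algebra.TensorProduct.basis_repr_tmul,
      one_smul, Finsupp.mapRange_apply]
  · change (Algebra.TensorProduct.basis K c).repr 1 m = algebraMap k K (c.repr 1 m)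
    rw [Algebra.TensorProduct.one_def, Algebra.TensorProduct.basis_repr_tmul,
      one_smul, Finsupp.mapRange_apply]

/-- conjugate algebras -/
theorem exists_conj {K K' : Type} [Field K] [IsAlgClosed K] [Field K'] [IsAlgClosed K']
    (σ : K →+* K') {E : Type} [CommRing E] [Algebra K E] [Nontrivial E] {d : ℕ}
    (c : Module.Basis (Fin d) K E) :
    ∃ (E' : Type) (_ : CommRing E') (_ : Algebra K' E') (c' : Module.Basis (Fin d) K' E'),
      (∀ v, par c' v = σ (par c v)) ∧ rate K' E' = rate K E := by
  let _ : Algebra K K' := σ.toAlgebra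
  have hfin : Module.Finite K E := Module.Finite.of_basis c
  exact ⟨K' ⊗[K] E, inferInstance, inferInstance, Algebra.TensorProduct.basis K' c,
    fun v => congrFun (par_tensor (K := K') c) v, rate_baseChange (k := K) (K := K') E⟩

/-- **The growth rate does not increase from the generic point to a special point.** -/
theorem rate_le_generic {k K : Type} [Field k] [IsAlgClosed k] [Field K] [IsAlgClosed K]
    [Algebra k K] {A E : Type} [CommRing A] [Algebra k A] [Nontrivial A] [CommRing E]
    [Algebra K E] {d : ℕ} (c₀ : Module.Basis (Fin d) k A) (c : Module.Basis (Fin d) K E)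
    (h : ∀ F : MvPolynomial (PIdx d) k, aeval (par c) F = 0 → eval (par c₀) F = 0) :
    rate k A ≤ rate K E := by
  have hfin : Module.Finite k A := Module.Finite.of_basis c₀
  have hfinE : Module.Finite K E := Module.Finite.of_basis c
  have hd : 0 < d := by
    have h1 : Module.finrank k A = d := by
      rw [Module.finrank_eq_card_basis c₀, Fintype.card_fin]
    rw [← h1]
    exact Module.finrank_pos
  have hntE : Nontrivial E := Module.nontrivial_of_finrank_pos (R := K) (by
    rw [Module.finrank_eq_card_basis c, Fintype.card_fin]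
    exact hd)
  have hntKA : Nontrivial (K ⊗[k] A) := nontrivial_baseChange k K A
  choose E' iE1 iE2 c' hc' hr' using fun σ : K ≃ₐ[k] K => exists_conj (σ : K →+* K) c
  rw [← rate_baseChange (k := k) (K := K) A]
  refine closure_par' (E := E') (Algebra.TensorProduct.basis K c₀) c' (fun Q hQ => ?_)
    fun σ => (hr' σ).le
  rw [par_tensor]
  refine descent (par c) (par c₀) h Q.support.card Q le_rfl fun σ => ?_
  have h1 := hQ σ
  have h2 : par (c' σ) = fun v => σ (par c v) := funext fun v => hc' σ v
  rw [h2] at h1
  exact h1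

end Pool.Agent.U627.ZC
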