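import Pool.Agent.U627.ZC.Coord
import Pool.Agent.U627.ZC.Clo

/-!
# The closure theorem for arbitrary sets of algebras with bases
-/

set_option autoImplicit false
set_option linter.unusedSectionVars false

namespace Pool.Agent.U627.ZC

open scoped TensorProduct
open Pool.Agent.H826R3.SM Pool.Agent.TH671.DU Pool.Agent.N86.SQ Pool.Agent.U922.WO
open MvPolynomial

variable {k : Type} [Field k] [IsAlgClosed k]

section prod

variable {d : ℕ} {Y : Type} {E : Y → Type} [∀ y, CommRing (E y)] [∀ y, Algebra k (E y)]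

/-- the basis of the product of the algebras over the ring of all functions -/
theorem exists_prod_basis (c : ∀ y, Module.Basis (Fin d) k (E y)) :
    ∃ C : Module.Basis (Fin d) (∀ _ : Y, k) (∀ y, E y),
      (∀ (a : ∀ y, E y) m y, C.repr a m y = (c y).repr (a y) m) ∧ ∀ m y, C m y = c y m := by
  classical
  let e : (∀ y, E y) ≃ₗ[(∀ _ : Y, k)] (Fin d → (∀ _ : Y, k)) :=
    { toFun := fun a m y => (c y).repr (a y) m
      map_add' := fun a a' => by
        funext m y
        change (c y).repr (a y + a' y) m = _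
        rw [map_add, Finsupp.add_apply]
        rfl
      map_smul' := fun l a => by
        funext m y
        change (c y).repr (l y • a y) m = l y * (c y).repr (a y) m
        rw [map_smul, Finsupp.smul_apply, smul_eq_mul]
      invFun := fun g y => ∑ m, g m y • c y m
      left_inv := fun a => funext fun y => (c y).sum_repr (a y)
      right_inv := fun g => by
        funext m y
        change (c y).repr (∑ m, g m y • c y m) m = g m y
        rw [(c y).repr_sum_self fun m => g m y] }
  let C : Module.Basis (Fin d) (∀ _ : Y, k) (∀ y, E y) := Module.Basis.ofEquivFun e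
  have hCr : ∀ (a : ∀ y, E y) m y, C.repr a m y = (c y).repr (a y) m := fun a m y => by
    rw [Module.Basis.ofEquivFun_repr_apply]
    rfl
  refine ⟨C, hCr, fun m y => ?_⟩
  apply (c y).repr.injective
  refine Finsupp.ext fun m' => ?_
  rw [← hCr, C.repr_self, (c y).repr_self]
  by_cases h : m' = m
  · subst h
    rw [Finsupp.single_eq_same, Finsupp.single_eq_same]
    rfl
  · rw [Finsupp.single_eq_of_ne h, Finsupp.single_eq_of_ne h]
    rfl

end prod

/-- **The growth rate at a point of the Zariski closure**, without a local hypothesis. -/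
theorem closure_par {d : ℕ} {Y : Type} {E : Y → Type} [∀ y, CommRing (E y)]
    [∀ y, Algebra k (E y)] (c : ∀ y, Module.Basis (Fin d) k (E y)) (y₀ : Y)
    (hnt₀ : Nontrivial (E y₀)) (Z : Set Y)
    (hcl : ∀ Q : MvPolynomial (PIdx d) k, (∀ y ∈ Z, eval (par (c y)) Q = 0) →
      eval (par (c y₀)) Q = 0)
    {x : ℝ} (hx : ∀ y ∈ Z, rate k (E y) ≤ x) : rate k (E y₀) ≤ x := by
  classical
  obtain ⟨C, hCr, hC⟩ := exists_prod_basis c
  let P : Subalgebra k (∀ _ : Y, k) :=
    Algebra.adjoin k (Set.range fun (v : PIdx d) (y : Y) => par (c y) v)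
  have hP : ∀ v : PIdx d, (fun y => par (c y) v : ∀ _ : Y, k) ∈ P := fun v =>
    Algebra.subset_adjoin ⟨v, rfl⟩
  have h1 : ∀ m, C.repr 1 m ∈ P := fun m => by
    have h2 : C.repr 1 m = fun y => par (c y) (Sum.inr m) := funext fun y => hCr 1 m y
    rw [h2]
    exact hP _
  have h2 : ∀ i j m, C.repr (C i * C j) m ∈ P := fun i j m => by
    have h3 : C.repr (C i * C j) m = fun y => par (c y) (Sum.inl (i, j, m)) := by
      funext y
      rw [hCr]
      change (c y).repr (C i y * C j y) m = (c y).repr (c y i * c y j) m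
      rw [hC, hC]
    rw [h3]
    exact hP _
  obtain ⟨b, hb, -⟩ := exists_coord_basis P C h1 h2
  let _ : Algebra k (coordSub P C h1 h2) :=
    ((algebraMap P (coordSub P C h1 h2)).comp (algebraMap k P)).toAlgebra
  have _ : IsScalarTower k P (coordSub P C h1 h2) := IsScalarTower.of_algebraMap_eq fun _ => rfl
  have _ : Module.Finite P (coordSub P C h1 h2) := Module.Finite.of_basis b
  have _ : Module.Free P (coordSub P C h1 h2) := Module.Free.of_basis b
  -- the points
  let φ : Y → (P →ₐ[k] k) := fun y => (Pi.evalAlgHom k (fun _ : Y => k) y).comp P.val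
  have hφ : ∀ y (p : P), φ y p = (p : ∀ _ : Y, k) y := fun y p => rfl
  have hid : ∀ y, ∃ e : Fib (coordSub P C h1 h2) (φ y) ≃ₐ[k] E y, ∀ x, e (pr _ (φ y) x) =
      (x : ∀ y, E y) y := by
    intro y
    let v : coordSub P C h1 h2 →+* (∀ y, E y) := (coordSub P C h1 h2).val.toRingHom
    let fy : coordSub P C h1 h2 →+* E y := (Pi.evalRingHom E y).comp v
    have hf1 : ∀ m, fy (b m) = c y m := fun m => by
      change (b m : ∀ y, E y) y = c y m
      rw [hb, hC]
    have hf2 : ∀ p : P, fy (algebraMap P (coordSub P C h1 h2) p) =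
      algebraMap k (E y) (φ y p) := fun p => rfl
    exact exists_ident (𝓕 := coordSub P C h1 h2) b (φ y) (c y) fy hf1 hf2
  have hfin : ∀ y, Module.Finite k (E y) := fun y => Module.Finite.of_basis (c y)
  have hd : 0 < d := by
    have h3 : Module.finrank k (E y₀) = d := by
      rw [Module.finrank_eq_card_basis (c y₀), Fintype.card_fin]
    rw [← h3]
    exact Module.finrank_pos
  have hnt : ∀ y, Nontrivial (E y) := fun y => Module.nontrivial_of_finrank_pos (R := k) (by
    rw [Module.finrank_eq_card_basis (c y), Fintype.card_fin]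
    exact hd)
  have hrate : ∀ y, rate k (Fib (coordSub P C h1 h2) (φ y)) = rate k (E y) := by
    intro y
    obtain ⟨e, -⟩ := hid y
    have h3 : Nontrivial (Fib (coordSub P C h1 h2) (φ y)) := e.toEquiv.nontrivial
    have h4 : Module.Finite k (Fib (coordSub P C h1 h2) (φ y)) :=
      Module.Finite.equiv e.symm.toLinearEquiv
    exact N86.SQ.rate_congr e
  rw [← hrate y₀]
  refine closure_fib (𝓔 := coordSub P C h1 h2) {ψ | ∃ y ∈ Z, ψ = φ y} (φ y₀) (fun p hp => ?_) ?_
    ?_
  · obtain ⟨p, hpP⟩ := p
    change p ∈ Algebra.adjoin k (Set.range fun (v : PIdx d) (y : Y) => par (c y) v) at hpP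
    rw [Algebra.adjoin_range_eq_range_aeval] at hpP
    obtain ⟨Q, hQ⟩ := hpP
    have hQy : ∀ y, p y = eval (par (c y)) Q := by
      intro y
      rw [← hQ]
      have h5 : (Pi.evalAlgHom k (fun _ : Y => k) y).comp
          (aeval fun (v : PIdx d) (y : Y) => par (c y) v) = aeval (par (c y)) := by
        refine MvPolynomial.algHom_ext fun v => ?_
        rw [AlgHom.comp_apply, aeval_X, aeval_X]
        rfl
      rw [← MvPolynomial.aeval_eq_eval]
      exact DFunLike.congr_fun h5 Q
    rw [hφ]
    change p y₀ = 0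
    rw [hQy]
    refine hcl Q fun y hy => ?_
    rw [← hQy]
    exact hp (φ y) ⟨y, hy, rfl⟩
  · obtain ⟨e, -⟩ := hid y₀
    exact e.toEquiv.nontrivial
  · rintro ψ ⟨y, hy, rfl⟩
    rw [hrate y]
    exact hx y hy

/-- a family with one more member -/
def OptE (E₀ : Type) {Y : Type} (E : Y → Type) : Option Y → Type
  | none => E₀
  | some y => E y

instance instOptRing {E₀ : Type} [CommRing E₀] {Y : Type} {E : Y → Type} [∀ y, CommRing (E y)] :
    ∀ o, CommRing (OptE E₀ E o)
  | none => (inferInstance : CommRing E₀)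
  | some y => (inferInstance : CommRing (E y))

instance instOptAlg {E₀ : Type} [CommRing E₀] [Algebra k E₀] {Y : Type} {E : Y → Type}
    [∀ y, CommRing (E y)] [∀ y, Algebra k (E y)] : ∀ o, Algebra k (OptE E₀ E o)
  | none => (inferInstance : Algebra k E₀)
  | some y => (inferInstance : Algebra k (E y))

/-- the same with a separate special algebra -/
theorem closure_par' {d : ℕ} {E₀ : Type} [CommRing E₀] [Algebra k E₀] [hnt : Nontrivial E₀]
    (c₀ : Module.Basis (Fin d) k E₀) {Y : Type} {E : Y → Type} [∀ y, CommRing (E y)]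
    [∀ y, Algebra k (E y)] (c : ∀ y, Module.Basis (Fin d) k (E y))
    (hcl : ∀ Q : MvPolynomial (PIdx d) k, (∀ y, eval (par (c y)) Q = 0) →
      eval (par c₀) Q = 0)
    {x : ℝ} (hx : ∀ y, rate k (E y) ≤ x) : rate k E₀ ≤ x := by
  let c' : ∀ o : Option Y, Module.Basis (Fin d) k (OptE E₀ E o) := fun o =>
    match o with
    | none => c₀
    | some y => c y
  refine closure_par (E := OptE E₀ E) c' none hnt {o | o ≠ none} (fun Q hQ => ?_) ?_
  · exact hcl Q fun y => hQ (some y) (by simp)
  · rintro (_ | y) hy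
    · exact absurd rfl hy
    · exact hx y

end Pool.Agent.U627.ZC
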