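import Pool.Agent.U627.ZC.Gen

/-!
# The growth rate is characterized by polynomials
-/

set_option autoImplicit false
set_option linter.unusedSectionVars false

namespace Pool.Agent.U627.ZC

open scoped TensorProduct
open Pool.Agent.H826R3.SM Pool.Agent.TH671.DU Pool.Agent.N86.SQ Pool.Agent.U922.WO
open MvPolynomial

/-- the polynomials which vanish at the structure constants of the algebras with growth rate at
most `x` -/
def rateIdeal (k : Type) [Field k] (d : ℕ) (x : ℝ) : Ideal (MvPolynomial (PIdx d) k) where
  carrier := {G | ∀ (E : Type) [CommRing E] [Algebra k E] (c : Module.Basis (Fin d) k E),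
    rate k E ≤ x → eval (par c) G = 0}
  add_mem' := fun {G G'} h h' E _ _ c hE => by rw [map_add, h E c hE, h' E c hE, add_zero]
  zero_mem' := fun E _ _ c _ => map_zero _
  smul_mem' := fun G G' h E _ _ c hE => by rw [smul_eq_mul, map_mul, h E c hE, mul_zero]

/-- models of an algebra over the subalgebra generated by its structure constants, and their
specializations -/
theorem exists_specializations (k K : Type) [Field k] [IsAlgClosed k] [Field K] [IsAlgClosed K]
    [Algebra k K] {A : Type} [CommRing A] [Algebra K A] {d : ℕ}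
    (c : Module.Basis (Fin d) K A) :
    ∃ (E : (Algebra.adjoin k (Set.range (par c)) →ₐ[k] k) → Type) (_ : ∀ φ, CommRing (E φ))
      (_ : ∀ φ, Algebra k (E φ)) (b : ∀ φ, Module.Basis (Fin d) k (E φ)),
      ∀ φ v, par (b φ) v = φ ⟨par c v, Algebra.subset_adjoin ⟨v, rfl⟩⟩ := by
  classical
  let R : Subalgebra k K := Algebra.adjoin k (Set.range (par c))
  have hR : ∀ v, par c v ∈ R := fun v => Algebra.subset_adjoin ⟨v, rfl⟩
  have h1 : ∀ m, c.repr 1 m ∈ R := fun m => hR (Sum.inr m)
  have h2 : ∀ i j m, c.repr (c i * c j) m ∈ R := fun i j m => hR (Sum.inl (i, j, m))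
  obtain ⟨b, hb, hbr⟩ := exists_coord_basis R c h1 h2
  let _ : Algebra k (coordSub R c h1 h2) :=
    ((algebraMap R (coordSub R c h1 h2)).comp (algebraMap k R)).toAlgebra
  have _ : IsScalarTower k R (coordSub R c h1 h2) := IsScalarTower.of_algebraMap_eq fun _ => rfl
  choose bφ hbφ hbφr using fun φ : R →ₐ[k] k => exists_fib_basis b φ
  refine ⟨fun φ => Fib (coordSub R c h1 h2) φ, fun φ => inferInstance, fun φ => inferInstance,
    bφ, ?_⟩
  rintro φ (⟨i, j, m⟩ | m)
  · change (bφ φ).repr (bφ φ i * bφ φ j) m = _
    rw [hbφ, hbφ, ← map_mul, hbφr]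
    congr 1
    refine Subtype.ext ?_
    rw [hbr]
    change c.repr ((b i : A) * (b j : A)) m = c.repr (c i * c j) m
    rw [hb, hb]
  · change (bφ φ).repr 1 m = _
    rw [← map_one (pr (coordSub R c h1 h2) φ), hbφr]
    congr 1
    refine Subtype.ext ?_
    rw [hbr]
    rfl

/-- **The growth rate is characterized by polynomials.** -/
theorem rate_le_iff (k K : Type) [Field k] [IsAlgClosed k] [Field K] [IsAlgClosed K]
    [Algebra k K] {A : Type} [CommRing A] [Algebra K A] [Nontrivial A] {d : ℕ}
    (c : Module.Basis (Fin d) K A) (x : ℝ) :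
    rate K A ≤ x ↔ ∀ G ∈ rateIdeal k d x, aeval (par c) G = 0 := by
  classical
  obtain ⟨E, iE1, iE2, b, hb⟩ := exists_specializations k K c
  let R : Subalgebra k K := Algebra.adjoin k (Set.range (par c))
  have hR : ∀ v, par c v ∈ R := fun v => Algebra.subset_adjoin ⟨v, rfl⟩
  have hfinA : Module.Finite K A := Module.Finite.of_basis c
  have hd : 0 < d := by
    have h1 : Module.finrank K A = d := by
      rw [Module.finrank_eq_card_basis c, Fintype.card_fin]
    rw [← h1]
    exact Module.finrank_pos
  have hntE : ∀ φ, Nontrivial (E φ) := fun φ => by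
    have : Module.Finite k (E φ) := Module.Finite.of_basis (b φ)
    exact Module.nontrivial_of_finrank_pos (R := k) (by
      rw [Module.finrank_eq_card_basis (b φ), Fintype.card_fin]
      exact hd)
  have hft : Algebra.FiniteType k R :=
    (Subalgebra.fg_iff_finiteType R).1
      ⟨(Set.finite_range _).toFinset, by rw [Set.Finite.coe_toFinset]⟩
  let ν : PIdx d → R := fun v => ⟨par c v, hR v⟩
  have hval : ∀ G : MvPolynomial (PIdx d) k, ((aeval ν G : R) : K) = aeval (par c) G := by
    intro G
    have h2 : R.val (aeval ν G) = aeval (fun v => R.val (ν v)) G := by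
      rw [MvPolynomial.comp_aeval_apply]
    exact h2
  have hφ : ∀ (φ : R →ₐ[k] k) (G : MvPolynomial (PIdx d) k),
      φ (aeval ν G) = eval (par (b φ)) G := by
    intro φ G
    have h1 : φ (aeval ν G) = aeval (fun v => φ (ν v)) G := by
      rw [MvPolynomial.comp_aeval_apply]
    have h2 : (fun v => φ (ν v)) = par (b φ) := funext fun v => (hb φ v).symm
    rw [h1, h2, MvPolynomial.aeval_eq_eval]
  constructor
  · intro hx G hG
    rw [← hval]
    have h1 : aeval ν G = 0 := by
      refine eq_zero_of_points (k := k) fun φ => ?_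
      rw [hφ]
      have hntφ := hntE φ
      refine hG (E φ) (b φ) ((rate_le_generic (b φ) c fun F hF => ?_).trans hx)
      rw [← hφ]
      have h2 : aeval ν F = 0 := Subtype.ext (by rw [hval, hF]; rfl)
      rw [h2, map_zero]
    rw [h1]
    rfl
  · intro hG
    refine closure_par' (E := fun φ => K ⊗[k] E φ) c
      (fun φ => Algebra.TensorProduct.basis K (b φ)) (fun Q hQ => ?_) fun φ => ?_
    · refine eval_eq_zero (k := k) (par c) hR Q fun φ => ?_
      rw [← hQ φ]
      congr 1
      have h3 := par_tensor (K := K) (b φ)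
      rw [h3]
      have h4 : (fun v => algebraMap k K (φ ⟨par c v, hR v⟩)) =
          fun v => algebraMap k K (par (b φ) v) := funext fun v => by rw [hb]
      rw [h4]
    · have hntφ := hntE φ
      have hfinφ : Module.Finite k (E φ) := Module.Finite.of_basis (b φ)
      refine (rate_baseChange_le k K (E φ)).trans ?_
      -- the closure theorem over `k`
      let Y : Type := {p : PIdx d → k // ∃ (B : Type) (_ : CommRing B) (_ : Algebra k B)
        (cB : Module.Basis (Fin d) k B), rate k B ≤ x ∧ par cB = p}
      choose B iB1 iB2 cB hB using fun y : Y => y.2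
      refine closure_par' (E := B) (b φ) cB (fun Q hQ => ?_) fun y => (hB y).1
      have h5 : Q ∈ rateIdeal k d x := by
        intro E' _ _ c' hE'
        have h6 := hQ ⟨par c', E', inferInstance, inferInstance, c', hE', rfl⟩
        rw [(hB _).2] at h6
        exact h6
      have h7 : aeval ν Q = 0 := Subtype.ext (by rw [hval, hG Q h5]; rfl)
      rw [← hφ, h7, map_zero]

/-- a finite set of polynomials is enough -/
theorem exists_finset (k : Type) [Field k] [IsAlgClosed k] (d : ℕ) (x : ℝ) :
    ∃ W : Finset (MvPolynomial (PIdx d) k), ∀ (K : Type) [Field K] [IsAlgClosed K] [Algebra k K]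
      (A : Type) [CommRing A] [Algebra K A] [Nontrivial A] (c : Module.Basis (Fin d) K A),
      rate K A ≤ x ↔ ∀ G ∈ W, aeval (par c) G = 0 := by
  obtain ⟨W, hW⟩ := (isNoetherianRing_iff_ideal_fg _).1
    (inferInstance : IsNoetherianRing (MvPolynomial (PIdx d) k)) (rateIdeal k d x)
  refine ⟨W, fun K _ _ _ A _ _ _ c => ?_⟩
  rw [rate_le_iff k K c x]
  constructor
  · intro h G hG
    refine h G ?_
    rw [← hW]
    exact Ideal.subset_span hG
  · intro h G hG
    rw [← hW] at hG
    have h1 : Ideal.span (W : Set (MvPolynomial (PIdx d) k)) ≤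
        RingHom.ker (aeval (par c) : MvPolynomial (PIdx d) k →ₐ[k] K) := by
      rw [Ideal.span_le]
      intro F hF
      exact h F hF
    exact h1 hG

end Pool.Agent.U627.ZC
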