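import Pool.Agent.U627.ZC.Poly

/-!
# The polynomials can be chosen over a perfect field
-/

set_option autoImplicit false
set_option linter.unusedSectionVars false

namespace Pool.Agent.U627.ZC

open scoped TensorProduct
open Pool.Agent.H826R3.SM Pool.Agent.TH671.DU Pool.Agent.N86.SQ Pool.Agent.U922.WO
open MvPolynomial

/-- Galois descent for spaces of polynomials -/
theorem descent' {F K : Type} [Field F] [Field K] [Algebra F K]
    (hmov : ∀ x : K, x ∉ Set.range (algebraMap F K) → ∃ σ : K ≃ₐ[F] K, σ x ≠ x)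
    {τ : Type} (V : Ideal (MvPolynomial τ K))
    (hV : ∀ (σ : K ≃ₐ[F] K) (Q : MvPolynomial τ K), Q ∈ V → map (σ : K →+* K) Q ∈ V)
    {M : Type} [CommRing M] (ev : MvPolynomial τ K →+* M)
    (h : ∀ G : MvPolynomial τ F, map (algebraMap F K) G ∈ V → ev (map (algebraMap F K) G) = 0) :
    ∀ (n : ℕ) (Q : MvPolynomial τ K), Q.support.card ≤ n → Q ∈ V → ev Q = 0 := by
  classical
  intro n
  induction n with
  | zero =>
    intro Q hn _
    have h1 : Q.support = ∅ := Finset.card_eq_zero.1 (by omega)
    rw [support_eq_empty.1 h1, map_zero]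
  | succ n ih =>
    intro Q hn hQ
    by_cases hQ0 : Q = 0
    · rw [hQ0, map_zero]
    obtain ⟨s, hs⟩ := (Finset.nonempty_iff_ne_empty.2 fun h1 => hQ0 (support_eq_empty.1 h1) :
      Q.support.Nonempty)
    have ha : coeff s Q ≠ 0 := mem_support_iff.1 hs
    obtain ⟨Q', hQ'⟩ : ∃ Q' : MvPolynomial τ K, Q' = C (coeff s Q)⁻¹ * Q := ⟨_, rfl⟩
    have hco : ∀ r, coeff r Q' = (coeff s Q)⁻¹ * coeff r Q := fun r => by
      rw [hQ', coeff_C_mul]
    have hcos : coeff s Q' = 1 := by rw [hco, inv_mul_cancel₀ ha]
    have hQ'V : Q' ∈ V := by rw [hQ']; exact V.mul_mem_left _ hQ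
    have hback : Q = C (coeff s Q) * Q' := by
      rw [hQ', ← mul_assoc, ← C_mul, mul_inv_cancel₀ ha, C_1, one_mul]
    suffices hsuff : ev Q' = 0 by
      rw [hback, map_mul, hsuff, mul_zero]
    have hsmall : ∀ (r : τ →₀ ℕ) (D : MvPolynomial τ K), coeff r Q ≠ 0 → coeff r D = 0 →
        (∀ q, coeff q Q = 0 → coeff q D = 0) → D ∈ V → ev D = 0 := by
      intro r D hr hD0 hDs hD
      refine ih D ?_ hD
      have h1 : D.support ⊆ Q.support.erase r := by
        intro q hq
        rw [Finset.mem_erase, mem_support_iff]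
        rw [mem_support_iff] at hq
        exact ⟨fun h2 => hq (by rw [h2]; exact hD0), fun h2 => hq (hDs q h2)⟩
      have h2 := Finset.card_le_card h1
      rw [Finset.card_erase_of_mem (mem_support_iff.2 hr)] at h2
      omega
    by_cases hall : ∀ r, coeff r Q' ∈ Set.range (algebraMap F K)
    · choose f hf using hall
      let G : MvPolynomial τ F := ∑ r ∈ Q'.support, monomial r (f r)
      have hG : map (algebraMap F K) G = Q' := by
        rw [map_sum]
        conv_rhs => rw [Q'.as_sum]
        refine Finset.sum_congr rfl fun r _ => ?_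
        rw [map_monomial, hf]
      have h3 := h G (by rw [hG]; exact hQ'V)
      rw [hG] at h3
      exact h3
    · push Not at hall
      obtain ⟨s', hs'⟩ := hall
      obtain ⟨σ, hσ⟩ := hmov (coeff s' Q') hs'
      obtain ⟨D, hD⟩ : ∃ D : MvPolynomial τ K, D = Q' - map (σ : K →+* K) Q' := ⟨_, rfl⟩
      have hDc : ∀ r, coeff r D = coeff r Q' - σ (coeff r Q') := fun r => by
        rw [hD, coeff_sub, coeff_map]
        rfl
      have hDV : D ∈ V := by
        rw [hD]
        exact V.sub_mem hQ'V (hV σ Q' hQ'V)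
      have hQQ : ∀ q, coeff q Q = 0 → coeff q Q' = 0 := fun q hq => by rw [hco, hq, mul_zero]
      have hDsup : ∀ q, coeff q Q = 0 → coeff q D = 0 := fun q hq => by
        rw [hDc, hQQ q hq, map_zero, sub_zero]
      have hDe : ev D = 0 :=
        hsmall s D ha (by rw [hDc, hcos, map_one, sub_self]) hDsup hDV
      have hs'Q : coeff s' Q ≠ 0 := by
        intro h1
        have h2 := hQQ s' h1
        apply hσ
        rw [h2, map_zero]
      have hδ : coeff s' D ≠ 0 := by
        rw [hDc]
        exact sub_ne_zero.2 (Ne.symm hσ)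
      obtain ⟨Q'', hQ''⟩ : ∃ Q'' : MvPolynomial τ K,
        Q'' = Q' - C (coeff s' Q' / coeff s' D) * D := ⟨_, rfl⟩
      have h3 : ev Q'' = 0 := by
        refine hsmall s' Q'' hs'Q ?_ (fun q hq => ?_) ?_
        · rw [hQ'', coeff_sub, coeff_C_mul, div_mul_cancel₀ _ hδ, sub_self]
        · rw [hQ'', coeff_sub, coeff_C_mul, hQQ q hq, hDsup q hq, mul_zero, sub_zero]
        · rw [hQ'']
          exact V.sub_mem hQ'V (V.mul_mem_left _ hDV)
      rw [hQ'', map_sub, map_mul, hDe, mul_zero, sub_zero] at h3
      exact h3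

/-- the ideal of the growth rate is stable under automorphisms of the field -/
theorem map_mem_rateIdeal {k : Type} [Field k] [IsAlgClosed k] (σ : k ≃+* k) {d : ℕ}
    (hd : 0 < d) {x : ℝ} {G : MvPolynomial (PIdx d) k} (hG : G ∈ rateIdeal k d x) :
    map (σ : k →+* k) G ∈ rateIdeal k d x := by
  intro E _ _ c hE
  have hfin : Module.Finite k E := Module.Finite.of_basis c
  have hnt : Nontrivial E := Module.nontrivial_of_finrank_pos (R := k) (by
    rw [Module.finrank_eq_card_basis c, Fintype.card_fin]
    exact hd)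
  obtain ⟨E', _, _, c', hc', hr'⟩ := exists_conj (σ.symm : k →+* k) c
  have h1 := hG E' c' (by rw [hr']; exact hE)
  rw [eval_map]
  have h2 := eval₂_comp_left (σ : k →+* k) (RingHom.id k) (par c') G
  have h3 : eval₂ (RingHom.id k) (par c') G = 0 := h1
  rw [h3, map_zero, RingHom.comp_id] at h2
  have h4 : ((σ : k →+* k) ∘ par c') = par c := by
    funext v
    change σ (par c' v) = par c v
    rw [hc']
    exact σ.apply_symm_apply (par c v)
  rw [h4] at h2
  exact h2.symm

theorem exists_moving' (F : Type) [Field F] [PerfectField F] (x : AlgebraicClosure F)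
    (hx : x ∉ Set.range (algebraMap F (AlgebraicClosure F))) :
    ∃ σ : AlgebraicClosure F ≃ₐ[F] AlgebraicClosure F, σ x ≠ x := by
  by_contra hcon
  push Not at hcon
  have hgal : IsGalois F (AlgebraicClosure F) := inferInstance
  have h1 : x ∈ (⊥ : IntermediateField F (AlgebraicClosure F)) :=
    (InfiniteGalois.mem_bot_iff_fixed x).2 hcon
  exact hx (IntermediateField.mem_bot.1 h1)

/-- **The growth rate is characterized by finitely many polynomials over a perfect field.** -/
theorem exists_finset_perfect (F : Type) [Field F] [PerfectField F] (d : ℕ) (hd : 0 < d)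
    (x : ℝ) : ∃ W : Finset (MvPolynomial (PIdx d) F), ∀ (K : Type) [Field K] [IsAlgClosed K]
      [Algebra F K] (A : Type) [CommRing A] [Algebra K A] [Nontrivial A]
      (c : Module.Basis (Fin d) K A),
      rate K A ≤ x ↔ ∀ G ∈ W, aeval (par c) G = 0 := by
  let k := AlgebraicClosure F
  obtain ⟨W, hW⟩ := (isNoetherianRing_iff_ideal_fg _).1
    (inferInstance : IsNoetherianRing (MvPolynomial (PIdx d) F))
    ((rateIdeal k d x).comap (map (algebraMap F k)))
  refine ⟨W, fun K _ _ _ A _ _ _ c => ?_⟩
  let f : k →ₐ[F] K := IsAlgClosed.lift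
  let _ : Algebra k K := f.toRingHom.toAlgebra
  have _ : IsScalarTower F k K := IsScalarTower.of_algebraMap_eq fun t => (f.commutes t).symm
  rw [rate_le_iff k K c x]
  constructor
  · intro h G hG
    have h1 : G ∈ (rateIdeal k d x).comap (map (algebraMap F k)) := by
      rw [← hW]
      exact Ideal.subset_span hG
    have h2 := h _ (Ideal.mem_comap.1 h1)
    rw [aeval_map_algebraMap] at h2
    exact h2
  · intro h
    have h1 : (rateIdeal k d x).comap (map (algebraMap F k)) ≤
        RingHom.ker (aeval (par c) : MvPolynomial (PIdx d) F →ₐ[F] K) := by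
      rw [← hW, Ideal.span_le]
      intro G hG
      exact h G hG
    intro Q hQ
    refine descent' (exists_moving' F) (rateIdeal k d x)
      (fun σ Q hQ => map_mem_rateIdeal σ.toRingEquiv hd hQ)
      ((aeval (par c) : MvPolynomial (PIdx d) k →ₐ[k] K) : MvPolynomial (PIdx d) k →+* K)
      (fun G hG => ?_) Q.support.card Q le_rfl hQ
    have h2 : G ∈ RingHom.ker (aeval (par c) : MvPolynomial (PIdx d) F →ₐ[F] K) :=
      h1 (Ideal.mem_comap.2 hG)
    rw [RingHom.mem_ker] at h2
    change aeval (par c) (map (algebraMap F k) G) = 0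
    rw [aeval_map_algebraMap]
    exact h2

end Pool.Agent.U627.ZC
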