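import Pool.Agent.U627.ZC.Clo

/-!
# Families which are only locally free
-/

set_option autoImplicit false
set_option linter.unusedSectionVars false

namespace Pool.Agent.U627.ZC

open scoped TensorProduct
open Pool.Agent.H826R3.SM Pool.Agent.TH671.DU Pool.Agent.N86.SQ Pool.Agent.U922.WO

variable {k : Type} [Field k]

section bc

variable {R : Type} [CommRing R] [Algebra k R] {𝓔 : Type} [CommRing 𝓔] [Algebra R 𝓔]
  [Algebra k 𝓔] [IsScalarTower k R 𝓔] {P : Type} [CommRing P] [Algebra R P] [Algebra k P]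
  [IsScalarTower k R P]

theorem exists_fib_equiv' (φ : R →ₐ[k] k) (ψ : P →ₐ[k] k)
    (h : ∀ r, ψ (algebraMap R P r) = φ r) :
    Nonempty (Fib 𝓔 φ ≃ₐ[k] Fib (P ⊗[R] 𝓔) ψ) := by
  let ρ : 𝓔 →ₐ[k] Fib (P ⊗[R] 𝓔) ψ := (pr (P ⊗[R] 𝓔) ψ).comp
    ((Algebra.TensorProduct.includeRight : 𝓔 →ₐ[R] P ⊗[R] 𝓔).restrictScalars k)
  have hρ : ∀ x, ρ x = pr (P ⊗[R] 𝓔) ψ (1 ⊗ₜ x) := fun x => rfl
  have hρR : ∀ r : R, ρ (algebraMap R 𝓔 r) = algebraMap k _ (φ r) := by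
    intro r
    rw [hρ, Algebra.algebraMap_eq_smul_one, TensorProduct.tmul_smul,
      ← Algebra.TensorProduct.one_def]
    have h1 : (r • (1 : P ⊗[R] 𝓔)) = (algebraMap R P r) • (1 : P ⊗[R] 𝓔) := by
      rw [Algebra.TensorProduct.one_def, TensorProduct.smul_tmul', TensorProduct.smul_tmul',
        smul_eq_mul, mul_one, Algebra.algebraMap_eq_smul_one]
    rw [h1, pr_smul, map_one, h, Algebra.algebraMap_eq_smul_one]
  have hker : ∀ x ∈ (RingHom.ker φ).map (algebraMap R 𝓔), ρ x = 0 := by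
    intro x hx
    have h1 : (RingHom.ker φ).map (algebraMap R 𝓔) ≤ RingHom.ker ρ := by
      rw [Ideal.map_le_iff_le_comap]
      intro r hr
      rw [Ideal.mem_comap, RingHom.mem_ker, hρR, (show φ r = 0 from hr), map_zero]
    exact h1 hx
  let ρ' : Fib 𝓔 φ →ₐ[k] Fib (P ⊗[R] 𝓔) ψ := Ideal.Quotient.liftₐ _ ρ hker
  have hρ' : ∀ x, ρ' (pr 𝓔 φ x) = pr (P ⊗[R] 𝓔) ψ (1 ⊗ₜ x) := fun x => rfl
  -- the inverse
  let f : P →ₐ[R] Fib 𝓔 φ :=
    { (algebraMap k (Fib 𝓔 φ)).comp (ψ : P →+* k) with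
      commutes' := fun r => by
        change algebraMap k (Fib 𝓔 φ) (ψ (algebraMap R P r)) = algebraMap R (Fib 𝓔 φ) r
        rw [h, ← pr_algebraMap]
        rfl }
  let g : 𝓔 →ₐ[R] Fib 𝓔 φ := Ideal.Quotient.mkₐ R _
  let σ : P ⊗[R] 𝓔 →ₐ[R] Fib 𝓔 φ := Algebra.TensorProduct.lift f g fun _ _ => Commute.all _ _
  have hσ : ∀ p x, σ (p ⊗ₜ x) = algebraMap k (Fib 𝓔 φ) (ψ p) * pr 𝓔 φ x := fun p x =>
    Algebra.TensorProduct.lift_tmul _ _ _ _ _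
  have hσker : ∀ x ∈ (RingHom.ker ψ).map (algebraMap P (P ⊗[R] 𝓔)), σ x = 0 := by
    intro x hx
    have h1 : (RingHom.ker ψ).map (algebraMap P (P ⊗[R] 𝓔)) ≤ RingHom.ker σ := by
      rw [Ideal.map_le_iff_le_comap]
      intro r hr
      rw [Ideal.mem_comap, RingHom.mem_ker]
      change σ (r ⊗ₜ 1) = 0
      rw [hσ, (show ψ r = 0 from hr), map_zero, zero_mul]
    exact h1 hx
  let σ' : Fib (P ⊗[R] 𝓔) ψ →+* Fib 𝓔 φ := Ideal.Quotient.lift _ (σ : P ⊗[R] 𝓔 →+* _) hσker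
  have hσ' : ∀ x, σ' (pr (P ⊗[R] 𝓔) ψ x) = σ x := fun x => rfl
  refine ⟨AlgEquiv.ofBijective ρ' ⟨?_, ?_⟩⟩
  · refine Function.LeftInverse.injective (g := σ') fun y => ?_
    obtain ⟨x, rfl⟩ := pr_surjective (𝓔 := 𝓔) φ y
    rw [hρ', hσ', hσ, map_one, map_one, one_mul]
  · intro y
    obtain ⟨z, rfl⟩ := pr_surjective (𝓔 := P ⊗[R] 𝓔) ψ y
    induction z using TensorProduct.induction_on with
    | zero => exact ⟨0, by rw [map_zero, map_zero]⟩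
    | tmul p x =>
      refine ⟨ψ p • pr 𝓔 φ x, ?_⟩
      rw [map_smul, hρ', ← pr_smul, TensorProduct.smul_tmul', smul_eq_mul, mul_one]
    | add z z' hz hz' =>
      obtain ⟨y, hy⟩ := hz
      obtain ⟨y', hy'⟩ := hz'
      exact ⟨y + y', by rw [map_add, map_add, hy, hy']⟩

end bc

variable [IsAlgClosed k]

/-- a finite projective family is free over a principal open neighbourhood of each point -/
theorem exists_free {R : Type} [CommRing R] [Algebra k R] {𝓔 : Type} [CommRing 𝓔] [Algebra R 𝓔]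
    [Module.Finite R 𝓔] [Module.Projective R 𝓔] (φ₀ : R →ₐ[k] k) :
    ∃ f : R, φ₀ f ≠ 0 ∧ Module.Free (Localization (Submonoid.powers f))
      (Localization (Submonoid.powers f) ⊗[R] 𝓔) := by
  have hfp : Module.FinitePresentation R 𝓔 := Module.finitePresentation_of_projective R 𝓔
  have hpr : (RingHom.ker φ₀).IsPrime := RingHom.ker_isPrime φ₀
  let p₀ : PrimeSpectrum R := ⟨RingHom.ker φ₀, hpr⟩
  have hfree : p₀ ∈ Module.freeLocus R 𝓔 := by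
    rw [Module.freeLocus_eq_univ_iff.2 inferInstance]
    trivial
  have : Module.Free (Localization.AtPrime p₀.asIdeal)
    (LocalizedModule p₀.asIdeal.primeCompl 𝓔) := hfree
  obtain ⟨f, hf, hf', -⟩ := Module.FinitePresentation.exists_free_localizedModule_powers
    p₀.asIdeal.primeCompl (LocalizedModule.mkLinearMap p₀.asIdeal.primeCompl 𝓔)
    (Localization.AtPrime p₀.asIdeal)
  exact ⟨f, fun h => hf h,
    Module.Free.of_equiv (LocalizedModule.equivTensorProduct (Submonoid.powers f) 𝓔)⟩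

/-- lifting of points to a principal open set -/
theorem exists_lift_away {R : Type} [CommRing R] [Algebra k R] (f : R) (φ : R →ₐ[k] k)
    (hφ : φ f ≠ 0) : ∃ ψ : Localization (Submonoid.powers f) →ₐ[k] k,
      ∀ r, ψ (algebraMap R (Localization (Submonoid.powers f)) r) = φ r := by
  have hu : ∀ y : Submonoid.powers f, IsUnit (φ y) := by
    rintro ⟨y, n, rfl⟩
    change IsUnit (φ (f ^ n))
    rw [map_pow]
    exact (IsUnit.mk0 _ hφ).pow n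
  refine ⟨IsLocalization.liftAlgHom (M := Submonoid.powers f)
    (S := Localization (Submonoid.powers f)) (f := φ) hu, fun r => ?_⟩
  rw [IsLocalization.liftAlgHom_apply]
  exact IsLocalization.lift_eq _ r

/-- the degree of the fibres is locally constant -/
theorem exists_finrank_eq {R : Type} [CommRing R] [Algebra k R] {𝓔 : Type} [CommRing 𝓔]
    [Algebra R 𝓔] [Algebra k 𝓔] [IsScalarTower k R 𝓔] [Module.Finite R 𝓔] [Module.Projective R 𝓔]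
    (φ₀ : R →ₐ[k] k) : ∃ f : R, φ₀ f ≠ 0 ∧ ∀ φ : R →ₐ[k] k, φ f ≠ 0 →
      Module.finrank k (Fib 𝓔 φ) = Module.finrank k (Fib 𝓔 φ₀) := by
  obtain ⟨f, hf0, hfree⟩ := exists_free (𝓔 := 𝓔) φ₀
  let P : Type := Localization (Submonoid.powers f)
  have hfreeP : Module.Free P (P ⊗[R] 𝓔) := hfree
  let c := Module.Free.chooseBasis P (P ⊗[R] 𝓔)
  have h1 : ∀ φ : R →ₐ[k] k, φ f ≠ 0 → Module.finrank k (Fib 𝓔 φ) =
      Fintype.card (Module.Free.ChooseBasisIndex P (P ⊗[R] 𝓔)) := by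
    intro φ hφ
    obtain ⟨ψ, hψ⟩ := exists_lift_away f φ hφ
    obtain ⟨e⟩ := exists_fib_equiv' (𝓔 := 𝓔) φ ψ hψ
    obtain ⟨b, -, -⟩ := exists_fib_basis c ψ
    rw [e.toLinearEquiv.finrank_eq, Module.finrank_eq_card_basis b]
  exact ⟨f, hf0, fun φ hφ => (h1 φ hφ).trans (h1 φ₀ hf0).symm⟩

theorem finite_fib {R : Type} [CommRing R] [Algebra k R] {𝓔 : Type} [CommRing 𝓔]
    [Algebra R 𝓔] [Algebra k 𝓔] [IsScalarTower k R 𝓔] [Module.Finite R 𝓔] (φ : R →ₐ[k] k) :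
    Module.Finite k (Fib 𝓔 φ) := by
  classical
  obtain ⟨S, hS⟩ := (Module.Finite.fg_top : (⊤ : Submodule R 𝓔).FG)
  refine ⟨⟨S.image (pr 𝓔 φ), ?_⟩⟩
  rw [eq_top_iff]
  rintro y -
  obtain ⟨z, rfl⟩ := pr_surjective (𝓔 := 𝓔) φ y
  have hz : z ∈ Submodule.span R (S : Set 𝓔) := by rw [hS]; trivial
  induction hz using Submodule.span_induction with
  | mem z hz =>
    refine Submodule.subset_span ?_
    rw [Finset.coe_image]
    exact ⟨z, hz, rfl⟩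
  | zero => rw [map_zero]; exact Submodule.zero_mem _
  | add z z' _ _ h h' => rw [map_add]; exact Submodule.add_mem _ h h'
  | smul r z _ h => rw [pr_smul]; exact Submodule.smul_mem _ _ h

/-- the closure theorem for locally free families -/
theorem closure_proj {R : Type} [CommRing R] [Algebra k R] {𝓔 : Type} [CommRing 𝓔] [Algebra R 𝓔]
    [Algebra k 𝓔] [IsScalarTower k R 𝓔] [Module.Finite R 𝓔] [Module.Projective R 𝓔]
    (Z : Set (R →ₐ[k] k)) (φ₀ : R →ₐ[k] k)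
    (hcl : ∀ r, (∀ φ ∈ Z, φ r = 0) → φ₀ r = 0) (hnt₀ : Nontrivial (Fib 𝓔 φ₀))
    (hnt : ∀ φ ∈ Z, Nontrivial (Fib 𝓔 φ))
    {x : ℝ} (hx : ∀ φ ∈ Z, rate k (Fib 𝓔 φ) ≤ x) : rate k (Fib 𝓔 φ₀) ≤ x := by
  classical
  obtain ⟨f, hf0, hfree⟩ := exists_free (𝓔 := 𝓔) φ₀
  let P : Type := Localization (Submonoid.powers f)
  have hfreeP : Module.Free P (P ⊗[R] 𝓔) := hfree
  -- lifting of points
  have hlift : ∀ φ : R →ₐ[k] k, φ f ≠ 0 → ∃ ψ : P →ₐ[k] k,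
      ∀ r, ψ (algebraMap R P r) = φ r := exists_lift_away f
  obtain ⟨ψ₀, hψ₀⟩ := hlift φ₀ hf0
  obtain ⟨e₀⟩ := exists_fib_equiv' (𝓔 := 𝓔) φ₀ ψ₀ hψ₀
  have hntP : Nontrivial (Fib (P ⊗[R] 𝓔) ψ₀) := e₀.symm.toEquiv.nontrivial
  have hfinF : ∀ φ : R →ₐ[k] k, Module.Finite k (Fib 𝓔 φ) := finite_fib
  have hrate : ∀ (φ : R →ₐ[k] k) (ψ : P →ₐ[k] k), (∀ r, ψ (algebraMap R P r) = φ r) →
      Nontrivial (Fib 𝓔 φ) → rate k (Fib 𝓔 φ) = rate k (Fib (P ⊗[R] 𝓔) ψ) := by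
    intro φ ψ h h1
    obtain ⟨e⟩ := exists_fib_equiv' (𝓔 := 𝓔) φ ψ h
    have h2 : Nontrivial (Fib (P ⊗[R] 𝓔) ψ) := e.symm.toEquiv.nontrivial
    have h3 := hfinF φ
    have h4 : Module.Finite k (Fib (P ⊗[R] 𝓔) ψ) := Module.Finite.equiv e.toLinearEquiv
    exact N86.SQ.rate_congr e
  rw [hrate φ₀ ψ₀ hψ₀ hnt₀]
  refine closure_fib (𝓔 := P ⊗[R] 𝓔) {ψ : P →ₐ[k] k | res (R := R) ψ ∈ Z} ψ₀ (fun y hy => ?_)
    hntP fun ψ hψ => ?_
  · obtain ⟨r, s, rfl⟩ := IsLocalization.exists_mk'_eq (Submonoid.powers f) y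
    have h1 : φ₀ (f * r) = 0 := by
      refine hcl _ fun φ hφ => ?_
      rw [map_mul]
      by_cases h : φ f = 0
      · rw [h, zero_mul]
      · obtain ⟨ψ, hψ⟩ := hlift φ h
        have h2 : res (R := R) ψ = φ := AlgHom.ext hψ
        have h3 := hy ψ (by change res (R := R) ψ ∈ Z; rw [h2]; exact hφ)
        have h4 := IsLocalization.mk'_spec P r s
        have h5 := congrArg ψ h4
        rw [map_mul, h3, zero_mul, hψ] at h5
        rw [← h5, mul_zero]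
    rw [map_mul] at h1
    have h2 : φ₀ r = 0 := (mul_eq_zero.1 h1).resolve_left hf0
    have h4 := IsLocalization.mk'_spec P r s
    have h5 := congrArg ψ₀ h4
    rw [map_mul, hψ₀, hψ₀, h2] at h5
    refine (mul_eq_zero.1 h5).resolve_right ?_
    obtain ⟨_, n, rfl⟩ := s
    change φ₀ (f ^ n) ≠ 0
    rw [map_pow]
    exact pow_ne_zero n hf0
  · rw [← hrate (res (R := R) ψ) ψ (fun r => rfl) (hnt _ hψ)]
    exact hx _ hψ

/-- a set of `k`-points of `Spec R` is Zariski closed if it is the set of the common zeros of an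
ideal -/
def IsZariskiClosed {k : Type} [Field k] {R : Type} [CommRing R] [Algebra k R]
    (S : Set (R →ₐ[k] k)) : Prop :=
  ∃ I : Ideal R, ∀ φ : R →ₐ[k] k, φ ∈ S ↔ ∀ r ∈ I, φ r = 0

theorem isZariskiClosed_of {R : Type} [CommRing R] [Algebra k R] {S : Set (R →ₐ[k] k)}
    (h : ∀ φ₀ : R →ₐ[k] k, (∀ r, (∀ φ ∈ S, φ r = 0) → φ₀ r = 0) → φ₀ ∈ S) :
    IsZariskiClosed S := by
  have hmem : ∀ x : R, x ∈ (⨅ φ : S, RingHom.ker (φ : R →ₐ[k] k)) ↔ ∀ φ ∈ S, φ x = 0 := by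
    intro x
    rw [Ideal.mem_iInf]
    constructor
    · intro h φ hφ
      exact h ⟨φ, hφ⟩
    · rintro h ⟨φ, hφ⟩
      exact h φ hφ
  refine ⟨⨅ φ : S, RingHom.ker (φ : R →ₐ[k] k), fun φ => ⟨fun hφ r hr => ?_, fun hφ => ?_⟩⟩
  · exact (hmem r).1 hr φ hφ
  · exact h φ fun r hr => hφ r ((hmem r).2 hr)

theorem isZariskiClosed_rate {R : Type} [CommRing R] [Algebra k R] {𝓔 : Type} [CommRing 𝓔]
    [Algebra R 𝓔] [Algebra k 𝓔] [IsScalarTower k R 𝓔] [Module.Finite R 𝓔] [Module.Projective R 𝓔]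
    (hnt : ∀ φ : R →ₐ[k] k, Nontrivial (Fib 𝓔 φ)) (x : ℝ) :
    IsZariskiClosed {φ : R →ₐ[k] k | rate k (Fib 𝓔 φ) ≤ x} :=
  isZariskiClosed_of fun φ₀ hcl =>
    closure_proj (𝓔 := 𝓔) _ φ₀ hcl (hnt φ₀) (fun φ _ => hnt φ) fun _ hφ => hφ

theorem isZariskiClosed_qOne {R : Type} [CommRing R] [Algebra k R] {𝓔 : Type} [CommRing 𝓔]
    [Algebra R 𝓔] [Algebra k 𝓔] [IsScalarTower k R 𝓔] [Module.Finite R 𝓔] [Module.Projective R 𝓔]
    (hnt : ∀ φ : R →ₐ[k] k, Nontrivial (Fib 𝓔 φ)) :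
    IsZariskiClosed {φ : R →ₐ[k] k | QOne k (Fib 𝓔 φ)} := by
  refine isZariskiClosed_of fun φ₀ hcl => ?_
  have hfin := fun φ : R →ₐ[k] k => finite_fib (𝓔 := 𝓔) φ
  obtain ⟨f, hf0, hf⟩ := exists_finrank_eq (𝓔 := 𝓔) φ₀
  change QOne k (Fib 𝓔 φ₀)
  rw [qOne_iff_rate]
  refine le_antisymm ?_ (finrank_le_rate (k := k) (Fib 𝓔 φ₀))
  refine closure_proj (𝓔 := 𝓔) {φ : R →ₐ[k] k | QOne k (Fib 𝓔 φ) ∧ φ f ≠ 0} φ₀ (fun r hr => ?_)
    (hnt φ₀) (fun φ _ => hnt φ) fun φ hφ => ?_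
  · have h1 : φ₀ (f * r) = 0 := by
      refine hcl _ fun φ hφ => ?_
      rw [map_mul]
      by_cases h : φ f = 0
      · rw [h, zero_mul]
      · rw [hr φ ⟨hφ, h⟩, mul_zero]
    rw [map_mul] at h1
    exact (mul_eq_zero.1 h1).resolve_left hf0
  · have h2 : QOne k (Fib 𝓔 φ) := hφ.1
    rw [qOne_iff_rate, hf φ hφ.2] at h2
    exact h2.le

end Pool.Agent.U627.ZC
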