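import Pool.Agent.U627.ZC.Par

/-!
# From an algebraically closed field to a larger one
-/

set_option autoImplicit false
set_option linter.unusedSectionVars false

namespace Pool.Agent.U627.ZC

open scoped TensorProduct
open Pool.Agent.H826R3.SM Pool.Agent.TH671.DU Pool.Agent.N86.SQ Pool.Agent.U922.WO
open MvPolynomial

/-- the points of a reduced algebra of finite type over an algebraically closed field separate its
elements from zero -/
theorem eq_zero_of_points {k : Type} [Field k] [IsAlgClosed k] {R : Type} [CommRing R]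
    [IsDomain R] [Algebra k R] [Algebra.FiniteType k R] {r : R} (h : ∀ φ : R →ₐ[k] k, φ r = 0) :
    r = 0 := by
  have hJ : IsJacobsonRing R := isJacobsonRing_of_finiteType (A := k)
  have h1 : (⊥ : Ideal R).jacobson = ⊥ := hJ.out (Ideal.isPrime_bot.isRadical)
  have h2 : r ∈ (⊥ : Ideal R).jacobson := by
    unfold Ideal.jacobson
    rw [Ideal.mem_sInf]
    rintro M ⟨-, hM⟩
    let _ : Field (R ⧸ M) := Ideal.Quotient.field M
    have hft : Algebra.FiniteType k (R ⧸ M) :=
      Algebra.FiniteType.of_surjective (Ideal.Quotient.mkₐ k M)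
        (Ideal.Quotient.mkₐ_surjective k M)
    have hfin : Module.Finite k (R ⧸ M) := finite_of_finite_type_of_isJacobsonRing k (R ⧸ M)
    have hbij : Function.Bijective (algebraMap k (R ⧸ M)) :=
      IsAlgClosed.algebraMap_bijective_of_isIntegral
    let e : k ≃ₐ[k] (R ⧸ M) := AlgEquiv.ofBijective (Algebra.ofId k (R ⧸ M)) hbij
    have h3 := h (e.symm.toAlgHom.comp (Ideal.Quotient.mkₐ k M))
    have h4 : e.symm (Ideal.Quotient.mk M r) = 0 := h3
    have h5 : Ideal.Quotient.mk M r = 0 := by
      apply e.symm.injective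
      rw [h4, map_zero]
    exact Ideal.Quotient.eq_zero_iff_mem.1 h5
  rw [h1] at h2
  exact h2

/-- a polynomial over `K` which vanishes at all specializations of a point vanishes at it -/
theorem eval_eq_zero {k K : Type} [Field k] [IsAlgClosed k] [Field K] [Algebra k K] {τ : Type}
    [Finite τ] (p : τ → K) (hp : ∀ v, p v ∈ Algebra.adjoin k (Set.range p))
    (Q : MvPolynomial τ K)
    (h : ∀ φ : Algebra.adjoin k (Set.range p) →ₐ[k] k,
      eval (fun v => algebraMap k K (φ ⟨p v, hp v⟩)) Q = 0) : eval p Q = 0 := by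
  classical
  let R := Algebra.adjoin k (Set.range p)
  have hft : Algebra.FiniteType k R :=
    (Subalgebra.fg_iff_finiteType R).1
      ⟨(Set.finite_range p).toFinset, by rw [Set.Finite.coe_toFinset]⟩
  let pR : τ → R := fun v => ⟨p v, hp v⟩
  -- the linear functionals
  have key : ∀ l : K →ₗ[k] k, ∑ s ∈ Q.support, algebraMap k K (l (coeff s Q)) *
      (∏ v ∈ s.support, p v ^ s v) = 0 := by
    intro l
    let r : R := ∑ s ∈ Q.support, algebraMap k R (l (coeff s Q)) * (∏ v ∈ s.support, pR v ^ s v)
    have hr : (r : K) = ∑ s ∈ Q.support, algebraMap k K (l (coeff s Q)) *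
        (∏ v ∈ s.support, p v ^ s v) := by
      change R.val r = _
      rw [map_sum]
      refine Finset.sum_congr rfl fun s _ => ?_
      rw [map_mul, AlgHom.commutes, map_prod]
      congr 1
    rw [← hr]
    have h0 : r = 0 := by
      refine eq_zero_of_points (k := k) fun φ => ?_
      have h1 : φ r = l (eval (fun v => algebraMap k K (φ ⟨p v, hp v⟩)) Q) := by
        rw [eval_eq, map_sum, map_sum]
        refine Finset.sum_congr rfl fun s _ => ?_
        have h2 : coeff s Q * ∏ v ∈ s.support, (algebraMap k K (φ ⟨p v, hp v⟩)) ^ s v =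
            (∏ v ∈ s.support, φ (pR v) ^ s v) • coeff s Q := by
          rw [Algebra.smul_def, map_prod, mul_comm]
          congr 1
          exact Finset.prod_congr rfl fun v _ => by rw [map_pow]
        rw [h2, map_smul, map_mul, AlgHom.commutes, map_prod, smul_eq_mul, mul_comm]
        congr 1
        exact Finset.prod_congr rfl fun v _ => by rw [map_pow]
      rw [h1, h φ, map_zero]
    rw [h0]
    rfl
  -- a basis of `K` over `k`
  let β := Module.Basis.ofVectorSpace k K
  let I := Q.support.biUnion fun s => (β.repr (coeff s Q)).support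
  have hexp : ∀ s ∈ Q.support, coeff s Q =
      ∑ i ∈ I, algebraMap k K (β.repr (coeff s Q) i) * β i := by
    intro s hs
    conv_lhs => rw [← β.linearCombination_repr (coeff s Q), Finsupp.linearCombination_apply]
    rw [Finsupp.sum_of_support_subset (β.repr (coeff s Q)) (s := I) (Finset.subset_biUnion_of_mem
      (fun s => (β.repr (coeff s Q)).support) hs) (fun i a => a • β i)
      (fun i _ => zero_smul k (β i))]
    exact Finset.sum_congr rfl fun i _ => Algebra.smul_def _ _
  rw [eval_eq]
  have h3 : ∑ s ∈ Q.support, coeff s Q * ∏ v ∈ s.support, p v ^ s v =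
      ∑ i ∈ I, β i * ∑ s ∈ Q.support, algebraMap k K ((β.coord i) (coeff s Q)) *
        (∏ v ∈ s.support, p v ^ s v) := by
    simp_rw [Finset.mul_sum]
    rw [Finset.sum_comm]
    refine Finset.sum_congr rfl fun s hs => ?_
    conv_lhs => rw [hexp s hs, Finset.sum_mul]
    refine Finset.sum_congr rfl fun i _ => ?_
    rw [Module.Basis.coord_apply]
    ring
  rw [h3]
  exact Finset.sum_eq_zero fun i _ => by rw [key (β.coord i), mul_zero]

/-- **Bounds for the growth rates of all schemes of degree `d` pass to larger fields.** -/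
theorem rate_le_up (k K : Type) [Field k] [IsAlgClosed k] [Field K] [IsAlgClosed K] [Algebra k K]
    {d : ℕ} {x : ℝ} (h : ∀ (A : Type) [CommRing A] [Algebra k A] [Module.Finite k A]
      [Nontrivial A], Module.finrank k A = d → rate k A ≤ x)
    (B : Type) [CommRing B] [Algebra K B] [Module.Finite K B] [Nontrivial B]
    (hB : Module.finrank K B = d) : rate K B ≤ x := by
  classical
  let c : Module.Basis (Fin d) K B := Module.finBasisOfFinrankEq K B hB
  let R : Subalgebra k K := Algebra.adjoin k (Set.range (par c))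
  have hR : ∀ v, par c v ∈ R := fun v => Algebra.subset_adjoin ⟨v, rfl⟩
  have h1 : ∀ m, c.repr 1 m ∈ R := fun m => hR (Sum.inr m)
  have h2 : ∀ i j m, c.repr (c i * c j) m ∈ R := fun i j m => hR (Sum.inl (i, j, m))
  obtain ⟨b, hb, hbr⟩ := exists_coord_basis R c h1 h2
  let _ : Algebra k (coordSub R c h1 h2) :=
    ((algebraMap R (coordSub R c h1 h2)).comp (algebraMap k R)).toAlgebra
  have _ : IsScalarTower k R (coordSub R c h1 h2) := IsScalarTower.of_algebraMap_eq fun _ => rfl
  choose bφ hbφ hbφr using fun φ : R →ₐ[k] k => exists_fib_basis b φ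
  have hd : 0 < d := by
    rw [← hB]
    exact Module.finrank_pos
  have hfin : ∀ φ : R →ₐ[k] k, Module.Finite k (Fib (coordSub R c h1 h2) φ) := fun φ =>
    Module.Finite.of_basis (bφ φ)
  have hrk : ∀ φ : R →ₐ[k] k, Module.finrank k (Fib (coordSub R c h1 h2) φ) = d := fun φ => by
    rw [Module.finrank_eq_card_basis (bφ φ), Fintype.card_fin]
  have hnt : ∀ φ : R →ₐ[k] k, Nontrivial (Fib (coordSub R c h1 h2) φ) := fun φ =>
    Module.nontrivial_of_finrank_pos (R := k) (by rw [hrk φ]; exact hd)
  have hpar : ∀ (φ : R →ₐ[k] k) v, par (bφ φ) v = φ ⟨par c v, hR v⟩ := by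
    rintro φ (⟨i, j, m⟩ | m)
    · change (bφ φ).repr (bφ φ i * bφ φ j) m = _
      rw [hbφ, hbφ, ← map_mul, hbφr]
      congr 1
      refine Subtype.ext ?_
      rw [hbr]
      change c.repr ((b i : B) * (b j : B)) m = c.repr (c i * c j) m
      rw [hb, hb]
    · change (bφ φ).repr 1 m = _
      rw [← map_one (pr (coordSub R c h1 h2) φ), hbφr]
      congr 1
      refine Subtype.ext ?_
      rw [hbr]
      rfl
  refine closure_par' (E := fun φ : R →ₐ[k] k => K ⊗[k] Fib (coordSub R c h1 h2) φ) c
    (fun φ => Algebra.TensorProduct.basis K (bφ φ)) (fun Q hQ => ?_) fun φ => ?_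
  · refine eval_eq_zero (k := k) (par c) hR Q fun φ => ?_
    rw [← hQ φ]
    congr 1
    have h3 : par (Algebra.TensorProduct.basis K (bφ φ)) =
        fun v => algebraMap k K (par (bφ φ) v) := by
      funext v
      rcases v with ⟨i, j, m⟩ | m
      · change (Algebra.TensorProduct.basis K (bφ φ)).repr
          (Algebra.TensorProduct.basis K (bφ φ) i * Algebra.TensorProduct.basis K (bφ φ) j) m =
          algebraMap k K ((bφ φ).repr (bφ φ i * bφ φ j) m)
        rw [Algebra.TensorProduct.basis_apply, Algebra.TensorProduct.basis_apply,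
          Algebra.TensorProduct.tmul_mul_tmul, mul_one, Algebra.TensorProduct.basis_repr_tmul,
          one_smul, Finsupp.mapRange_apply]
      · change (Algebra.TensorProduct.basis K (bφ φ)).repr 1 m =
          algebraMap k K ((bφ φ).repr 1 m)
        rw [Algebra.TensorProduct.one_def, Algebra.TensorProduct.basis_repr_tmul,
          one_smul, Finsupp.mapRange_apply]
    rw [h3]
    have h4 : (fun v => algebraMap k K (φ ⟨par c v, hR v⟩)) =
        fun v => algebraMap k K (par (bφ φ) v) := funext fun v => by rw [hpar]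
    rw [h4]
  · refine (rate_baseChange_le k K (Fib (coordSub R c h1 h2) φ)).trans ?_
    exact h _ (hrk φ)

end Pool.Agent.U627.ZC
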